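import Mathlib
import Pool.Agent.Helper58.KW.Final

set_option autoImplicit false

/-!
# Restricted Lie algebras inside an associative algebra with a PBW theorem

`RD`: the data.  `dS e T`: the derivation of the symmetric algebra attached to a linear map `T`.
`RR`: the symbols of the commutators `[x, u]` respect the relations between the Hamiltonian vector
fields.  `RR_of_dense`: this can be tested at the points of a dense open set.
-/

namespace Pool.Agent.Helper34.KW

open MvPolynomial Module Finset Pool.Agent.Helper58.KW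

variable {k : Type*} [Field k] {V : Type*} [AddCommGroup V] [Module k V] {A : Type*} [Ring A]
  [Algebra k A] {X : Type*}

/-- A Lie algebra `V` (bracket `br`) inside the associative algebra `A`, with a PBW theorem, such
that `ι (e x) ^ p - ι (pm x)` is central for all members `e x` of the basis. -/
structure RD (p : ℕ) (ι : V →ₗ[k] A) (e : Basis X k V) (symb : MvPolynomial X k →ₗ[k] A)
    (br : V →ₗ[k] V →ₗ[k] V) (pm : X → V) : Prop where
  pbw : PBW ι e symb
  iota_br : ∀ v w, ι (br v w) = ι v * ι w - ι w * ι v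
  cen : ∀ x a, (ι (e x) ^ p - ι (pm x)) * a = a * (ι (e x) ^ p - ι (pm x))

/-- The derivation of the symmetric algebra attached to a linear map. -/
noncomputable def dS (e : Basis X k V) (T : V →ₗ[k] V) :
    Derivation k (MvPolynomial X k) (MvPolynomial X k) :=
  mkDerivation k fun x => linf e (T (e x))

theorem dS_X (e : Basis X k V) (T : V →ₗ[k] V) (x : X) :
    dS e T (MvPolynomial.X x) = linf e (T (e x)) := by
  unfold dS
  rw [mkDerivation_X]

theorem dS_linf (e : Basis X k V) (T : V →ₗ[k] V) (v : V) :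
    dS e T (linf e v) = linf e (T v) := by
  have h1 : (dS e T : MvPolynomial X k →ₗ[k] MvPolynomial X k) ∘ₗ linf e = linf e ∘ₗ T := by
    refine e.ext fun x => ?_
    show dS e T (linf e (e x)) = linf e (T (e x))
    rw [linf_basis, dS_X]
  exact LinearMap.congr_fun h1 v

/-- Induction over the monomials of a given degree. -/
theorem mono_ind {P : ℕ → (X →₀ ℕ) → Prop} (h0 : P 0 0)
    (hs : ∀ m x μ, Finsupp.degree μ = m → P m μ → P (m + 1) (Finsupp.single x 1 + μ)) :
    ∀ m ν, Finsupp.degree ν = m → P m ν := by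
  intro m
  induction m with
  | zero =>
    intro ν hν
    have h1 : ν = 0 := (Finsupp.degree_eq_zero_iff ν).1 hν
    rw [h1]
    exact h0
  | succ m ih =>
    intro ν hν
    have hne : ν ≠ 0 := by
      rintro rfl
      simp at hν
    obtain ⟨x, hx⟩ := Finsupp.support_nonempty_iff.2 hne
    rw [Finsupp.mem_support_iff] at hx
    obtain ⟨μ, rfl⟩ : ∃ μ : X →₀ ℕ, ν = Finsupp.single x 1 + μ := by
      classical
      refine ⟨ν - Finsupp.single x 1, ?_⟩
      ext z
      rw [Finsupp.add_apply, Finsupp.tsub_apply, Finsupp.single_apply]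
      split_ifs with h
      · subst h
        omega
      · omega
    have hμ : Finsupp.degree μ = m := by
      rw [map_add, Finsupp.degree_single] at hν
      omega
    exact hs m x μ hμ (ih μ hμ)

theorem mono_succ (x : X) (μ : X →₀ ℕ) :
    (monomial (Finsupp.single x 1 + μ) (1 : k)) = MvPolynomial.X x * monomial μ 1 := by
  rw [MvPolynomial.X, monomial_mul, one_mul]

/-- A linear statement about homogeneous polynomials can be checked on monomials. -/
theorem hom_ind {M : Type*} [AddCommGroup M] [Module k M] (N : Submodule k M)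
    (f : MvPolynomial X k →ₗ[k] M) {m : ℕ}
    (h : ∀ ν : X →₀ ℕ, Finsupp.degree ν = m → f (monomial ν 1) ∈ N) {q : MvPolynomial X k}
    (hq : q.IsHomogeneous m) : f q ∈ N := by
  rw [q.as_sum, map_sum]
  refine Submodule.sum_mem _ fun ν hν => ?_
  have h1 : Finsupp.degree ν = m := by
    have := hq (MvPolynomial.mem_support_iff.1 hν)
    rw [wt_one] at this
    exact this
  have h2 : (monomial ν (coeff ν q)) = (coeff ν q) • monomial ν (1 : k) := by
    rw [smul_monomial, smul_eq_mul, mul_one]
  rw [h2, map_smul]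
  exact Submodule.smul_mem _ _ (h ν h1)

theorem dS_hom (e : Basis X k V) (T : V →ₗ[k] V) {m : ℕ} {q : MvPolynomial X k}
    (hq : q.IsHomogeneous m) : (dS e T q).IsHomogeneous m := by
  have h1 := hom_ind (homogeneousSubmodule X k m)
    (dS e T : MvPolynomial X k →ₗ[k] MvPolynomial X k) (m := m) ?_ hq
  · exact h1
  · intro ν hν
    refine mono_ind (P := fun m ν => dS e T (monomial ν 1) ∈ homogeneousSubmodule X k m)
      ?_ ?_ m ν hν
    · have h1 : (monomial (0 : X →₀ ℕ) (1 : k)) = 1 := rfl
      rw [h1, Derivation.map_one_eq_zero]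
      exact Submodule.zero_mem _
    · intro m x μ hμ ih
      rw [mono_succ, Derivation.leibniz, smul_eq_mul, smul_eq_mul]
      refine Submodule.add_mem _ ?_ ?_
      · rw [add_comm m 1]
        exact (isHomogeneous_X k x).mul ih
      · rw [dS_X]
        exact (isHomogeneous_monomial (1 : k) hμ).mul (linf_hom e _)

section compat

variable {ι : V →ₗ[k] A} {e : Basis X k V} {symb : MvPolynomial X k →ₗ[k] A}

/-- A derivation of `A` is compatible with that of the symmetric algebra. -/
theorem compat (h : PBW ι e symb) (D : A →ₗ[k] A)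
    (hD : ∀ a b, D (a * b) = D a * b + a * D b) (T : V →ₗ[k] V) (hι : ∀ v, D (ι v) = ι (T v))
    {m : ℕ} {q : MvPolynomial X k} (hq : q.IsHomogeneous m) :
    D (symb q) - symb (dS e T q) ∈ G ι m := by
  have hX : ∀ x, D (ι (e x)) = symb (dS e T (MvPolynomial.X x)) := by
    intro x
    rw [hι, dS_X]
    have h1 : symb ∘ₗ linf e = ι := by
      refine e.ext fun x => ?_
      rw [LinearMap.comp_apply, linf_basis, h.symb_X]
    exact (LinearMap.congr_fun h1 _).symm
  let f : MvPolynomial X k →ₗ[k] A := D ∘ₗ symb -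
    symb ∘ₗ (dS e T : MvPolynomial X k →ₗ[k] MvPolynomial X k)
  refine hom_ind (G ι m) f ?_ hq
  intro ν hν
  refine mono_ind (P := fun m ν => D (symb (monomial ν 1)) - symb (dS e T (monomial ν 1)) ∈ G ι m)
    ?_ ?_ m ν hν
  · have h1 : (monomial (0 : X →₀ ℕ) (1 : k)) = 1 := rfl
    rw [h1, h.symb_one, leib_one D hD, Derivation.map_one_eq_zero, map_zero, sub_zero]
    exact Submodule.zero_mem _
  · intro m x μ hμ ih
    have hq' : (monomial μ (1 : k)).IsHomogeneous m := isHomogeneous_monomial _ hμ
    have hXh : (MvPolynomial.X x : MvPolynomial X k).IsHomogeneous 1 := isHomogeneous_X _ _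
    have e1 := h.symb_mul hXh hq'
    have e2 := h.symb_mul (dS_hom e T hXh) hq'
    have e3 := h.symb_mul hXh (dS_hom e T hq')
    have e4 := G_mul ι (iota_mem_G ι (e x) (d := 1 + 1) (by omega)) ih
    have e5 := der_G ι D hD T hι e1
    rw [h.symb_X] at e1 e3 e5
    rw [← hX] at e2
    rw [map_sub, hD] at e5
    rw [mono_succ, Derivation.leibniz, map_add, smul_eq_mul, smul_eq_mul,
      mul_comm (monomial μ (1 : k)), add_comm m 1]
    rw [mul_sub] at e4
    have e6 := Submodule.sub_mem _ (Submodule.add_mem _ (Submodule.add_mem _ e2 e3) e4) e5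
    convert e6 using 1
    abel

/-- The commutator with `ι v`. -/
noncomputable def adA (ι : V →ₗ[k] A) (v : V) : A →ₗ[k] A :=
  LinearMap.mulLeft k (ι v) - LinearMap.mulRight k (ι v)

theorem adA_apply (ι : V →ₗ[k] A) (v : V) (a : A) : adA ι v a = ι v * a - a * ι v := rfl

theorem adA_mul (ι : V →ₗ[k] A) (v : V) (a b : A) :
    adA ι v (a * b) = adA ι v a * b + a * adA ι v b := by
  simp only [adA_apply]
  noncomm_ring

theorem adA_add (ι : V →ₗ[k] A) (v w : V) (a : A) :
    adA ι (v + w) a = adA ι v a + adA ι w a := by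
  simp only [adA_apply, map_add]
  noncomm_ring

theorem adA_smul (ι : V →ₗ[k] A) (c : k) (v : V) (a : A) :
    adA ι (c • v) a = c • adA ι v a := by
  simp only [adA_apply, map_smul, smul_mul_assoc, mul_smul_comm, smul_sub]

theorem adA_sum [Fintype X] (ι : V →ₗ[k] A) (e : Basis X k V) (v : V) (a : A) :
    adA ι v a = ∑ x, e.repr v x • adA ι (e x) a := by
  conv_lhs => rw [← e.sum_repr v]
  have : ∀ s : Finset X, adA ι (∑ x ∈ s, e.repr v x • e x) a =
      ∑ x ∈ s, e.repr v x • adA ι (e x) a := by
    classical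
    intro s
    induction s using Finset.induction_on with
    | empty => simp [adA_apply]
    | insert y s hy ih => rw [sum_insert hy, sum_insert hy, adA_add, adA_smul, ih]
  exact this univ

variable {p : ℕ} {br : V →ₗ[k] V →ₗ[k] V} {pm : X → V}

theorem RD.adA_iota (h : RD p ι e symb br pm) (v w : V) : adA ι v (ι w) = ι (br v w) := by
  rw [adA_apply, h.iota_br]

theorem RD.adA_G (h : RD p ι e symb br pm) (v : V) {d : ℕ} {a : A} (ha : a ∈ G ι d) :
    adA ι v a ∈ G ι d :=
  der_G ι (adA ι v) (adA_mul ι v) (br v) (h.adA_iota v) ha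

/-- The Hamiltonian derivation of `v`. -/
noncomputable abbrev Ham (e : Basis X k V) (br : V →ₗ[k] V →ₗ[k] V) (v : V) :
    Derivation k (MvPolynomial X k) (MvPolynomial X k) := dS e (br v)

theorem RD.compat (h : RD p ι e symb br pm) (v : V) {m : ℕ} {q : MvPolynomial X k}
    (hq : q.IsHomogeneous m) : adA ι v (symb q) - symb (Ham e br v q) ∈ G ι m :=
  KW.compat h.pbw (adA ι v) (adA_mul ι v) (br v) (h.adA_iota v) hq

/-- symbols of commutators -/
theorem RD.ad_symb (h : RD p ι e symb br pm) (v : V) {m : ℕ} {a : A} {q : MvPolynomial X k}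
    (hq : q.IsHomogeneous m) (ha : a - symb q ∈ G ι m) :
    adA ι v a - symb (Ham e br v q) ∈ G ι m := by
  have h1 := Submodule.add_mem _ (h.adA_G v ha) (h.compat v hq)
  rw [map_sub] at h1
  convert h1 using 1
  abel

theorem RD.iota_inj (h : RD p ι e symb br pm) : Function.Injective ι := by
  rw [injective_iff_map_eq_zero]
  intro v hv
  have h0 : ∀ v, symb (linf e v) = ι v := by
    intro v
    have h1 : symb ∘ₗ linf e = ι := by
      refine e.ext fun x => ?_
      rw [LinearMap.comp_apply, linf_basis, h.pbw.symb_X]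
    exact LinearMap.congr_fun h1 v
  have h1 : linf e v = 0 := by
    refine h.pbw.symb_lead (linf_hom e v) ?_
    rw [h0, hv]
    exact Submodule.zero_mem _
  have h2 : ∀ w : V, linf e w = (e.repr w).sum fun x c => c • MvPolynomial.X x := by
    intro w
    unfold linf
    rw [Basis.constr_apply]
  have h3 : ∀ x, coeff (Finsupp.single x 1) (linf e v) = e.repr v x := by
    classical
    intro x
    rw [h2, Finsupp.sum, coeff_sum, Finset.sum_eq_single x]
    · rw [coeff_smul, coeff_X, smul_eq_mul, if_pos rfl, mul_one]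
    · intro y _ hy
      rw [coeff_smul, coeff_X, if_neg, smul_zero]
      intro h
      exact hy (Finsupp.single_left_injective one_ne_zero h)
    · intro hx
      rw [Finsupp.notMem_support_iff.1 hx, zero_smul, coeff_zero]
  apply e.repr.injective
  ext x
  rw [← h3, h1, coeff_zero, map_zero, Finsupp.zero_apply]

/-- symbols of a combination -/
theorem RD.symb_unique (h : RD p ι e symb br pm) {m : ℕ} {a : A} {q q' : MvPolynomial X k}
    (hq : q.IsHomogeneous m) (hq' : q'.IsHomogeneous m) (ha : a - symb q ∈ G ι m)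
    (ha' : a - symb q' ∈ G ι m) : q = q' := by
  have h1 := Submodule.sub_mem _ ha' ha
  have h2 : a - symb q' - (a - symb q) = symb (q - q') := by
    rw [map_sub]
    abel
  rw [h2] at h1
  exact sub_eq_zero.1 (h.pbw.symb_lead (hq.sub hq') h1)

variable [Fintype X]

/-- The cocycle identity for symbols. -/
theorem RD.coc (h : RD p ι e symb br pm) {u : A} {m : ℕ} {q : X → MvPolynomial X k}
    (hq : ∀ x, (q x).IsHomogeneous m) (hu : ∀ x, adA ι (e x) u - symb (q x) ∈ G ι m) (x y : X) :
    Ham e br (e x) (q y) - Ham e br (e y) (q x) =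
      ∑ z, e.repr (br (e x) (e y)) z • q z := by
  refine h.symb_unique (m := m) (a := adA ι (br (e x) (e y)) u) ?_ ?_ ?_ ?_
  · exact (dS_hom e _ (hq y)).sub (dS_hom e _ (hq x))
  · refine Submodule.sum_mem (homogeneousSubmodule X k m) fun z _ => ?_
    exact Submodule.smul_mem _ _ (hq z)
  · have h1 : adA ι (br (e x) (e y)) u = adA ι (e x) (adA ι (e y) u) -
        adA ι (e y) (adA ι (e x) u) := by
      rw [adA_apply, h.iota_br]
      simp only [adA_apply]
      noncomm_ring
    have h2 := h.ad_symb (e x) (hq y) (hu y)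
    have h3 := h.ad_symb (e y) (hq x) (hu x)
    have h4 := Submodule.sub_mem _ h2 h3
    rw [h1, map_sub]
    convert h4 using 1
    abel
  · rw [adA_sum ι e, map_sum, ← sum_sub_distrib]
    refine Submodule.sum_mem _ fun z _ => ?_
    rw [map_smul, ← smul_sub]
    exact Submodule.smul_mem _ _ (hu z)

theorem adA_pow [Nontrivial A] [hp : Fact p.Prime] [CharP k p] (v : V) (a : A) :
    ((adA ι v) ^ p) a = ι v ^ p * a - a * ι v ^ p := by
  have hch : CharP (A →ₗ[k] A) p := by
    have hnt : Nontrivial (A →ₗ[k] A) := by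
      refine ⟨⟨LinearMap.id, 0, fun h => ?_⟩⟩
      have := LinearMap.congr_fun h 1
      simp at this
    exact charP_of_injective_algebraMap (FaithfulSMul.algebraMap_injective k (Module.End k A)) p
  have hcomm : Commute (LinearMap.mulLeft k (ι v)) (LinearMap.mulRight k (ι v)) :=
    LinearMap.commute_mulLeft_right _ _
  unfold adA
  have h1 : (LinearMap.mulLeft k (ι v) - LinearMap.mulRight k (ι v)) ^ p =
      LinearMap.mulLeft k (ι v) ^ p - LinearMap.mulRight k (ι v) ^ p :=
    sub_pow_char_of_commute (R := Module.End k A) p hcomm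
  rw [h1, LinearMap.pow_mulLeft, LinearMap.pow_mulRight]
  rfl

/-- The restricted cocycle identity. -/
theorem RD.res [Nontrivial A] [hp : Fact p.Prime] [CharP k p] (h : RD p ι e symb br pm) {u : A}
    {m : ℕ} {q : X → MvPolynomial X k} (hq : ∀ x, (q x).IsHomogeneous m)
    (hu : ∀ x, adA ι (e x) u - symb (q x) ∈ G ι m) (x : X) :
    (Ham e br (e x))^[p - 1] (q x) = ∑ z, e.repr (pm x) z • q z := by
  have hit : ∀ n : ℕ, ((Ham e br (e x))^[n] (q x)).IsHomogeneous m ∧
      ((adA ι (e x)) ^ n) (adA ι (e x) u) - symb ((Ham e br (e x))^[n] (q x)) ∈ G ι m := by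
    intro n
    induction n with
    | zero => exact ⟨hq x, hu x⟩
    | succ n ih =>
      rw [Function.iterate_succ_apply', pow_succ', Module.End.mul_apply]
      exact ⟨dS_hom e _ ih.1, h.ad_symb _ ih.1 ih.2⟩
  obtain ⟨h1, h2⟩ := hit (p - 1)
  refine h.symb_unique h1 ?_ h2 ?_
  · refine Submodule.sum_mem (homogeneousSubmodule X k m) fun z _ => ?_
    exact Submodule.smul_mem _ _ (hq z)
  · have h3 : ((adA ι (e x)) ^ (p - 1)) (adA ι (e x) u) = adA ι (pm x) u := by
      have h4 : ((adA ι (e x)) ^ (p - 1)) (adA ι (e x) u) = ((adA ι (e x)) ^ p) u := by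
        have h5 : (adA ι (e x)) ^ p = (adA ι (e x)) ^ (p - 1) * adA ι (e x) := by
          rw [← pow_succ]
          congr 1
          have := hp.out.pos
          omega
        rw [h5, Module.End.mul_apply]
      rw [h4, adA_pow, adA_apply]
      have h5 := h.cen x u
      rw [sub_mul, mul_sub] at h5
      have h6 : ι (e x) ^ p * u - u * ι (e x) ^ p -
          (ι (pm x) * u - u * ι (pm x)) = 0 := by
        have h7 := sub_eq_zero.2 h5
        rw [← h7]
        abel
      exact sub_eq_zero.1 h6
    rw [h3, adA_sum ι e, map_sum, ← sum_sub_distrib]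
    refine Submodule.sum_mem _ fun z _ => ?_
    rw [map_smul, ← smul_sub]
    exact Submodule.smul_mem _ _ (hu z)

/-- The symbols of the commutators respect the relations between the Hamiltonian vector fields. -/
def RR (ι : V →ₗ[k] A) (e : Basis X k V) (symb : MvPolynomial X k →ₗ[k] A)
    (br : V →ₗ[k] V →ₗ[k] V) : Prop :=
  ∀ (u : A) (m : ℕ) (q : X → MvPolynomial X k), (∀ x, (q x).IsHomogeneous m) →
    (∀ x, adA ι (e x) u - symb (q x) ∈ G ι m) → ∀ c : X → MvPolynomial X k,
      (∀ y, ∑ x, c x * linf e (br (e x) (e y)) = 0) → ∑ x, c x * q x = 0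

/-- The same at a point `θ` of the dual space. -/
def Eth (ι : V →ₗ[k] A) (e : Basis X k V) (symb : MvPolynomial X k →ₗ[k] A)
    (br : V →ₗ[k] V →ₗ[k] V) (θ : X → k) : Prop :=
  ∀ (u : A) (m : ℕ) (q : X → MvPolynomial X k), (∀ x, (q x).IsHomogeneous m) →
    (∀ x, adA ι (e x) u - symb (q x) ∈ G ι m) → ∀ w : X → k,
      (∀ y, ∑ x, w x * eval θ (linf e (br (e x) (e y))) = 0) → ∑ x, w x * eval θ (q x) = 0

theorem RR_of_dense [Infinite k] (h : MvPolynomial X k) (hh : h ≠ 0)
    (hE : ∀ θ : X → k, eval θ h ≠ 0 → Eth ι e symb br θ) : RR ι e symb br := by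
  intro u m q hq hu c hc
  by_contra hne
  have h1 : h * ∑ x, c x * q x ≠ 0 := mul_ne_zero hh hne
  obtain ⟨θ, hθ⟩ : ∃ θ : X → k, eval θ (h * ∑ x, c x * q x) ≠ 0 := by
    by_contra hall
    push Not at hall
    exact h1 (MvPolynomial.funext fun θ => by rw [hall θ, map_zero])
  rw [map_mul] at hθ
  have h2 := hE θ (left_ne_zero_of_mul hθ) u m q hq hu (fun x => eval θ (c x)) (by
    intro y
    have h3 := congrArg (eval θ) (hc y)
    rw [map_sum, map_zero] at h3
    simp only [map_mul] at h3
    exact h3)
  apply right_ne_zero_of_mul hθ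
  rw [map_sum]
  simp only [map_mul]
  exact h2

end compat

end Pool.Agent.Helper34.KW
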