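import Mathlib
import Pool.Agent.Helper34.KW.Set

set_option autoImplicit false

/-!
# The central polynomial ring and the graded structure over the `p`-th powers

`zeta h : MvPolynomial X k →ₐ[k] A` sends `X x` to the central element `ι (e x) ^ p - ι (pm x)`.
`exists_span`: elements of degree `≤ m` are combinations of the reduced monomials with central
coefficients of controlled degree.  `indep_lift`: elements whose symbols are independent over the
`p`-th powers are independent over the central polynomial ring.
-/

namespace Pool.Agent.Helper34.KW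

open MvPolynomial Module Finset Pool.Agent.Helper58.KW

section graded

variable {k : Type*} [Field k] {X : Type*} {p : ℕ}

theorem expand_hom {t : ℕ} {r : MvPolynomial X k} (hr : r.IsHomogeneous t) :
    (expand p r).IsHomogeneous (p * t) := by
  have h1 := hr.aeval (n := p) (fun x : X => (MvPolynomial.X x : MvPolynomial X k) ^ p)
    (fun x => by
      have := (isHomogeneous_X k x).pow p
      rwa [one_mul] at this)
  exact h1

theorem comp_expand (hp : 0 < p) (D : ℕ) {m : ℕ} (s : MvPolynomial X k) {q : MvPolynomial X k}
    (hq : q.IsHomogeneous m) :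
    homogeneousComponent D (expand p s * q) =
      expand p (if m ≤ D ∧ p ∣ D - m then homogeneousComponent ((D - m) / p) s else 0) * q := by
  have h1 : ∀ t, homogeneousComponent D (expand p (homogeneousComponent t s) * q) =
      if D = p * t + m then expand p (homogeneousComponent t s) * q else 0 := by
    intro t
    exact homogeneousComponent_of_mem
      ((expand_hom (homogeneousComponent_isHomogeneous t s)).mul hq)
  have h2 : homogeneousComponent D (expand p s * q) = ∑ t ∈ range (s.totalDegree + 1),
      if D = p * t + m then expand p (homogeneousComponent t s) * q else 0 := by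
    conv_lhs => rw [← sum_homogeneousComponent s]
    rw [map_sum, sum_mul, map_sum]
    exact sum_congr rfl fun t _ => h1 t
  rw [h2]
  by_cases hD : m ≤ D ∧ p ∣ D - m
  · rw [if_pos hD]
    obtain ⟨hmD, t, ht⟩ := hD
    have ht' : (D - m) / p = t := by
      rw [ht, Nat.mul_div_cancel_left t hp]
    have hDt : D = p * t + m := by omega
    rw [ht']
    by_cases htr : t ∈ range (s.totalDegree + 1)
    · rw [sum_eq_single t]
      · rw [if_pos hDt]
      · intro t' _ hne
        rw [if_neg]
        intro h
        apply hne
        have : p * t' = p * t := by omega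
        exact Nat.eq_of_mul_eq_mul_left hp this
      · intro h
        exact absurd htr h
    · have h3 : homogeneousComponent t s = 0 := by
        apply homogeneousComponent_eq_zero
        rw [mem_range] at htr
        omega
      rw [h3, map_zero, zero_mul]
      refine sum_eq_zero fun t' _ => ?_
      split_ifs with h
      · have : p * t' = p * t := by omega
        have h4 := Nat.eq_of_mul_eq_mul_left hp this
        rw [h4, h3, map_zero, zero_mul]
      · rfl
  · rw [if_neg hD, map_zero, zero_mul]
    refine sum_eq_zero fun t _ => ?_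
    rw [if_neg]
    intro h
    exact hD ⟨by omega, ⟨t, by omega⟩⟩

/-- A homogeneous relation inside a non-trivial relation. -/
theorem graded_rel (hp : 0 < p) {I J : Type*} [Fintype I] (q : I → J → MvPolynomial X k)
    (m : I → ℕ) (hq : ∀ i j, (q i j).IsHomogeneous (m i)) (s : I → MvPolynomial X k) (hs : s ≠ 0)
    (hrel : ∀ j, ∑ i, expand p (s i) * q i j = 0) :
    ∃ (D : ℕ) (s' : I → MvPolynomial X k) (t : I → ℕ), s' ≠ 0 ∧
      (∀ i, (s' i).IsHomogeneous (t i)) ∧ (∀ i, s' i ≠ 0 → p * t i + m i = D) ∧
      ∀ j, ∑ i, expand p (s' i) * q i j = 0 := by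
  obtain ⟨i0, hi0⟩ : ∃ i0, s i0 ≠ 0 := by
    by_contra h
    push Not at h
    exact hs (funext h)
  obtain ⟨t0, ht0⟩ : ∃ t0, homogeneousComponent t0 (s i0) ≠ 0 := by
    by_contra h
    push Not at h
    apply hi0
    rw [← sum_homogeneousComponent (s i0)]
    exact sum_eq_zero fun t _ => h t
  set D := p * t0 + m i0 with hD
  refine ⟨D, fun i => if m i ≤ D ∧ p ∣ D - m i then
    homogeneousComponent ((D - m i) / p) (s i) else 0, fun i => (D - m i) / p, ?_, ?_, ?_, ?_⟩
  · intro h
    have h1 := congrFun h i0
    simp only [Pi.zero_apply] at h1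
    have h2 : m i0 ≤ D ∧ p ∣ D - m i0 := ⟨by omega, ⟨t0, by omega⟩⟩
    rw [if_pos h2] at h1
    have h3 : (D - m i0) / p = t0 := by
      have : D - m i0 = p * t0 := by omega
      rw [this, Nat.mul_div_cancel_left t0 hp]
    rw [h3] at h1
    exact ht0 h1
  · intro i
    dsimp only
    split_ifs
    · exact homogeneousComponent_isHomogeneous _ _
    · exact isHomogeneous_zero _ _ _
  · intro i hi
    dsimp only at hi
    split_ifs at hi with h
    · obtain ⟨h1, h2⟩ := h
      have h3 := Nat.mul_div_cancel' h2
      dsimp only
      omega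
    · exact absurd rfl hi
  · intro j
    have h1 : homogeneousComponent D (∑ i, expand p (s i) * q i j) = 0 := by
      rw [hrel j, map_zero]
    rw [map_sum] at h1
    refine Eq.trans ?_ h1
    exact sum_congr rfl fun i _ => (comp_expand hp D (s i) (hq i j)).symm

end graded

section reduced

variable {k : Type*} [Field k] {X : Type*} [Fintype X] [DecidableEq X] {p : ℕ}

/-- the exponent of a reduced monomial -/
noncomputable def ex {X : Type*} [Fintype X] {p : ℕ} (b : X → Fin p) : X →₀ ℕ := Finsupp.equivFunOnFinite.symm fun x => (b x : ℕ)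

theorem ex_apply (b : X → Fin p) (x : X) : ex b x = b x := rfl

/-- the reduced monomials -/
noncomputable def mb (k : Type*) [Field k] {X : Type*} [Fintype X] {p : ℕ} (b : X → Fin p) :
    MvPolynomial X k := monomial (ex b) 1

theorem mb_hom (b : X → Fin p) : (mb k b).IsHomogeneous (ex b).degree :=
  isHomogeneous_monomial _ rfl

/-- The reduced monomials are independent over the `p`-th powers. -/
theorem expand_indep (hp : 0 < p) (s : (X → Fin p) → MvPolynomial X k)
    (h : ∑ b, expand p (s b) * mb k b = 0) : s = 0 := by
  classical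
  funext b0
  ext ν
  rw [Pi.zero_apply, coeff_zero]
  have h1 : ∀ (b : X → Fin p) (r : MvPolynomial X k),
      coeff (p • ν + ex b0) (expand p r * mb k b) = if b = b0 then coeff ν r else 0 := by
    intro b r
    induction r using MvPolynomial.induction_on' with
    | monomial μ c =>
      rw [expand_monomial]
      unfold mb
      rw [monomial_mul, mul_one, coeff_monomial, coeff_monomial]
      by_cases hb : b = b0
      · subst hb
        rw [if_pos rfl]
        by_cases hμ : μ = ν
        · rw [if_pos (by rw [hμ]), if_pos hμ]
        · rw [if_neg, if_neg hμ]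
          intro h2
          apply hμ
          have h3 := add_right_cancel h2
          ext x
          have h4 := DFunLike.congr_fun h3 x
          simp only [Finsupp.smul_apply, smul_eq_mul] at h4
          exact Nat.eq_of_mul_eq_mul_left hp h4
      · rw [if_neg hb, if_neg]
        intro h2
        apply hb
        funext x
        have h3 := DFunLike.congr_fun h2 x
        simp only [Finsupp.add_apply, Finsupp.smul_apply, smul_eq_mul, ex_apply] at h3
        have h4 : (p * μ x + (b x : ℕ)) % p = (p * ν x + (b0 x : ℕ)) % p := by rw [h3]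
        rw [Nat.mul_add_mod, Nat.mul_add_mod, Nat.mod_eq_of_lt (b x).2,
          Nat.mod_eq_of_lt (b0 x).2] at h4
        exact Fin.ext h4
    | add r r' hr hr' =>
      rw [map_add, add_mul, coeff_add, hr, hr', coeff_add]
      split_ifs <;> simp
  have h2 := congrArg (coeff (p • ν + ex b0)) h
  rw [coeff_sum, coeff_zero, sum_congr rfl (fun b _ => h1 b (s b)), sum_ite_eq' univ b0,
    if_pos (mem_univ _)] at h2
  exact h2

/-- Decomposition of a homogeneous polynomial. -/
theorem exists_decomp (hp : 0 < p) {m : ℕ} {q : MvPolynomial X k} (hq : q.IsHomogeneous m) :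
    ∃ s : (X → Fin p) → MvPolynomial X k,
      (∀ b, ∃ t, (s b).IsHomogeneous t ∧ (s b ≠ 0 → p * t + (ex b).degree = m)) ∧
      q = ∑ b, expand p (s b) * mb k b := by
  classical
  let N : Submodule k (MvPolynomial X k) :=
    { carrier := {q | ∃ s : (X → Fin p) → MvPolynomial X k,
        (∀ b, (s b).IsHomogeneous ((m - (ex b).degree) / p) ∧
          (s b ≠ 0 → p * ((m - (ex b).degree) / p) + (ex b).degree = m)) ∧
        q = ∑ b, expand p (s b) * mb k b}
      add_mem' := by
        rintro q q' ⟨s, hs, rfl⟩ ⟨s', hs', rfl⟩
        refine ⟨fun b => s b + s' b, fun b => ⟨(hs b).1.add (hs' b).1, fun h => ?_⟩, ?_⟩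
        · by_cases h1 : s b = 0
          · by_cases h2 : s' b = 0
            · exact absurd (show s b + s' b = 0 by rw [h1, h2, add_zero]) h
            · exact (hs' b).2 h2
          · exact (hs b).2 h1
        · rw [← sum_add_distrib]
          exact sum_congr rfl fun b _ => by rw [map_add, add_mul]
      zero_mem' := ⟨0, fun b => ⟨isHomogeneous_zero _ _ _, fun h => absurd rfl h⟩, by simp⟩
      smul_mem' := by
        rintro c q ⟨s, hs, rfl⟩
        refine ⟨fun b => c • s b, fun b => ⟨?_, fun h => (hs b).2 ?_⟩, ?_⟩
        · exact Submodule.smul_mem (homogeneousSubmodule X k _) c (hs b).1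
        · rintro h1
          exact h (show c • s b = 0 by rw [h1, smul_zero])
        · rw [smul_sum]
          exact sum_congr rfl fun b _ => by rw [map_smul, smul_mul_assoc] }
  have h1 : q ∈ N := by
    have := hom_ind N (LinearMap.id : MvPolynomial X k →ₗ[k] MvPolynomial X k) (m := m) ?_ hq
    · exact this
    · intro ν hν
      let b0 : X → Fin p := fun x => ⟨ν x % p, Nat.mod_lt _ hp⟩
      let μ : X →₀ ℕ := Finsupp.equivFunOnFinite.symm fun x => ν x / p
      have hν' : p • μ + ex b0 = ν := by
        ext x
        show p * (ν x / p) + ν x % p = ν x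
        exact Nat.div_add_mod _ _
      have hdeg : p * μ.degree + (ex b0).degree = m := by
        rw [← hν, ← hν', map_add]
        congr 1
        rw [map_nsmul, smul_eq_mul]
      have hdiv : (m - (ex b0).degree) / p = μ.degree := by
        have : m - (ex b0).degree = p * μ.degree := by omega
        rw [this, Nat.mul_div_cancel_left _ hp]
      refine ⟨fun b => if b = b0 then monomial μ 1 else 0, fun b => ?_, ?_⟩
      · dsimp only
        split_ifs with h
        · subst h
          rw [hdiv]
          exact ⟨isHomogeneous_monomial _ rfl, fun _ => hdeg⟩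
        · exact ⟨isHomogeneous_zero _ _ _, fun h => absurd rfl h⟩
      · rw [sum_eq_single b0]
        · show monomial ν 1 = expand p (if b0 = b0 then monomial μ 1 else 0) * mb k b0
          rw [if_pos rfl, expand_monomial]
          unfold mb
          rw [monomial_mul, mul_one, hν']
        · intro b _ hb
          show expand p (if b = b0 then monomial μ 1 else 0) * mb k b = 0
          rw [if_neg hb, map_zero, zero_mul]
        · intro h
          exact absurd (mem_univ _) h
  obtain ⟨s, hs, hq'⟩ := h1
  exact ⟨s, fun b => ⟨_, hs b⟩, hq'⟩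

end reduced

section center

variable {k : Type*} [Field k] {V : Type*} [AddCommGroup V] [Module k V] {A : Type*} [Ring A]
  [Algebra k A] {X : Type*} {p : ℕ} {ι : V →ₗ[k] A} {e : Basis X k V}
  {symb : MvPolynomial X k →ₗ[k] A} {br : V →ₗ[k] V →ₗ[k] V} {pm : X → V}

/-- The central polynomial ring. -/
noncomputable def zeta (h : RD p ι e symb br pm) : MvPolynomial X k →ₐ[k] A :=
  (Subalgebra.center k A).val.comp
    (aeval fun x => (⟨ι (e x) ^ p - ι (pm x), Subalgebra.mem_center_iff.2 fun a =>
      (h.cen x a).symm⟩ : Subalgebra.center k A))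

theorem zeta_X (h : RD p ι e symb br pm) (x : X) :
    zeta h (MvPolynomial.X x) = ι (e x) ^ p - ι (pm x) := by
  unfold zeta
  rw [AlgHom.comp_apply, aeval_X]
  rfl

theorem zeta_cen (h : RD p ι e symb br pm) (r : MvPolynomial X k) (a : A) :
    zeta h r * a = a * zeta h r := by
  unfold zeta
  rw [AlgHom.comp_apply]
  exact (Subalgebra.mem_center_iff.1 (aeval (fun x => (⟨ι (e x) ^ p - ι (pm x),
    Subalgebra.mem_center_iff.2 fun a => (h.cen x a).symm⟩ : Subalgebra.center k A)) r).2 a).symm

theorem mul_symb (h : RD p ι e symb br pm) {d d' : ℕ} {a a' : A} {q q' : MvPolynomial X k}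
    (hq : q.IsHomogeneous d) (hq' : q'.IsHomogeneous d') (ha : a - symb q ∈ G ι d)
    (ha' : a' - symb q' ∈ G ι d') : a * a' - symb (q * q') ∈ G ι (d + d') := by
  have h1 := h.pbw.symb_mul hq hq'
  have h2 := G_mul ι (h.pbw.symb_hom hq) ha'
  have haG : a' ∈ G ι (d' + 1) := by
    have := Submodule.add_mem _ (G_mono ι (Nat.le_succ d') ha') (h.pbw.symb_hom hq')
    rwa [sub_add_cancel] at this
  have h3 := G_mul' ι ha haG
  have h4 := Submodule.add_mem _ (Submodule.add_mem _ h1 h2) h3
  convert h4 using 1
  noncomm_ring

theorem pow_symb (h : RD p ι e symb br pm) (x : X) (n : ℕ) :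
    ι (e x) ^ n - symb (MvPolynomial.X x ^ n) ∈ G ι n := by
  induction n with
  | zero =>
    rw [pow_zero, pow_zero, h.pbw.symb_one, sub_self]
    exact Submodule.zero_mem _
  | succ n ih =>
    have hX : (MvPolynomial.X x ^ n : MvPolynomial X k).IsHomogeneous n := by
      have := (isHomogeneous_X k x).pow n
      rwa [one_mul] at this
    have h1 : ι (e x) - symb (MvPolynomial.X x) ∈ G ι 1 := by
      rw [h.pbw.symb_X, sub_self]
      exact Submodule.zero_mem _
    have := mul_symb h hX (isHomogeneous_X k x) ih h1
    rwa [← pow_succ, ← pow_succ] at this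

theorem zeta_symb (h : RD p ι e symb br pm) (hp2 : 2 ≤ p) {t : ℕ} {r : MvPolynomial X k}
    (hr : r.IsHomogeneous t) : zeta h r - symb (expand p r) ∈ G ι (p * t) := by
  let f : MvPolynomial X k →ₗ[k] A := (zeta h).toLinearMap - symb ∘ₗ (expand p).toLinearMap
  refine hom_ind (G ι (p * t)) f ?_ hr
  intro ν hν
  refine mono_ind (P := fun t ν => zeta h (monomial ν 1) - symb (expand p (monomial ν 1)) ∈
    G ι (p * t)) ?_ ?_ t ν hν
  · have h1 : (monomial (0 : X →₀ ℕ) (1 : k)) = 1 := rfl
    rw [h1, map_one, map_one, h.pbw.symb_one, sub_self]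
    exact Submodule.zero_mem _
  · intro t x μ hμ ih
    rw [mono_succ, map_mul, map_mul, zeta_X, expand_X]
    have h1 : ι (e x) ^ p - ι (pm x) - symb (MvPolynomial.X x ^ p) ∈ G ι (p * 1) := by
      rw [mul_one]
      have h2 := pow_symb h x p
      have h3 : ι (pm x) ∈ G ι p := iota_mem_G ι _ (by omega)
      have := Submodule.sub_mem _ h2 h3
      convert this using 1
      abel
    have hX : (MvPolynomial.X x ^ p : MvPolynomial X k).IsHomogeneous (p * 1) := by
      have := (isHomogeneous_X k x).pow p
      rwa [mul_comm] at this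
    have hμ' : (expand p (monomial μ (1 : k))).IsHomogeneous (p * t) :=
      expand_hom (isHomogeneous_monomial _ hμ)
    have := mul_symb h hX hμ' h1 ih
    rwa [← mul_add, add_comm 1 t] at this

theorem zeta_mul_symb (h : RD p ι e symb br pm) (hp2 : 2 ≤ p) {t m : ℕ} {r : MvPolynomial X k}
    (hr : r.IsHomogeneous t) {a : A} {q : MvPolynomial X k} (hq : q.IsHomogeneous m)
    (ha : a - symb q ∈ G ι m) : zeta h r * a - symb (expand p r * q) ∈ G ι (p * t + m) :=
  mul_symb h (expand_hom hr) hq (zeta_symb h hp2 hr) ha

variable [Fintype X] [DecidableEq X]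

/-- Expansion with central coefficients. -/
theorem exists_span (h : RD p ι e symb br pm) (hp2 : 2 ≤ p) (m : ℕ) :
    ∀ a ∈ G ι m, ∃ z : (X → Fin p) → MvPolynomial X k, (∀ b, p * (z b).totalDegree ≤ m) ∧
      a = ∑ b, zeta h (z b) * symb (mb k b) := by
  induction m with
  | zero =>
    intro a ha
    rw [G_zero, Submodule.mem_bot] at ha
    exact ⟨0, fun b => by simp, by simp [ha]⟩
  | succ m ih =>
    intro a ha
    obtain ⟨q, hq, haq⟩ := h.pbw.symb_surj ha
    obtain ⟨s, hs, hqs⟩ := exists_decomp (p := p) (by omega) hq
    have h1 : a - ∑ b, zeta h (s b) * symb (mb k b) ∈ G ι m := by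
      have h2 : ∑ b, zeta h (s b) * symb (mb k b) - symb q ∈ G ι m := by
        rw [hqs, map_sum, ← sum_sub_distrib]
        refine Submodule.sum_mem _ fun b _ => ?_
        obtain ⟨t, ht, ht'⟩ := hs b
        by_cases h0 : s b = 0
        · rw [h0, map_zero, map_zero, zero_mul, zero_mul, map_zero, sub_zero]
          exact Submodule.zero_mem _
        · rw [← ht' h0]
          refine zeta_mul_symb h hp2 ht (mb_hom b) ?_
          rw [sub_self]
          exact Submodule.zero_mem _
      have := Submodule.sub_mem _ haq h2
      convert this using 1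
      abel
    obtain ⟨z, hz, hz'⟩ := ih _ h1
    refine ⟨fun b => s b + z b, fun b => ?_, ?_⟩
    · have h2 := totalDegree_add (s b) (z b)
      have h3 : p * (s b).totalDegree ≤ m := by
        obtain ⟨t, ht, ht'⟩ := hs b
        by_cases h0 : s b = 0
        · rw [h0]; simp
        · rw [ht.totalDegree h0, ← ht' h0]
          exact Nat.le_add_right _ _
      have h4 := hz b
      rcases le_total (s b).totalDegree (z b).totalDegree with h5 | h5
      · rw [max_eq_right h5] at h2
        exact (Nat.mul_le_mul_left p h2).trans (by omega)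
      · rw [max_eq_left h5] at h2
        exact (Nat.mul_le_mul_left p h2).trans (by omega)
    · simp only [map_add, add_mul]
      rw [sum_add_distrib, ← hz']
      abel

/-- Independence lifts from symbols. -/
theorem indep_lift {I : Type*} [Fintype I] (h : RD p ι e symb br pm) (hp2 : 2 ≤ p) (a : I → A)
    (m : I → ℕ) (q : I → MvPolynomial X k) (hq : ∀ i, (q i).IsHomogeneous (m i))
    (ha : ∀ i, a i - symb (q i) ∈ G ι (m i))
    (hind : ∀ s : I → MvPolynomial X k, ∑ i, expand p (s i) * q i = 0 → s = 0)
    (z : I → MvPolynomial X k) (hz : ∑ i, zeta h (z i) * a i = 0) : z = 0 := by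
  classical
  by_contra hne
  -- the largest degree that occurs
  let Q : ℕ → Prop := fun D => ∃ i t, homogeneousComponent t (z i) ≠ 0 ∧ p * t + m i = D
  have hQ : ∃ D, Q D := by
    obtain ⟨i, hi⟩ : ∃ i, z i ≠ 0 := by
      by_contra h1
      push Not at h1
      exact hne (funext h1)
    obtain ⟨t, ht⟩ : ∃ t, homogeneousComponent t (z i) ≠ 0 := by
      by_contra h1
      push Not at h1
      apply hi
      rw [← sum_homogeneousComponent (z i)]
      exact sum_eq_zero fun t _ => h1 t
    exact ⟨_, i, t, ht, rfl⟩
  have hbd : ∀ D, Q D → D ≤ ∑ i, (p * (z i).totalDegree + m i) := by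
    rintro D ⟨i, t, ht, rfl⟩
    have h1 : t ≤ (z i).totalDegree := by
      by_contra h2
      exact ht (homogeneousComponent_eq_zero _ _ (by omega))
    have h2 : p * t + m i ≤ p * (z i).totalDegree + m i := by
      have := Nat.mul_le_mul_left p h1
      omega
    exact h2.trans (single_le_sum (f := fun i => p * (z i).totalDegree + m i)
      (fun _ _ => Nat.zero_le _) (mem_univ i))
  obtain ⟨D, hD, hmax⟩ : ∃ D, Q D ∧ ∀ D', Q D' → D' ≤ D := by
    obtain ⟨D0, hD0⟩ := hQ
    have h1 := Nat.findGreatest_spec (P := Q) (hbd D0 hD0) hD0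
    exact ⟨_, h1, fun D' hD' => Nat.le_findGreatest (hbd D' hD') hD'⟩
  -- the component of degree `D`
  let s : I → MvPolynomial X k := fun i => if m i ≤ D ∧ p ∣ D - m i then
    homogeneousComponent ((D - m i) / p) (z i) else 0
  have hs : ∀ i, zeta h (z i) * a i - symb (expand p (s i) * q i) ∈ G ι D := by
    intro i
    have h1 : zeta h (z i) * a i - symb (expand p (s i) * q i) =
        ∑ t ∈ range ((z i).totalDegree + 1), (zeta h (homogeneousComponent t (z i)) * a i -
          if D = p * t + m i then symb (expand p (homogeneousComponent t (z i)) * q i) else 0) := by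
      rw [sum_sub_distrib, ← sum_mul, ← map_sum, sum_homogeneousComponent]
      congr 1
      have h2 := comp_expand (p := p) (by omega) D (z i) (hq i)
      have h3 : ∀ t, homogeneousComponent D (expand p (homogeneousComponent t (z i)) * q i) =
          if D = p * t + m i then expand p (homogeneousComponent t (z i)) * q i else 0 := by
        intro t
        exact homogeneousComponent_of_mem
          ((expand_hom (homogeneousComponent_isHomogeneous t (z i))).mul (hq i))
      show symb (expand p (if m i ≤ D ∧ p ∣ D - m i then
        homogeneousComponent ((D - m i) / p) (z i) else 0) * q i) = _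
      rw [← h2]
      conv_lhs => rw [← sum_homogeneousComponent (z i)]
      rw [map_sum, sum_mul, map_sum, map_sum]
      refine sum_congr rfl fun t _ => ?_
      rw [h3]
      split_ifs
      · rfl
      · rw [map_zero]
    rw [h1]
    refine Submodule.sum_mem _ fun t _ => ?_
    have h4 := zeta_mul_symb h hp2 (homogeneousComponent_isHomogeneous t (z i)) (hq i) (ha i)
    split_ifs with h5
    · rw [← h5] at h4
      exact h4
    · rw [sub_zero]
      by_cases h6 : homogeneousComponent t (z i) = 0
      · rw [h6, map_zero, zero_mul]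
        exact Submodule.zero_mem _
      · have h7 := hmax _ ⟨i, t, h6, rfl⟩
        have h8 := h.pbw.symb_hom
          ((expand_hom (p := p) (homogeneousComponent_isHomogeneous t (z i))).mul (hq i))
        have h9 : p * t + m i + 1 ≤ D := by omega
        have := Submodule.add_mem _ (G_mono ι (by omega : p * t + m i ≤ D) h4) (G_mono ι h9 h8)
        rwa [sub_add_cancel] at this
  have h1 : symb (∑ i, expand p (s i) * q i) ∈ G ι D := by
    have h2 := Submodule.sum_mem (G ι D) (t := univ) fun i _ => hs i
    rw [sum_sub_distrib, hz, zero_sub, ← map_sum] at h2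
    have := Submodule.neg_mem _ h2
    rwa [neg_neg] at this
  have h2 : (∑ i, expand p (s i) * q i).IsHomogeneous D := by
    refine IsHomogeneous.sum _ _ _ fun i _ => ?_
    show (expand p (if m i ≤ D ∧ p ∣ D - m i then
        homogeneousComponent ((D - m i) / p) (z i) else 0) * q i).IsHomogeneous D
    split_ifs with h3
    · have h4 := (expand_hom (p := p)
        (homogeneousComponent_isHomogeneous ((D - m i) / p) (z i))).mul (hq i)
      have h5 := Nat.mul_div_cancel' h3.2
      have h6 : p * ((D - m i) / p) + m i = D := by omega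
      rwa [h6] at h4
    · rw [map_zero, zero_mul]
      exact isHomogeneous_zero _ _ _
  have h3 := hind s (h.pbw.symb_lead h2 h1)
  obtain ⟨i, t, ht, htD⟩ := hD
  have h4 := congrFun h3 i
  have h5 : m i ≤ D ∧ p ∣ D - m i := ⟨by omega, ⟨t, by omega⟩⟩
  have h6 : (D - m i) / p = t := by
    have : D - m i = p * t := by omega
    rw [this, Nat.mul_div_cancel_left t (by omega)]
  have h7 : s i = homogeneousComponent t (z i) := by
    show (if m i ≤ D ∧ p ∣ D - m i then
        homogeneousComponent ((D - m i) / p) (z i) else 0) = _
    rw [if_pos h5, h6]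
  rw [h7] at h4
  exact ht h4

end center

end Pool.Agent.Helper34.KW
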