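import Pool.Agent.Helper34.KW.Inner

set_option autoImplicit false

/-!
# The field of constants of a restricted system of derivations

`[F : K0] ≤ p^s [C : K0]`, where `C` is the field of constants of the derivations `X i` and `s` the
dimension of their `F`-span.
-/

namespace Pool.Agent.Helper34.KW

open Finset Module

section nil

variable {K V : Type*} [Field K] [AddCommGroup V] [Module K V]

theorem finrank_ker_pow (N : V →ₗ[K] V) [FiniteDimensional K V] (n : ℕ) :
    finrank K (LinearMap.ker (N ^ n)) ≤ n * finrank K (LinearMap.ker N) := by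
  induction n with
  | zero =>
    have : LinearMap.ker (N ^ 0) = ⊥ := by
      rw [pow_zero]
      exact LinearMap.ker_eq_bot.2 Function.injective_id
    rw [this, finrank_bot]
    exact Nat.zero_le _
  | succ n ih =>
    -- `N^n : ker N^(n+1) → ker N`
    let T : LinearMap.ker (N ^ (n + 1)) →ₗ[K] LinearMap.ker N :=
      LinearMap.restrict (N ^ n) (fun x hx => by
        rw [LinearMap.mem_ker] at hx ⊢
        rw [← Module.End.mul_apply, ← pow_succ']
        exact hx)
    have h1 := LinearMap.finrank_range_add_finrank_ker T
    have h2 : finrank K (LinearMap.range T) ≤ finrank K (LinearMap.ker N) :=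
      Submodule.finrank_le _
    have h3 : finrank K (LinearMap.ker T) ≤ finrank K (LinearMap.ker (N ^ n)) := by
      let j : LinearMap.ker T →ₗ[K] LinearMap.ker (N ^ n) :=
        LinearMap.codRestrict _ ((LinearMap.ker (N ^ (n + 1))).subtype.comp
          (LinearMap.ker T).subtype) (fun x => by
            have := x.2
            rw [LinearMap.mem_ker] at this ⊢
            exact congrArg Subtype.val this)
      apply LinearMap.finrank_le_finrank_of_injective (f := j)
      intro a b hab
      have h4 : ((a : LinearMap.ker (N ^ (n + 1))) : V) = ((b : LinearMap.ker (N ^ (n + 1))) : V) :=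
        congrArg (fun z : LinearMap.ker (N ^ n) => (z : V)) hab
      exact Subtype.ext (Subtype.ext h4)
    rw [← h1, add_mul, one_mul]
    omega

theorem finrank_le_of_pow_zero (N : V →ₗ[K] V) [FiniteDimensional K V] {n : ℕ} (h : N ^ n = 0) :
    finrank K V ≤ n * finrank K (LinearMap.ker N) := by
  have h1 := finrank_ker_pow N n
  rw [h, LinearMap.ker_zero, finrank_top] at h1
  exact h1

/-- commuting nilpotent operators -/
theorem finrank_le_common {κ : Type*} [DecidableEq κ] [FiniteDimensional K V]
    (N : κ → V →ₗ[K] V) {p : ℕ} (hN : ∀ i, N i ^ p = 0)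
    (hc : ∀ i j x, N i (N j x) = N j (N i x)) (s : Finset κ) :
    finrank K V ≤ p ^ s.card * finrank K (⨅ i ∈ s, LinearMap.ker (N i) : Submodule K V) := by
  induction s using Finset.induction_on with
  | empty =>
    have h1 : (⨅ i ∈ (∅ : Finset κ), LinearMap.ker (N i) : Submodule K V) = ⊤ := by
      rw [eq_top_iff]
      intro x _
      simp
    rw [h1, card_empty, pow_zero, one_mul, finrank_top]
  | insert k s hk ih =>
    rw [card_insert_of_notMem hk, pow_succ, mul_assoc]
    refine ih.trans (Nat.mul_le_mul_left _ ?_)
    set W : Submodule K V := ⨅ i ∈ s, LinearMap.ker (N i) with hW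
    have hmem : ∀ x, x ∈ W ↔ ∀ i ∈ s, N i x = 0 := by
      intro x
      rw [hW]
      simp [Submodule.mem_iInf]
    let T : W →ₗ[K] W := LinearMap.restrict (N k) (fun x hx => by
      rw [hmem] at hx ⊢
      intro i hi
      rw [hc, hx i hi, map_zero])
    have hT1 : ∀ x : W, ((T x : W) : V) = N k x := fun x => LinearMap.coe_restrict_apply _ _
    have hT : ∀ (n : ℕ) (x : W), (((T ^ n) x : W) : V) = (N k ^ n) x := by
      intro n
      induction n with
      | zero => intro x; rw [pow_zero, pow_zero, Module.End.one_apply, Module.End.one_apply]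
      | succ n ih =>
        intro x
        rw [pow_succ', pow_succ', Module.End.mul_apply, Module.End.mul_apply, ← ih x, hT1]
    have hTp : T ^ p = 0 := by
      refine LinearMap.ext fun x => Subtype.ext ?_
      rw [hT, hN k, LinearMap.zero_apply, LinearMap.zero_apply, ZeroMemClass.coe_zero]
    refine (finrank_le_of_pow_zero T hTp).trans (Nat.mul_le_mul_left _ ?_)
    have h5 : finrank K ((LinearMap.ker T).map W.subtype) = finrank K (LinearMap.ker T) :=
      Submodule.finrank_map_subtype_eq W (LinearMap.ker T)
    rw [← h5]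
    apply Submodule.finrank_mono
    rintro _ ⟨x, hx, rfl⟩
    have h1 : T x = 0 := hx
    have h2 : N k (x : V) = 0 := by rw [← hT1, h1, ZeroMemClass.coe_zero]
    have h3 := (hmem _).1 x.2
    simp only [Submodule.mem_iInf, mem_insert, LinearMap.mem_ker]
    rintro i (rfl | hi)
    · exact h2
    · exact h3 i hi

end nil

section const

variable {F : Type*} [Field F] {p : ℕ} [hp : Fact p.Prime] [CharP F p]
  {κ : Type*} [Fintype κ] [DecidableEq κ]

/-- Commuting derivations with vanishing `p`-th powers. -/
theorem exists_comm (Y : κ → Derivation ℤ F F)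
    (hind : LinearIndependent F (fun b => (⇑(Y b) : F → F)))
    (hc : ∀ i j, ∃ c : κ → F, ∀ a, Y i (Y j a) - Y j (Y i a) = ∑ k, c k * Y k a)
    (hd : ∀ i, ∃ d : κ → F, ∀ a, (Y i)^[p] a = ∑ k, d k * Y k a) :
    ∃ (D : κ → Derivation ℤ F F) (G : κ → κ → F), (∀ i, D i = ∑ b, G i b • Y b) ∧
      (∀ i j a, D i (D j a) = D j (D i a)) ∧ (∀ i a, (D i)^[p] a = 0) ∧
      (∀ a, (∀ i, D i a = 0) → ∀ b, Y b a = 0) := by
  classical
  obtain ⟨t, G, hG⟩ := exists_dual Y hind
  set D : κ → Derivation ℤ F F := fun i => ∑ b, G i b • Y b with hD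
  have ht : ∀ i j, D i (t j) = if i = j then 1 else 0 := by
    intro i j
    rw [hD, der_sum_apply, ← hG i j]
    rfl
  have hit : ∀ (E : Derivation ℤ F F) (n : ℕ), E^[n] 0 = 0 := by
    intro E n
    induction n with
    | zero => rfl
    | succ n ih => rw [Function.iterate_succ_apply', ih, map_zero]
  have van := vanish (p := p) Y (fun _ => 0)
    (fun i j => by
      obtain ⟨c, hc⟩ := hc i j
      exact ⟨c, hc, by simp⟩)
    (fun i => by
      obtain ⟨d, hd⟩ := hd i
      exact ⟨d, hd, by simp [hit]⟩) t G hG D (fun i => rfl) (fun _ => 0) (fun i => by simp)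
  set W : κ → Module.End ℤ (F × F) := fun i => ext (D i) 0 with hW
  have hmem : ∀ l, pw W l ∈ Submodule.span F (Set.range (pw W)) := fun l =>
    Submodule.subset_span ⟨l, rfl⟩
  have hW2 : ∀ i j, W i * W j = pw W [i, j] := fun i j => by
    rw [pw_cons, pw_cons, pw_nil, mul_one]
  have hcm : ∀ i j, W i * W j - W j * W i = 0 := by
    intro i j
    apply van
    · rw [hW2, hW2]
      exact Submodule.sub_mem _ (hmem _) (hmem _)
    · intro m _
      have h1 : ⁅D i, D j⁆ (tm t m) = 0 := by
        unfold tm
        apply der_prod_zero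
        intro k _
        apply der_pow_zero
        rw [Derivation.commutator_apply, ht j k, ht i k]
        by_cases h1 : j = k <;> by_cases h2 : i = k <;> simp [h1, h2]
      rw [Derivation.commutator_apply] at h1
      rw [LinearMap.sub_apply, Module.End.mul_apply, Module.End.mul_apply]
      simp only [hW, ext_apply, zero_mul, add_zero, map_zero, Prod.fst_sub]
      exact h1
  have hpw : ∀ i, W i ^ p = 0 := by
    intro i
    apply van
    · rw [← pw_replicate]
      exact hmem _
    · intro m hm
      rcases pw_tm D t (fun _ => 0) ht hm (List.replicate p i) with ⟨_, h⟩ | ⟨h, _⟩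
      · rw [pw_replicate] at h
        have h' : (W i ^ p) (tm t m, (0 : F)) = 0 := h
        rw [h']
        rfl
      · have h1 := h i
        rw [List.count_replicate_self] at h1
        have := hm i
        omega
  refine ⟨D, G, fun i => rfl, ?_, ?_, ?_⟩
  · intro i j a
    have h1 := congrArg (fun T : Module.End ℤ (F × F) => (T (a, 0)).1) (hcm i j)
    simp only [LinearMap.sub_apply, Module.End.mul_apply, hW, ext_apply, zero_mul, add_zero,
      map_zero, Prod.fst_sub, LinearMap.zero_apply, Prod.fst_zero] at h1
    exact sub_eq_zero.1 h1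
  · intro i a
    have h1 := congrArg (fun T : Module.End ℤ (F × F) => (T (0, a)).2) (hpw i)
    simp only [hW] at h1
    rw [ext_pow_p] at h1
    simpa using h1
  · intro f hf b
    have h1 : ∀ i, ∑ b, G i b * Y b f = 0 := by
      intro i
      have h2 := hf i
      simp only [hD] at h2
      rw [der_sum_apply] at h2
      exact h2
    have h3 : Matrix.mulVec (Matrix.of G) (fun b => Y b f) = 0 := by
      funext i
      exact h1 i
    have h4 : Matrix.of G * Matrix.of (fun b j => Y b (t j)) = 1 := by
      ext i j
      rw [Matrix.mul_apply, Matrix.one_apply]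
      exact hG i j
    have h5 : Matrix.of (fun b j => Y b (t j)) * Matrix.of G = 1 := mul_eq_one_comm.1 h4
    have h6 : (fun b => Y b f) = 0 := by
      have h7 := congrArg (Matrix.mulVec (Matrix.of (fun b j => Y b (t j)))) h3
      rw [Matrix.mulVec_mulVec, h5, Matrix.one_mulVec, Matrix.mulVec_zero] at h7
      exact h7
    exact congrFun h6 b

end const

/-- A derivation which vanishes on a subfield, as a linear map. -/
def derLin {F K : Type*} [Field F] [Field K] [Algebra K F] (Y : Derivation ℤ F F)
    (h : ∀ c : K, Y (algebraMap K F c) = 0) : F →ₗ[K] F where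
  toFun := Y
  map_add' := map_add Y
  map_smul' c a := by
    show Y (c • a) = c • Y a
    have h1 : c • a = algebraMap K F c * a := Algebra.smul_def c a
    have h2 : c • Y a = algebraMap K F c * Y a := Algebra.smul_def c (Y a)
    rw [h1, h2, Y.leibniz, h c, smul_zero, add_zero, smul_eq_mul]

/-- **The degree over the field of constants.** -/
theorem const_dim {F : Type*} [Field F] {p : ℕ} [hp : Fact p.Prime] [CharP F p]
    {K : Type*} [Field K] [Algebra K F] [FiniteDimensional K F]
    {ι : Type*} [Fintype ι] (X : ι → Derivation ℤ F F)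
    (hK : ∀ i (c : K), X i (algebraMap K F c) = 0)
    (hc : ∀ i j, ∃ c : ι → F, ∀ a, X i (X j a) - X j (X i a) = ∑ k, c k * X k a)
    (hd : ∀ i, ∃ d : ι → F, ∀ a, (X i)^[p] a = ∑ k, d k * X k a) :
    finrank K F ≤ p ^ (finrank F (Submodule.span F (Set.range fun i => (⇑(X i) : F → F)))) *
      finrank K (⨅ i, LinearMap.ker (derLin (X i) (hK i)) : Submodule K F) := by
  classical
  obtain ⟨κ, a, ha, hspan, hind⟩ := exists_linearIndependent' F (fun i => (⇑(X i) : F → F))
  have hfin : Finite κ := Finite.of_injective a ha
  have := Fintype.ofFinite κ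
  have hg : ∀ i, ∃ g : κ → F, ∀ y, X i y = ∑ b, g b * X (a b) y := by
    intro i
    have h1 : (⇑(X i) : F → F) ∈ Submodule.span F (Set.range ((fun i => (⇑(X i) : F → F)) ∘ a)) := by
      rw [hspan]; exact Submodule.subset_span ⟨i, rfl⟩
    obtain ⟨g, hg⟩ := (Submodule.mem_span_range_iff_exists_fun F).1 h1
    refine ⟨g, fun y => ?_⟩
    have := congrFun hg y
    rw [← this]
    simp [Finset.sum_apply]
  choose g hg using hg
  have hcomb : ∀ (c : ι → F) (y : F),
      ∑ k, c k * X k y = ∑ b, (∑ k, c k * g k b) * X (a b) y := by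
    intro c y
    simp only [sum_mul]
    rw [sum_comm]
    refine sum_congr rfl fun k _ => ?_
    rw [hg k y, mul_sum]
    exact sum_congr rfl fun b _ => by ring
  obtain ⟨D, G, hDG, hcomm, hpow, hker⟩ := exists_comm (p := p) (fun b => X (a b)) hind
    (fun i j => by
      obtain ⟨c, h1⟩ := hc (a i) (a j)
      exact ⟨fun b => ∑ k, c k * g k b, fun y => by rw [h1 y, hcomb c y]⟩)
    (fun i => by
      obtain ⟨d, h1⟩ := hd (a i)
      exact ⟨fun b => ∑ k, d k * g k b, fun y => by rw [h1 y, hcomb d y]⟩)
  have hDK : ∀ i (c : K), D i (algebraMap K F c) = 0 := by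
    intro i c
    rw [hDG, der_sum_apply]
    refine sum_eq_zero fun b _ => ?_
    rw [Derivation.smul_apply, hK, smul_zero]
  have h1 := finrank_le_common (K := K) (fun i => derLin (D i) (hDK i)) (p := p)
    (fun i => by
      have h2 : ∀ (n : ℕ) (x : F), ((derLin (D i) (hDK i)) ^ n) x = (D i)^[n] x := by
        intro n
        induction n with
        | zero => intro x; rfl
        | succ n ih =>
          intro x
          rw [pow_succ', Module.End.mul_apply, ih, Function.iterate_succ_apply']
          rfl
      refine LinearMap.ext fun x => ?_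
      rw [h2, hpow]
      rfl)
    (fun i j x => hcomm i j x) univ
  have h2 : finrank F (Submodule.span F (Set.range fun i => (⇑(X i) : F → F))) =
      Fintype.card κ := by
    rw [← hspan]
    exact finrank_span_eq_card hind
  rw [h2]
  rw [card_univ] at h1
  refine h1.trans (Nat.mul_le_mul_left _ ?_)
  apply Submodule.finrank_mono
  intro x hx
  simp only [mem_univ, Submodule.mem_iInf, LinearMap.mem_ker, true_implies] at hx ⊢
  intro i
  show X i x = 0
  rw [hg i x]
  refine sum_eq_zero fun b _ => ?_
  rw [hker x (fun j => hx j) b, mul_zero]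

end Pool.Agent.Helper34.KW
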