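import Mathlib
import Pool.Agent.Helper34.KW.Cen
import Pool.Agent.Helper34.KW.Const

set_option autoImplicit false

/-!
# The Hamiltonian derivations of the field of fractions
-/

namespace Pool.Agent.Helper34.KW

open MvPolynomial Module Finset Pool.Agent.Helper58.KW

section ext

variable {S : Type*} (F : Type*) [CommRing S] [IsDomain S] [Field F] [Algebra S F]
  [IsFractionRing S F]

/-- The homomorphism to the dual numbers attached to a derivation. -/
noncomputable def dualHom (d : Derivation ℤ S S) : S →+* TrivSqZeroExt F F where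
  toFun a := TrivSqZeroExt.inl (algebraMap S F a) + TrivSqZeroExt.inr (algebraMap S F (d a))
  map_one' := by
    ext
    · simp
    · simp
  map_zero' := by
    ext
    · simp
    · simp
  map_add' a b := by
    ext
    · simp
    · simp only [map_add, TrivSqZeroExt.snd_add, TrivSqZeroExt.snd_inl, TrivSqZeroExt.snd_inr,
        zero_add]
  map_mul' a b := by
    ext
    · simp
    · simp only [map_mul, Derivation.leibniz, smul_eq_mul, map_add, TrivSqZeroExt.snd_add,
        TrivSqZeroExt.snd_mul, TrivSqZeroExt.fst_add, TrivSqZeroExt.fst_inl,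
        TrivSqZeroExt.fst_inr, TrivSqZeroExt.snd_inl, TrivSqZeroExt.snd_inr, zero_add, add_zero,
        MulOpposite.smul_eq_mul_unop, MulOpposite.unop_op]
      ring

theorem exists_ext (d : Derivation ℤ S S) :
    ∃ D : Derivation ℤ F F, ∀ a, D (algebraMap S F a) = algebraMap S F (d a) := by
  have hu : ∀ y : nonZeroDivisors S, IsUnit (dualHom F d y) := by
    intro y
    rw [TrivSqZeroExt.isUnit_iff_isUnit_fst]
    have h1 : (dualHom F d y).fst = algebraMap S F y := by
      simp [dualHom]
    rw [h1]
    exact IsLocalization.map_units F y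
  let g : F →+* TrivSqZeroExt F F := IsLocalization.lift hu
  have hg : ∀ a, g (algebraMap S F a) = dualHom F d a := fun a => IsLocalization.lift_eq hu a
  have hfst : ∀ x, (g x).fst = x := by
    intro x
    have h1 : ((TrivSqZeroExt.fstHom ℤ F F).toRingHom.comp g) = RingHom.id F := by
      apply IsLocalization.ringHom_ext (nonZeroDivisors S)
      ext a
      show (g (algebraMap S F a)).fst = algebraMap S F a
      rw [hg]
      simp [dualHom]
    exact RingHom.congr_fun h1 x
  refine ⟨Derivation.mk' (⟨⟨fun x => (g x).snd, fun x y => ?_⟩, fun n x => ?_⟩ : F →ₗ[ℤ] F)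
    (fun x y => ?_), fun a => ?_⟩
  · rw [map_add, TrivSqZeroExt.snd_add]
  · show (g (n • x)).snd = n • (g x).snd
    rw [map_zsmul, TrivSqZeroExt.snd_smul]
  · show (g (x * y)).snd = x • (g y).snd + y • (g x).snd
    rw [map_mul, TrivSqZeroExt.snd_mul, hfst, hfst]
    simp [mul_comm]
  · show (g (algebraMap S F a)).snd = _
    rw [hg]
    show (TrivSqZeroExt.inl (algebraMap S F a) + TrivSqZeroExt.inr (algebraMap S F (d a)) :
      TrivSqZeroExt F F).snd = _
    rw [TrivSqZeroExt.snd_add, TrivSqZeroExt.snd_inl, TrivSqZeroExt.snd_inr, zero_add]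

/-- The extension of a derivation to the field of fractions. -/
noncomputable def extD (d : Derivation ℤ S S) : Derivation ℤ F F :=
  Classical.choose (exists_ext F d)

theorem extD_alg (d : Derivation ℤ S S) (a : S) :
    extD F d (algebraMap S F a) = algebraMap S F (d a) :=
  Classical.choose_spec (exists_ext F d) a

end ext

section poly

variable {k : Type*} [Field k] {X : Type*} {p : ℕ} [hp : Fact p.Prime] [CharP k p]

theorem der_expand (d : Derivation k (MvPolynomial X k) (MvPolynomial X k))
    (r : MvPolynomial X k) : d (expand p r) = 0 := by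
  induction r using MvPolynomial.induction_on with
  | C a =>
    rw [expand_C]
    exact d.map_algebraMap a
  | add r s hr hs => rw [map_add, map_add, hr, hs, add_zero]
  | mul_X r x hr =>
    rw [map_mul, expand_X, Derivation.leibniz, hr, smul_zero, add_zero, Derivation.leibniz_pow]
    have : ((p : ℕ) : MvPolynomial X k) = 0 := CharP.cast_eq_zero _ _
    rw [nsmul_eq_mul, this, zero_mul, smul_zero]

/-- `b ^ p` is a polynomial in the `p`-th powers. -/
theorem exists_expand_pow (b : MvPolynomial X k) : ∃ c, expand p c = b ^ p := by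
  refine ⟨(b.map (frobenius k p)), ?_⟩
  rw [← map_frobenius_expand p (f := b), map_expand]

variable {F : Type*} [Field F] [Algebra (MvPolynomial X k) F]
  [IsFractionRing (MvPolynomial X k) F]

/-- Fractions with denominators which are polynomials in the `p`-th powers. -/
theorem exists_pfrac (x : F) : ∃ (a c : MvPolynomial X k), c ≠ 0 ∧
    x * algebraMap (MvPolynomial X k) F (expand p c) = algebraMap _ F a := by
  obtain ⟨a, b, hb, rfl⟩ := IsFractionRing.div_surjective (A := MvPolynomial X k) x
  have hb0 : b ≠ 0 := nonZeroDivisors.ne_zero hb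
  have hb1 : algebraMap (MvPolynomial X k) F b ≠ 0 := by
    rw [Ne, map_eq_zero_iff _ (IsFractionRing.injective (MvPolynomial X k) F)]
    exact hb0
  obtain ⟨c, hc⟩ := exists_expand_pow (p := p) b
  refine ⟨a * b ^ (p - 1), c, ?_, ?_⟩
  · rintro rfl
    rw [map_zero] at hc
    exact pow_ne_zero p hb0 hc.symm
  · rw [hc, map_mul, map_pow, map_pow]
    have h1 : algebraMap (MvPolynomial X k) F b ^ p =
        algebraMap (MvPolynomial X k) F b * algebraMap (MvPolynomial X k) F b ^ (p - 1) := by
      rw [← pow_succ']
      congr 1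
      have := hp.out.pos
      omega
    rw [h1]
    field_simp

variable (F) in
/-- The extension of a `k`-derivation. -/
noncomputable def extK (d : Derivation k (MvPolynomial X k) (MvPolynomial X k)) :
    Derivation ℤ F F := extD F (d.restrictScalars ℤ)

theorem extK_alg (d : Derivation k (MvPolynomial X k) (MvPolynomial X k))
    (a : MvPolynomial X k) : extK F d (algebraMap _ F a) = algebraMap _ F (d a) :=
  extD_alg F _ a

theorem extK_mul (d : Derivation k (MvPolynomial X k) (MvPolynomial X k)) (x : F)
    (c : MvPolynomial X k) : extK F d (x * algebraMap _ F (expand p c)) =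
      extK F d x * algebraMap _ F (expand p c) := by
  rw [Derivation.leibniz, extK_alg, der_expand, map_zero, smul_zero, zero_add, smul_eq_mul,
    mul_comm]

theorem extK_iter (d : Derivation k (MvPolynomial X k) (MvPolynomial X k)) (x : F)
    (c a : MvPolynomial X k) (h : x * algebraMap _ F (expand p c) = algebraMap _ F a) (n : ℕ) :
    (extK F d)^[n] x * algebraMap _ F (expand p c) = algebraMap _ F (d^[n] a) := by
  induction n with
  | zero => exact h
  | succ n ih =>
    rw [Function.iterate_succ_apply', Function.iterate_succ_apply', ← extK_mul, ih, extK_alg]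

end poly

section ham

variable {k : Type*} [Field k] {V : Type*} [AddCommGroup V] [Module k V] {A : Type*} [Ring A]
  [Algebra k A] {X : Type*} {p : ℕ} {ι : V →ₗ[k] A} {e : Basis X k V}
  {symb : MvPolynomial X k →ₗ[k] A} {br : V →ₗ[k] V →ₗ[k] V} {pm : X → V}

theorem RD.jacobi (h : RD p ι e symb br pm) (u v w : V) :
    br u (br v w) - br v (br u w) = br (br u v) w := by
  apply h.iota_inj
  rw [map_sub]
  simp only [h.iota_br]
  noncomm_ring

theorem der_eq {T T' : MvPolynomial X k →ₗ[k] MvPolynomial X k}
    (hT : ∀ a b, T (a * b) = a * T b + b * T a) (hT' : ∀ a b, T' (a * b) = a * T' b + b * T' a)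
    (hX : ∀ x, T (MvPolynomial.X x) = T' (MvPolynomial.X x)) (a : MvPolynomial X k) :
    T a = T' a := by
  let D := Derivation.mk' T hT
  let D' := Derivation.mk' T' hT'
  have h1 : D = D' := MvPolynomial.derivation_ext fun x => hX x
  exact DFunLike.congr_fun h1 a

variable [Fintype X]

/-- commutators of Hamiltonian derivations -/
theorem RD.ham_comm (h : RD p ι e symb br pm) (x y : X) (a : MvPolynomial X k) :
    Ham e br (e x) (Ham e br (e y) a) - Ham e br (e y) (Ham e br (e x) a) =
      ∑ z, C (e.repr (br (e x) (e y)) z) * Ham e br (e z) a := by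
  let T : MvPolynomial X k →ₗ[k] MvPolynomial X k :=
    (Ham e br (e x) : MvPolynomial X k →ₗ[k] MvPolynomial X k) ∘ₗ
      (Ham e br (e y) : MvPolynomial X k →ₗ[k] MvPolynomial X k) -
    (Ham e br (e y) : MvPolynomial X k →ₗ[k] MvPolynomial X k) ∘ₗ
      (Ham e br (e x) : MvPolynomial X k →ₗ[k] MvPolynomial X k)
  let T' : MvPolynomial X k →ₗ[k] MvPolynomial X k :=
    ∑ z, (e.repr (br (e x) (e y)) z) •
      (Ham e br (e z) : MvPolynomial X k →ₗ[k] MvPolynomial X k)
  have hT' : ∀ a, T' a = ∑ z, C (e.repr (br (e x) (e y)) z) * Ham e br (e z) a := by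
    intro a
    show (∑ z, (e.repr (br (e x) (e y)) z) •
      (Ham e br (e z) : MvPolynomial X k →ₗ[k] MvPolynomial X k)) a = _
    rw [LinearMap.sum_apply]
    refine sum_congr rfl fun z _ => ?_
    rw [LinearMap.smul_apply, smul_eq_C_mul]
    rfl
  rw [← hT' a]
  refine der_eq (T := T) (T' := T') ?_ ?_ ?_ a
  · intro a b
    show Ham e br (e x) (Ham e br (e y) (a * b)) - Ham e br (e y) (Ham e br (e x) (a * b)) =
      a * (Ham e br (e x) (Ham e br (e y) b) - Ham e br (e y) (Ham e br (e x) b)) +
      b * (Ham e br (e x) (Ham e br (e y) a) - Ham e br (e y) (Ham e br (e x) a))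
    simp only [Derivation.leibniz, map_add, smul_eq_mul]
    ring
  · intro a b
    rw [hT', hT', hT', mul_sum, mul_sum, ← sum_add_distrib]
    refine sum_congr rfl fun z _ => ?_
    rw [Derivation.leibniz, smul_eq_mul, smul_eq_mul]
    ring
  · intro w
    rw [hT']
    show Ham e br (e x) (Ham e br (e y) (MvPolynomial.X w)) -
      Ham e br (e y) (Ham e br (e x) (MvPolynomial.X w)) = _
    rw [dS_X, dS_X, dS_linf, dS_linf, ← map_sub, h.jacobi]
    have h1 : ∀ z, C (e.repr (br (e x) (e y)) z) * Ham e br (e z) (MvPolynomial.X w) =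
        linf e ((e.repr (br (e x) (e y)) z) • br (e z) (e w)) := by
      intro z
      rw [dS_X, map_smul, smul_eq_C_mul]
    rw [sum_congr rfl fun z _ => h1 z, ← map_sum]
    congr 1
    conv_lhs => rw [← e.sum_repr (br (e x) (e y))]
    rw [map_sum, LinearMap.sum_apply]
    refine sum_congr rfl fun z _ => ?_
    rw [map_smul, LinearMap.smul_apply]

/-- `p`-th powers of Hamiltonian derivations -/
theorem RD.ham_pow [Nontrivial A] [hp : Fact p.Prime] [CharP k p] (h : RD p ι e symb br pm)
    (x : X) (a : MvPolynomial X k) :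
    (Ham e br (e x))^[p] a = ∑ z, C (e.repr (pm x) z) * Ham e br (e z) a := by
  let H : MvPolynomial X k →ₗ[k] MvPolynomial X k := (Ham e br (e x) : _ →ₗ[k] _)
  have hH : ∀ a b, H (a * b) = H a * b + a * H b := by
    intro a b
    show Ham e br (e x) (a * b) = Ham e br (e x) a * b + a * Ham e br (e x) b
    rw [Derivation.leibniz, smul_eq_mul, smul_eq_mul]
    ring
  have hpow : ∀ (n : ℕ) (a : MvPolynomial X k), (H ^ n) a = (Ham e br (e x))^[n] a := by
    intro n
    induction n with
    | zero => intro a; rfl
    | succ n ih =>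
      intro a
      rw [pow_succ', Module.End.mul_apply, ih, Function.iterate_succ_apply']
      rfl
  let T' : MvPolynomial X k →ₗ[k] MvPolynomial X k :=
    ∑ z, (e.repr (pm x) z) • (Ham e br (e z) : MvPolynomial X k →ₗ[k] MvPolynomial X k)
  have hT' : ∀ a, T' a = ∑ z, C (e.repr (pm x) z) * Ham e br (e z) a := by
    intro a
    show (∑ z, (e.repr (pm x) z) •
      (Ham e br (e z) : MvPolynomial X k →ₗ[k] MvPolynomial X k)) a = _
    rw [LinearMap.sum_apply]
    refine sum_congr rfl fun z _ => ?_
    rw [LinearMap.smul_apply, smul_eq_C_mul]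
    rfl
  rw [← hT' a, ← hpow p a]
  refine der_eq (T := H ^ p) (T' := T') ?_ ?_ ?_ a
  · intro a b
    rw [leib_char p H hH]
    ring
  · intro a b
    rw [hT', hT', hT', mul_sum, mul_sum, ← sum_add_distrib]
    refine sum_congr rfl fun z _ => ?_
    rw [Derivation.leibniz, smul_eq_mul, smul_eq_mul]
    ring
  · intro w
    rw [hT', hpow]
    have h1 : ∀ n : ℕ, (Ham e br (e x))^[n] (MvPolynomial.X w) =
        linf e ((br (e x))^[n] (e w)) := by
      intro n
      induction n with
      | zero => exact (linf_basis e w).symm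
      | succ n ih =>
        rw [Function.iterate_succ_apply', ih, dS_linf, Function.iterate_succ_apply']
    have h2 : (br (e x))^[p] (e w) = br (pm x) (e w) := by
      apply h.iota_inj
      have h3 : ∀ n : ℕ, ι ((br (e x))^[n] (e w)) = ((adA ι (e x)) ^ n) (ι (e w)) := by
        intro n
        induction n with
        | zero => rfl
        | succ n ih =>
          rw [Function.iterate_succ_apply', pow_succ', Module.End.mul_apply, ← ih, h.adA_iota]
      rw [h3, adA_pow, h.iota_br]
      have h5 := h.cen x (ι (e w))
      rw [sub_mul, mul_sub] at h5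
      have h6 : ι (e x) ^ p * ι (e w) - ι (e w) * ι (e x) ^ p -
          (ι (pm x) * ι (e w) - ι (e w) * ι (pm x)) = 0 := by
        have h7 := sub_eq_zero.2 h5
        rw [← h7]
        abel
      exact sub_eq_zero.1 h6
    rw [h1, h2]
    have h4 : ∀ z, C (e.repr (pm x) z) * Ham e br (e z) (MvPolynomial.X w) =
        linf e ((e.repr (pm x) z) • br (e z) (e w)) := by
      intro z
      rw [dS_X, map_smul, smul_eq_C_mul]
    rw [sum_congr rfl fun z _ => h4 z, ← map_sum]
    congr 1
    conv_lhs => rw [← e.sum_repr (pm x)]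
    rw [map_sum, LinearMap.sum_apply]
    refine sum_congr rfl fun z _ => ?_
    rw [map_smul, LinearMap.smul_apply]

section field

variable (F : Type*) [Field F] [Algebra (MvPolynomial X k) F]
  [IsFractionRing (MvPolynomial X k) F]

/-- The Hamiltonian derivation of `F`. -/
noncomputable def HF (e : Basis X k V) (br : V →ₗ[k] V →ₗ[k] V) (v : V) : Derivation ℤ F F :=
  extK F (Ham e br v)

variable {F}

theorem HF_alg (v : V) (a : MvPolynomial X k) :
    HF F e br v (algebraMap _ F a) = algebraMap _ F (Ham e br v a) := extK_alg _ a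

theorem alg_ne {a : MvPolynomial X k} (ha : a ≠ 0) : algebraMap (MvPolynomial X k) F a ≠ 0 := by
  rw [Ne, map_eq_zero_iff _ (IsFractionRing.injective (MvPolynomial X k) F)]
  exact ha

theorem RD.HF_comm [hp : Fact p.Prime] [CharP k p] (h : RD p ι e symb br pm) (x y : X) (a : F) :
    HF F e br (e x) (HF F e br (e y) a) - HF F e br (e y) (HF F e br (e x) a) =
      ∑ z, algebraMap (MvPolynomial X k) F (C (e.repr (br (e x) (e y)) z)) *
        HF F e br (e z) a := by
  obtain ⟨b, c, hc, hbc⟩ := exists_pfrac (k := k) (X := X) (p := p) a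
  have hc0 : algebraMap (MvPolynomial X k) F (expand p c) ≠ 0 :=
    alg_ne ((expand_ne_zero hp.out.pos).2 hc)
  have h1 : ∀ v w : V, HF F e br v (HF F e br w a) * algebraMap _ F (expand p c) =
      algebraMap _ F (Ham e br v (Ham e br w b)) := by
    intro v w
    rw [HF, HF, ← extK_mul, ← extK_mul, hbc, extK_alg, extK_alg]
  have h2 : ∀ v : V, HF F e br v a * algebraMap _ F (expand p c) =
      algebraMap _ F (Ham e br v b) := by
    intro v
    rw [HF, ← extK_mul, hbc, extK_alg]
  apply mul_right_cancel₀ hc0
  rw [sub_mul, h1, h1, ← map_sub, h.ham_comm, sum_mul, map_sum]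
  refine sum_congr rfl fun z _ => ?_
  rw [mul_assoc, h2, map_mul]

theorem RD.HF_pow [Nontrivial A] [hp : Fact p.Prime] [CharP k p] (h : RD p ι e symb br pm)
    (x : X) (a : F) : (HF F e br (e x))^[p] a =
      ∑ z, algebraMap (MvPolynomial X k) F (C (e.repr (pm x) z)) * HF F e br (e z) a := by
  obtain ⟨b, c, hc, hbc⟩ := exists_pfrac (k := k) (X := X) (p := p) a
  have hc0 : algebraMap (MvPolynomial X k) F (expand p c) ≠ 0 :=
    alg_ne ((expand_ne_zero hp.out.pos).2 hc)
  have h2 : ∀ v : V, HF F e br v a * algebraMap _ F (expand p c) =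
      algebraMap _ F (Ham e br v b) := by
    intro v
    rw [HF, ← extK_mul, hbc, extK_alg]
  apply mul_right_cancel₀ hc0
  rw [HF, extK_iter _ a c b hbc, h.ham_pow, sum_mul, map_sum]
  refine sum_congr rfl fun z _ => ?_
  rw [mul_assoc]
  show _ = _ * (HF F e br (e z) a * _)
  rw [h2, map_mul]

/-- **The symbols of commutators are inner.** -/
theorem RD.exists_inner [Nontrivial A] [hp : Fact p.Prime] [CharP k p]
    (h : RD p ι e symb br pm) (hRR : RR ι e symb br) {u : A} {m : ℕ} {q : X → MvPolynomial X k}
    (hq : ∀ x, (q x).IsHomogeneous m) (hu : ∀ x, adA ι (e x) u - symb (q x) ∈ G ι m) :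
    ∃ f : F, ∀ x, HF F e br (e x) f = algebraMap _ F (q x) := by
  have hchS : CharP (MvPolynomial X k) p := inferInstance
  have hch : CharP F p :=
    charP_of_injective_algebraMap (IsFractionRing.injective (MvPolynomial X k) F) p
  refine inner (p := p) (fun x => HF F e br (e x)) (fun x => algebraMap _ F (q x)) ?_ ?_ ?_
  · intro x y
    refine ⟨fun z => algebraMap _ F (C (e.repr (br (e x) (e y)) z)), fun a => h.HF_comm x y a, ?_⟩
    rw [HF_alg, HF_alg, ← map_sub, h.coc hq hu, map_sum]
    refine sum_congr rfl fun z _ => ?_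
    rw [smul_eq_C_mul, map_mul]
  · intro x
    refine ⟨fun z => algebraMap _ F (C (e.repr (pm x) z)), fun a => h.HF_pow x a, ?_⟩
    have h1 : ∀ (n : ℕ) (a : MvPolynomial X k), (HF F e br (e x))^[n] (algebraMap _ F a) =
        algebraMap _ F ((Ham e br (e x))^[n] a) := by
      intro n
      induction n with
      | zero => intro a; rfl
      | succ n ih =>
        intro a
        rw [Function.iterate_succ_apply', ih, HF_alg, Function.iterate_succ_apply']
    rw [h1, h.res hq hu, map_sum]
    refine sum_congr rfl fun z _ => ?_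
    rw [smul_eq_C_mul, map_mul]
  · intro w hw
    obtain ⟨b, hb⟩ := IsLocalization.exist_integer_multiples_of_finite
      (nonZeroDivisors (MvPolynomial X k)) w
    choose c hc using hb
    have hb0 : algebraMap (MvPolynomial X k) F b ≠ 0 := alg_ne (nonZeroDivisors.coe_ne_zero b)
    have hcw : ∀ x, algebraMap (MvPolynomial X k) F (c x) =
        algebraMap (MvPolynomial X k) F b * w x := by
      intro x
      rw [hc x, Algebra.smul_def]
    have h1 := hRR u m q hq hu c (by
      intro y
      apply IsFractionRing.injective (MvPolynomial X k) F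
      rw [map_sum, map_zero]
      have h2 := hw (algebraMap (MvPolynomial X k) F (MvPolynomial.X y))
      have h3 : ∀ x, algebraMap (MvPolynomial X k) F (c x * linf e (br (e x) (e y))) =
          algebraMap (MvPolynomial X k) F b *
            (w x * HF F e br (e x) (algebraMap (MvPolynomial X k) F (MvPolynomial.X y))) := by
        intro x
        rw [map_mul, hcw, HF_alg, dS_X]
        ring
      rw [sum_congr rfl fun x _ => h3 x, ← mul_sum, h2, mul_zero])
    have h4 := congrArg (algebraMap (MvPolynomial X k) F) h1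
    rw [map_sum, map_zero] at h4
    have h5 : ∀ x, algebraMap (MvPolynomial X k) F (c x * q x) =
        algebraMap (MvPolynomial X k) F b * (w x * algebraMap _ F (q x)) := by
      intro x
      rw [map_mul, hcw]
      ring
    rw [sum_congr rfl fun x _ => h5 x, ← mul_sum] at h4
    exact (mul_eq_zero.1 h4).resolve_left hb0

end field

end ham

end Pool.Agent.Helper34.KW
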