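import Mathlib
import Pool.Agent.Helper34.KW.Fld

set_option autoImplicit false

/-!
# The field of fractions over the field of fractions of the `p`-th powers

`K` and `F` are two copies of the field of fractions of `MvPolynomial X k`, and `K → F` sends each
variable to its `p`-th power.
-/

namespace Pool.Agent.Helper34.KW

open MvPolynomial Module Finset Pool.Agent.Helper58.KW

section deg

variable {k : Type*} [Field k] {X : Type*} [Fintype X] [DecidableEq X] {p : ℕ}
  [hp : Fact p.Prime] [CharP k p] {F K : Type*} [Field F] [Field K]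
  [Algebra (MvPolynomial X k) F] [IsFractionRing (MvPolynomial X k) F]
  [Algebra (MvPolynomial X k) K] [IsFractionRing (MvPolynomial X k) K] [Algebra K F]

omit hp [CharP k p] in
theorem exists_decomp' (hp0 : 0 < p) (a : MvPolynomial X k) :
    ∃ s : (X → Fin p) → MvPolynomial X k, a = ∑ b, expand p (s b) * mb k b := by
  choose s _ hs using fun t => exists_decomp (p := p) hp0 (homogeneousComponent_isHomogeneous t a)
  refine ⟨fun b => ∑ t ∈ range (a.totalDegree + 1), s t b, ?_⟩
  conv_lhs => rw [← sum_homogeneousComponent a]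
  rw [sum_congr rfl fun t _ => hs t, sum_comm]
  refine sum_congr rfl fun b _ => ?_
  rw [map_sum, sum_mul]

theorem span_mb (hKF : ∀ r : MvPolynomial X k, algebraMap K F (algebraMap _ K r) =
    algebraMap _ F (expand p r)) :
    ⊤ ≤ Submodule.span K (Set.range fun b : X → Fin p =>
      algebraMap (MvPolynomial X k) F (mb k b)) := by
  intro x _
  obtain ⟨a, c, hc, hac⟩ := exists_pfrac (k := k) (X := X) (p := p) x
  obtain ⟨s, hs⟩ := exists_decomp' hp.out.pos a
  have hc0 : algebraMap (MvPolynomial X k) F (expand p c) ≠ 0 :=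
    alg_ne ((expand_ne_zero hp.out.pos).2 hc)
  have h1 : x = ∑ b, (algebraMap (MvPolynomial X k) K (s b) /
      algebraMap (MvPolynomial X k) K c) • algebraMap (MvPolynomial X k) F (mb k b) := by
    apply mul_right_cancel₀ hc0
    rw [hac, hs, map_sum, sum_mul]
    refine sum_congr rfl fun b _ => ?_
    rw [Algebra.smul_def, map_div₀, hKF, hKF, map_mul]
    field_simp
  rw [h1]
  exact Submodule.sum_mem _ fun b _ => Submodule.smul_mem _ _ (Submodule.subset_span ⟨b, rfl⟩)

theorem finite_KF (hKF : ∀ r : MvPolynomial X k, algebraMap K F (algebraMap _ K r) =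
    algebraMap _ F (expand p r)) : FiniteDimensional K F :=
  Module.Finite.of_surjective
    (Fintype.linearCombination K (fun b : X → Fin p => algebraMap (MvPolynomial X k) F (mb k b)))
    (by
      rw [← LinearMap.range_eq_top, Fintype.range_linearCombination]
      exact top_le_iff.1 (span_mb hKF))

theorem finrank_KF (hKF : ∀ r : MvPolynomial X k, algebraMap K F (algebraMap _ K r) =
    algebraMap _ F (expand p r)) : finrank K F ≤ Fintype.card (X → Fin p) := by
  have h1 := finrank_range_le_card (R := K)
    (fun b : X → Fin p => algebraMap (MvPolynomial X k) F (mb k b))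
  unfold Set.finrank at h1
  rw [top_le_iff.1 (span_mb hKF), finrank_top] at h1
  exact h1

theorem der_K (hKF : ∀ r : MvPolynomial X k, algebraMap K F (algebraMap _ K r) =
    algebraMap _ F (expand p r))
    (d : Derivation k (MvPolynomial X k) (MvPolynomial X k)) (c : K) :
    extK F d (algebraMap K F c) = 0 := by
  obtain ⟨a, b, hb, rfl⟩ := IsFractionRing.div_surjective (A := MvPolynomial X k) c
  have hb0 : b ≠ 0 := nonZeroDivisors.ne_zero hb
  have hb1 : algebraMap (MvPolynomial X k) F (expand p b) ≠ 0 :=
    alg_ne ((expand_ne_zero hp.out.pos).2 hb0)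
  have h1 : algebraMap K F (algebraMap _ K a / algebraMap _ K b) *
      algebraMap (MvPolynomial X k) F (expand p b) =
      algebraMap (MvPolynomial X k) F (expand p a) := by
    rw [map_div₀, hKF, hKF]
    field_simp
  have h2 := extK_mul d (algebraMap K F (algebraMap _ K a / algebraMap _ K b)) b
  rw [h1, extK_alg, der_expand, map_zero] at h2
  exact (mul_eq_zero.1 h2.symm).resolve_right hb1

theorem indep_K (hKF : ∀ r : MvPolynomial X k, algebraMap K F (algebraMap _ K r) =
    algebraMap _ F (expand p r)) {N : ℕ} (q : Fin N → X → MvPolynomial X k)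
    (hind : ∀ s : Fin N → MvPolynomial X k, (∀ x, ∑ i, expand p (s i) * q i x = 0) → s = 0) :
    LinearIndependent K (fun i => (fun x => algebraMap (MvPolynomial X k) F (q i x) : X → F)) := by
  rw [Fintype.linearIndependent_iff]
  intro c hc
  obtain ⟨b, hb⟩ := IsLocalization.exist_integer_multiples_of_finite
    (nonZeroDivisors (MvPolynomial X k)) c
  choose s hs using hb
  have hb0 : algebraMap (MvPolynomial X k) K b ≠ 0 := by
    rw [Ne, map_eq_zero_iff _ (IsFractionRing.injective (MvPolynomial X k) K)]
    exact nonZeroDivisors.coe_ne_zero b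
  have hsc : ∀ i, algebraMap (MvPolynomial X k) K (s i) =
      algebraMap (MvPolynomial X k) K b * c i := by
    intro i
    rw [hs i, Algebra.smul_def]
  have h1 : s = 0 := by
    apply hind
    intro x
    apply IsFractionRing.injective (MvPolynomial X k) F
    rw [map_sum, map_zero]
    have h2 := congrFun hc x
    rw [Finset.sum_apply, Pi.zero_apply] at h2
    have h3 : ∀ i, algebraMap (MvPolynomial X k) F (expand p (s i) * q i x) =
        algebraMap K F (algebraMap (MvPolynomial X k) K b) *
          ((c i • (fun x => algebraMap (MvPolynomial X k) F (q i x) : X → F)) x) := by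
      intro i
      rw [map_mul, ← hKF, hsc, map_mul, Pi.smul_apply, Algebra.smul_def]
      ring
    rw [sum_congr rfl fun i _ => h3 i, ← mul_sum, h2, mul_zero]
  intro i
  have h4 := hsc i
  rw [h1, Pi.zero_apply, map_zero] at h4
  exact (mul_eq_zero.1 h4.symm).resolve_left hb0

end deg

section phi

variable {k : Type*} [Field k] {V : Type*} [AddCommGroup V] [Module k V] {A : Type*} [Ring A]
  [Algebra k A] {X : Type*} [Fintype X] [DecidableEq X] {p : ℕ} {ι : V →ₗ[k] A} {e : Basis X k V}
  {symb : MvPolynomial X k →ₗ[k] A} {br : V →ₗ[k] V →ₗ[k] V} {pm : X → V}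
  [hp : Fact p.Prime] [CharP k p] {F K : Type*} [Field F] [Field K]
  [Algebra (MvPolynomial X k) F] [IsFractionRing (MvPolynomial X k) F]
  [Algebra (MvPolynomial X k) K] [IsFractionRing (MvPolynomial X k) K] [Algebra K F]

/-- All Hamiltonian derivations together, as a `K`-linear map. -/
noncomputable def Phi (e : Basis X k V) (br : V →ₗ[k] V →ₗ[k] V)
    (hKF : ∀ r : MvPolynomial X k, algebraMap K F (algebraMap _ K r) =
      algebraMap _ F (expand p r)) : F →ₗ[K] (X → F) :=
  LinearMap.pi fun x => derLin (HF F e br (e x)) (fun c => der_K hKF (Ham e br (e x)) c)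

theorem Phi_apply (e : Basis X k V) (br : V →ₗ[k] V →ₗ[k] V)
    (hKF : ∀ r : MvPolynomial X k, algebraMap K F (algebraMap _ K r) =
      algebraMap _ F (expand p r)) (f : F) (x : X) :
    Phi e br hKF f x = HF F e br (e x) f := rfl

/-- The rank of the Hamiltonian vector fields. -/
noncomputable def hrk (F : Type*) [Field F] [Algebra (MvPolynomial X k) F]
    [IsFractionRing (MvPolynomial X k) F] (e : Basis X k V) (br : V →ₗ[k] V →ₗ[k] V) : ℕ :=
  finrank F (Submodule.span F (Set.range fun x => (⇑(HF F e br (e x)) : F → F)))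

theorem RD.rank_Phi [Nontrivial A] (h : RD p ι e symb br pm)
    (hKF : ∀ r : MvPolynomial X k, algebraMap K F (algebraMap _ K r) =
      algebraMap _ F (expand p r)) :
    finrank K (LinearMap.range (Phi e br hKF)) + finrank K (LinearMap.ker (Phi e br hKF)) ≤
      Fintype.card (X → Fin p) ∧
    finrank K (LinearMap.range (Phi e br hKF)) + finrank K (LinearMap.ker (Phi e br hKF)) ≤
      p ^ hrk F e br * finrank K (LinearMap.ker (Phi e br hKF)) := by
  have hfin := finite_KF (p := p) hKF
  have h1 := LinearMap.finrank_range_add_finrank_ker (Phi e br hKF)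
  have h2 := finrank_KF (p := p) hKF
  have hch : CharP F p :=
    charP_of_injective_algebraMap (IsFractionRing.injective (MvPolynomial X k) F) p
  have h3 := const_dim (p := p) (K := K) (fun x => HF F e br (e x))
    (fun x c => der_K hKF (Ham e br (e x)) c)
    (fun x y => ⟨_, fun a => h.HF_comm x y a⟩)
    (fun x => ⟨_, fun a => h.HF_pow x a⟩)
  have h4 : LinearMap.ker (Phi e br hKF) =
      ⨅ x, LinearMap.ker (derLin (HF F e br (e x))
        (fun c => der_K hKF (Ham e br (e x)) c)) := LinearMap.ker_pi _
  rw [h1]
  refine ⟨h2, ?_⟩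
  rw [h4]
  exact h3

end phi

end Pool.Agent.Helper34.KW
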