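import Mathlib
import Pool.Agent.Helper34.KW.Cen

set_option autoImplicit false

/-!
# The division ring of fractions of the enveloping algebra
-/

namespace Pool.Agent.Helper34.KW

open MvPolynomial Module Finset Pool.Agent.Helper58.KW TensorProduct

universe u v

/-- The central localisation of a domain which is finite and free over a central subring. -/
theorem exists_frac2 {R : Type u} [CommRing R] [IsDomain R] {A : Type v} [Ring A] [IsDomain A]
    [Algebra R A] {ι : Type*} [Fintype ι] (b : Basis ι R A) (K : Type u) [Field K] [Algebra R K]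
    [IsFractionRing R K] :
    ∃ (Δ : Type (max u v)) (_ : DivisionRing Δ) (_ : Algebra K Δ),
      FiniteDimensional K Δ ∧ finrank K Δ = Fintype.card ι ∧
      ∃ i0 : A →+* Δ, Function.Injective i0 ∧
        (∀ r a, i0 (r • a) = algebraMap R K r • i0 a) ∧
        ∀ x : Δ, ∃ (r : R) (a : A), r ≠ 0 ∧ algebraMap R K r • x = i0 a := by
  classical
  let Δ := K ⊗[R] A
  have hfree : Module.Free R A := Module.Free.of_basis b
  have hfin : Module.Finite R A := Module.Finite.of_basis b
  let i0 : A →ₐ[R] Δ := Algebra.TensorProduct.includeRight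
  have hi0 : Function.Injective i0 :=
    Algebra.TensorProduct.includeRight_injective (IsFractionRing.injective R K)
  have hsm : ∀ (r : R) (a : A), i0 (r • a) = algebraMap R K r • i0 a := by
    intro r a
    rw [map_smul, algebraMap_smul]
  have hclear : ∀ x : Δ, ∃ (r : R) (a : A), r ≠ 0 ∧ algebraMap R K r • x = i0 a := by
    intro x
    induction x using TensorProduct.induction_on with
    | zero => exact ⟨1, 0, one_ne_zero, by simp⟩
    | tmul c a =>
      obtain ⟨s, r, hr, rfl⟩ := IsFractionRing.div_surjective (A := R) c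
      have hr0 : r ≠ 0 := nonZeroDivisors.ne_zero hr
      have hr1 : algebraMap R K r ≠ 0 := by
        rw [Ne, map_eq_zero_iff _ (IsFractionRing.injective R K)]
        exact hr0
      refine ⟨r, s • a, hr0, ?_⟩
      rw [TensorProduct.smul_tmul', smul_eq_mul, mul_div_cancel₀ _ hr1, hsm]
      show _ = algebraMap R K s • ((1 : K) ⊗ₜ[R] a)
      rw [TensorProduct.smul_tmul', smul_eq_mul, mul_one]
    | add x y hx hy =>
      obtain ⟨r, a, hr, ha⟩ := hx
      obtain ⟨s, c, hs, hc⟩ := hy
      refine ⟨r * s, s • a + r • c, mul_ne_zero hr hs, ?_⟩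
      rw [map_mul, map_add, hsm, hsm, ← ha, ← hc, smul_add, smul_smul, smul_smul]
      congr 1
      rw [mul_comm]
  have hnz : NoZeroDivisors Δ := by
    refine ⟨?_⟩
    intro x y hxy
    obtain ⟨r, a, hr, ha⟩ := hclear x
    obtain ⟨s, c, hs, hc⟩ := hclear y
    have h1 : i0 (a * c) = 0 := by
      rw [map_mul, ← ha, ← hc, smul_mul_smul_comm, hxy, smul_zero]
    have h2 : a * c = 0 := hi0 (h1.trans (map_zero _).symm)
    have hr1 : algebraMap R K r ≠ 0 := by
      rw [Ne, map_eq_zero_iff _ (IsFractionRing.injective R K)]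
      exact hr
    have hs1 : algebraMap R K s ≠ 0 := by
      rw [Ne, map_eq_zero_iff _ (IsFractionRing.injective R K)]
      exact hs
    rcases mul_eq_zero.1 h2 with h3 | h3
    · left
      rw [h3, map_zero] at ha
      exact (smul_eq_zero.1 ha).resolve_left hr1
    · right
      rw [h3, map_zero] at hc
      exact (smul_eq_zero.1 hc).resolve_left hs1
  have hnt : Nontrivial Δ := by
    refine ⟨⟨0, 1, fun h => ?_⟩⟩
    have h1 : i0 0 = i0 1 := by rw [map_zero, map_one, h]
    exact zero_ne_one (hi0 h1)
  have hdom : IsDomain Δ := NoZeroDivisors.to_isDomain _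
  let D : DivisionRing Δ := divisionRingOfFiniteDimensional K Δ
  refine ⟨Δ, D, Algebra.TensorProduct.leftAlgebra, ?_, ?_, i0.toRingHom, hi0, hsm, hclear⟩
  · show FiniteDimensional K Δ
    infer_instance
  · show finrank K Δ = _
    rw [Module.finrank_baseChange, finrank_eq_card_basis b]

section dom

variable {k : Type*} [Field k] {V : Type*} [AddCommGroup V] [Module k V] {A : Type*} [Ring A]
  [Algebra k A] {X : Type*} {p : ℕ} {ι : V →ₗ[k] A} {e : Basis X k V}
  {symb : MvPolynomial X k →ₗ[k] A} {br : V →ₗ[k] V →ₗ[k] V} {pm : X → V}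

theorem RD.nontrivial (h : RD p ι e symb br pm) : Nontrivial A := by
  refine ⟨⟨0, 1, fun h0 => ?_⟩⟩
  have h1 : (1 : MvPolynomial X k) = 0 := by
    refine h.pbw.symb_lead (d := 0) (isHomogeneous_one X k) ?_
    rw [h.pbw.symb_one, ← h0]
    exact Submodule.zero_mem _
  exact one_ne_zero h1

/-- The leading form of a non-zero element. -/
theorem RD.exists_lead (h : RD p ι e symb br pm) {a : A} (ha : a ≠ 0) :
    ∃ (d : ℕ) (q : MvPolynomial X k), q ≠ 0 ∧ q.IsHomogeneous d ∧ a - symb q ∈ G ι d := by
  classical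
  have hex : ∃ d, a ∈ G ι d := h.pbw.exhaust a
  set D := Nat.find hex with hD
  have h1 : a ∈ G ι D := Nat.find_spec hex
  have h0 : D ≠ 0 := by
    intro h0
    rw [h0, G_zero, Submodule.mem_bot] at h1
    exact ha h1
  obtain ⟨d, hd⟩ : ∃ d, D = d + 1 := ⟨D - 1, by omega⟩
  rw [hd] at h1
  obtain ⟨q, hq, hq'⟩ := h.pbw.symb_surj h1
  refine ⟨d, q, ?_, hq, hq'⟩
  rintro rfl
  rw [map_zero, sub_zero] at hq'
  have := Nat.find_min' hex hq'
  omega

theorem RD.noZeroDivisors (h : RD p ι e symb br pm) : NoZeroDivisors A := by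
  refine ⟨?_⟩
  intro a b hab
  by_contra hne
  push Not at hne
  obtain ⟨d, q, hq0, hq, hqa⟩ := h.exists_lead hne.1
  obtain ⟨d', q', hq0', hq', hqb⟩ := h.exists_lead hne.2
  have h1 := mul_symb h hq hq' hqa hqb
  rw [hab, zero_sub] at h1
  have h2 := h.pbw.symb_lead (hq.mul hq') (by
    have := Submodule.neg_mem _ h1
    rwa [neg_neg] at this)
  exact mul_ne_zero hq0 hq0' h2

theorem RD.isDomain (h : RD p ι e symb br pm) : IsDomain A := by
  have h1 := h.noZeroDivisors
  have h2 := h.nontrivial
  exact NoZeroDivisors.to_isDomain A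

variable [Fintype X] [DecidableEq X]

/-- `A` is free over the central polynomial ring, with basis the reduced monomials. -/
theorem RD.exists_basis (h : RD p ι e symb br pm) (hp2 : 2 ≤ p) :
    ∃ (alg : Algebra (MvPolynomial X k) A) (b : @Basis (X → Fin p) (MvPolynomial X k) A _ _ alg.toModule),
      (∀ (r : MvPolynomial X k) (a : A), (alg.toModule.toSMul.smul r a) = zeta h r * a) ∧
      ∀ i, b i = symb (mb k i) := by
  let alg : Algebra (MvPolynomial X k) A :=
    (zeta h).toRingHom.toAlgebra' (fun r a => zeta_cen h r a)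
  have hsmul : ∀ (r : MvPolynomial X k) (a : A), r • a = zeta h r * a := fun r a => rfl
  have hli : LinearIndependent (MvPolynomial X k) (fun i : X → Fin p => symb (mb k i)) := by
    rw [Fintype.linearIndependent_iff]
    intro z hz i
    have h1 := indep_lift h hp2 (fun i : X → Fin p => symb (mb k i)) (fun i => (ex i).degree)
      (fun i => mb k i) (fun i => mb_hom i) (fun i => by
        rw [sub_self]
        exact Submodule.zero_mem _) (fun s hs => expand_indep (by omega) s hs) z hz
    exact congrFun h1 i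
  have hsp : ⊤ ≤ Submodule.span (MvPolynomial X k)
      (Set.range fun i : X → Fin p => symb (mb k i)) := by
    intro a _
    obtain ⟨m, hm⟩ := h.pbw.exhaust a
    obtain ⟨z, -, hz⟩ := exists_span h hp2 m a hm
    rw [hz]
    refine Submodule.sum_mem _ fun i _ => ?_
    exact Submodule.smul_mem _ (z i) (Submodule.subset_span ⟨i, rfl⟩)
  exact ⟨alg, Basis.mk hli hsp, hsmul, fun i => Basis.mk_apply hli hsp i⟩

end dom

end Pool.Agent.Helper34.KW
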