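import Mathlib
import Pool.Agent.Helper34.KW.Cen

set_option autoImplicit false

/-!
# Commutator vectors with independent symbols

`pot`: if the vectors `([x, u i])_x` are independent over the central polynomial ring (in the form
of a non-vanishing determinant of functionals of bounded degree), then there are other elements
`u' i` whose commutator vectors have symbols that are independent over the `p`-th powers.  The
proof minimises the sum of the degrees minus the degree of the determinant.
-/

namespace Pool.Agent.Helper34.KW

open MvPolynomial Module Finset Pool.Agent.Helper58.KW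

section degree

variable {k : Type*} [Field k] {X : Type*} {p : ℕ}

theorem det_degree {N : ℕ} (M : Matrix (Fin N) (Fin N) (MvPolynomial X k)) (d : Fin N → ℕ)
    (h : ∀ i j, p * (M i j).totalDegree ≤ d i) : p * M.det.totalDegree ≤ ∑ i, d i := by
  rw [Matrix.det_apply]
  have h1 : ∀ σ ∈ (univ : Finset (Equiv.Perm (Fin N))),
      p * (Equiv.Perm.sign σ • ∏ i, M (σ i) i).totalDegree ≤ ∑ i, d i := by
    intro σ _
    have h2 : (Equiv.Perm.sign σ • ∏ i, M (σ i) i).totalDegree ≤
        (∏ i, M (σ i) i).totalDegree := by
      rcases Int.units_eq_one_or (Equiv.Perm.sign σ) with h3 | h3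
      · rw [h3, one_smul]
      · rw [h3, Units.neg_smul, one_smul, totalDegree_neg]
    have h4 : (∏ i, M (σ i) i).totalDegree ≤ ∑ i, (M (σ i) i).totalDegree :=
      totalDegree_finset_prod _ _
    calc p * (Equiv.Perm.sign σ • ∏ i, M (σ i) i).totalDegree
        ≤ p * ∑ i, (M (σ i) i).totalDegree := Nat.mul_le_mul_left p (h2.trans h4)
      _ = ∑ i, p * (M (σ i) i).totalDegree := by rw [mul_sum]
      _ ≤ ∑ i, d (σ i) := sum_le_sum fun i _ => h (σ i) i
      _ = ∑ i, d i := Equiv.sum_comp σ d
  rcases Nat.eq_zero_or_pos p with hp | hp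
  · rw [hp, zero_mul]
    exact Nat.zero_le _
  · have h5 : (∑ σ : Equiv.Perm (Fin N), Equiv.Perm.sign σ • ∏ i, M (σ i) i).totalDegree ≤
        (∑ i, d i) / p := by
      refine (totalDegree_finsetSum _ _).trans ?_
      refine Finset.sup_le fun σ hσ => ?_
      rw [Nat.le_div_iff_mul_le hp, mul_comm]
      exact h1 σ hσ
    rw [mul_comm]
    exact (Nat.le_div_iff_mul_le hp).1 h5

end degree

variable {k : Type*} [Field k] {V : Type*} [AddCommGroup V] [Module k V] {A : Type*} [Ring A]
  [Algebra k A] {X : Type*} {p : ℕ} {ι : V →ₗ[k] A} {e : Basis X k V}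
  {symb : MvPolynomial X k →ₗ[k] A} {br : V →ₗ[k] V →ₗ[k] V} {pm : X → V}

theorem adA_zeta (h : RD p ι e symb br pm) (v : V) (r : MvPolynomial X k) (u : A) :
    adA ι v (zeta h r * u) = zeta h r * adA ι v u := by
  rw [adA_apply, adA_apply, mul_sub, ← mul_assoc, ← zeta_cen h r (ι v), mul_assoc, mul_assoc]

theorem adA_zsum {I : Type*} (s : Finset I) (h : RD p ι e symb br pm) (v : V)
    (r : I → MvPolynomial X k) (u : I → A) :
    adA ι v (∑ i ∈ s, zeta h (r i) * u i) = ∑ i ∈ s, zeta h (r i) * adA ι v (u i) := by
  rw [map_sum]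
  exact sum_congr rfl fun i _ => adA_zeta h v (r i) (u i)

/-- **Independent symbols.** -/
theorem pot (h : RD p ι e symb br pm) (hp2 : 2 ≤ p) {N : ℕ} (C₀ : ℕ)
    (l : Fin N → (X → A) → MvPolynomial X k)
    (hladd : ∀ (j : Fin N) (r : Fin N → MvPolynomial X k) (v : Fin N → X → A),
      l j (fun x => ∑ i, zeta h (r i) * v i x) = ∑ i, r i * l j (v i))
    (hldeg : ∀ (j : Fin N) (v : X → A) (m : ℕ), (∀ x, v x ∈ G ι (m + 1)) →
      p * (l j v).totalDegree ≤ m + C₀)
    (n : ℕ) : ∀ (u : Fin N → A) (m : Fin N → ℕ), (∀ i x, adA ι (e x) (u i) ∈ G ι (m i + 1)) →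
      (Matrix.of fun i j => l j (fun x => adA ι (e x) (u i))).det ≠ 0 →
      ∑ i, m i + N * C₀ = n +
        p * (Matrix.of fun i j => l j (fun x => adA ι (e x) (u i))).det.totalDegree →
      ∃ (u' : Fin N → A) (m' : Fin N → ℕ) (q : Fin N → X → MvPolynomial X k),
        (∀ i x, (q i x).IsHomogeneous (m' i)) ∧
        (∀ i x, adA ι (e x) (u' i) - symb (q i x) ∈ G ι (m' i)) ∧
        ∀ s : Fin N → MvPolynomial X k, (∀ x, ∑ i, expand p (s i) * q i x = 0) → s = 0 := by
  induction n using Nat.strong_induction_on with
  | _ n ih =>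
    intro u m hu hdet hn
    have hq : ∀ i x, ∃ q : MvPolynomial X k, q.IsHomogeneous (m i) ∧
        adA ι (e x) (u i) - symb q ∈ G ι (m i) := fun i x => h.pbw.symb_surj (hu i x)
    choose q hq hq' using hq
    by_cases hind : ∀ s : Fin N → MvPolynomial X k,
        (∀ x, ∑ i, expand p (s i) * q i x = 0) → s = 0
    · exact ⟨u, m, q, hq, hq', hind⟩
    push Not at hind
    obtain ⟨s, hs, hs0⟩ := hind
    obtain ⟨D, s', t, hs'0, hs't, hs'D, hs'⟩ := graded_rel (p := p) (by omega) q m hq s hs0 hs
    obtain ⟨i0, hi0⟩ : ∃ i0, s' i0 ≠ 0 := by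
      by_contra h1
      push Not at h1
      exact hs'0 (funext h1)
    set w := ∑ i, zeta h (s' i) * u i with hw
    have hwx : ∀ x, adA ι (e x) w ∈ G ι D := by
      intro x
      have h1 : adA ι (e x) w = ∑ i, (zeta h (s' i) * adA ι (e x) (u i) -
          symb (expand p (s' i) * q i x)) := by
        rw [sum_sub_distrib, ← map_sum, hs' x, map_zero, sub_zero, hw, adA_zsum]
      rw [h1]
      refine Submodule.sum_mem _ fun i _ => ?_
      by_cases h0 : s' i = 0
      · rw [h0, map_zero, map_zero, zero_mul, zero_mul, map_zero, sub_zero]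
        exact Submodule.zero_mem _
      · rw [← hs'D i h0]
        exact zeta_mul_symb h hp2 (hs't i) (hq i x) (hq' i x)
    set M : Matrix (Fin N) (Fin N) (MvPolynomial X k) :=
      Matrix.of fun i j => l j (fun x => adA ι (e x) (u i)) with hM
    have hrow : ∀ j, l j (fun x => adA ι (e x) w) = ∑ i, s' i * M i j := by
      intro j
      have h1 := hladd j s' (fun i x => adA ι (e x) (u i))
      have h2 : (fun x => adA ι (e x) w) =
          (fun x => ∑ i, zeta h (s' i) * adA ι (e x) (u i)) := by
        funext x
        rw [hw, adA_zsum]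
      rw [h2, h1]
      rfl
    set u' : Fin N → A := Function.update u i0 w with hu'
    have hM' : (Matrix.of fun i j => l j (fun x => adA ι (e x) (u' i))) =
        M.updateRow i0 (∑ i, s' i • M i) := by
      ext1 i j
      rw [Matrix.updateRow_apply, Matrix.of_apply]
      by_cases hi : i = i0
      · subst hi
        rw [if_pos rfl, hu', Function.update_self, hrow, Finset.sum_apply]
        rfl
      · rw [if_neg hi, hu', Function.update_of_ne hi]
        rfl
    have hdet' : (Matrix.of fun i j => l j (fun x => adA ι (e x) (u' i))).det =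
        s' i0 * M.det := by
      rw [hM', Matrix.det_updateRow_sum, smul_eq_mul]
    have hdet'0 : (Matrix.of fun i j => l j (fun x => adA ι (e x) (u' i))).det ≠ 0 := by
      rw [hdet']
      exact mul_ne_zero hi0 hdet
    have hdeg' : (s' i0 * M.det).totalDegree = t i0 + M.det.totalDegree := by
      rw [totalDegree_mul_of_isDomain hi0 hdet, (hs't i0).totalDegree hi0]
    rcases Nat.eq_zero_or_pos D with hD | hD
    · -- the commutator vector of `w` vanishes
      exfalso
      apply hdet'0
      have hz : ∀ x, adA ι (e x) w = 0 := by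
        intro x
        have := hwx x
        rw [hD, G_zero, Submodule.mem_bot] at this
        exact this
      have hl0 : ∀ j, l j (fun x => adA ι (e x) w) = 0 := by
        intro j
        have h1 := hladd j 0 (fun i x => adA ι (e x) (u i))
        simp only [Pi.zero_apply, map_zero, zero_mul, sum_const_zero] at h1
        have h2 : (fun x => adA ι (e x) w) = (fun _ => (0 : A)) := funext hz
        rw [h2]
        exact h1
      apply Matrix.det_eq_zero_of_row_eq_zero i0
      intro j
      rw [Matrix.of_apply, hu', Function.update_self]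
      exact hl0 j
    · have hDi0 := hs'D i0 hi0
      set m' : Fin N → ℕ := Function.update m i0 (D - 1) with hm'
      have hsum : ∑ i, m' i + m i0 = ∑ i, m i + (D - 1) := by
        rw [← add_sum_erase univ m (mem_univ i0), ← add_sum_erase univ m' (mem_univ i0)]
        have h1 : ∑ i ∈ univ.erase i0, m' i = ∑ i ∈ univ.erase i0, m i := by
          refine sum_congr rfl fun i hi => ?_
          rw [hm', Function.update_of_ne (ne_of_mem_erase hi)]
        rw [h1, hm', Function.update_self]
        ring
      have hu'm : ∀ i x, adA ι (e x) (u' i) ∈ G ι (m' i + 1) := by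
        intro i x
        by_cases hi : i = i0
        · subst hi
          rw [hu', hm', Function.update_self, Function.update_self]
          have := hwx x
          rwa [show D - 1 + 1 = D by omega]
        · rw [hu', hm', Function.update_of_ne hi, Function.update_of_ne hi]
          exact hu i x
      -- the new value of the potential
      have hbound : p * (Matrix.of fun i j => l j (fun x => adA ι (e x) (u' i))).det.totalDegree ≤
          ∑ i, (m' i + C₀) := by
        apply det_degree
        intro i j
        rw [Matrix.of_apply]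
        exact hldeg j _ _ (hu'm i)
      rw [sum_add_distrib, sum_const, card_univ, Fintype.card_fin, smul_eq_mul] at hbound
      rw [hdet', hdeg', mul_add] at hbound
      have hnew : ∑ i, m' i + N * C₀ = (n - 1) + p * (t i0 + M.det.totalDegree) := by
        rw [mul_add]
        omega
      have hn1 : n - 1 < n := by
        rw [mul_add] at hnew
        omega
      refine ih (n - 1) hn1 u' m' hu'm hdet'0 ?_
      rw [hdet', hdeg']
      exact hnew

end Pool.Agent.Helper34.KW
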