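import Mathlib
import Pool.Agent.Helper34.KW.Pot
import Pool.Agent.Helper34.KW.Frc
import Pool.Agent.Helper34.KW.Deg
import Pool.Agent.Helper56.SKR.Transfer
import Pool.Agent.Helper56.SKR.Csa

set_option autoImplicit false

/-!
# The rank of the centre

If the symbols of the commutators respect the relations between the Hamiltonian vector fields
(`RR`), then the division ring of fractions of `A` has dimension at most `p ^ s` over its centre,
`s` the rank of the Hamiltonian vector fields.  Hence `d * d ≤ p ^ s` for every irreducible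
representation of `A` of dimension `d`.
-/

namespace Pool.Agent.Helper34.KW

open MvPolynomial Module Finset Pool.Agent.Helper58.KW Pool.Agent.Helper56.SKR
  Pool.Agent.Helper56.SKU

variable {k : Type*} [Field k] {V : Type*} [AddCommGroup V] [Module k V] {A : Type*} [Ring A]
  [Algebra k A] {X : Type*} [Fintype X] [DecidableEq X] {p : ℕ} {ι : V →ₗ[k] A} {e : Basis X k V}
  {symb : MvPolynomial X k →ₗ[k] A} {br : V →ₗ[k] V →ₗ[k] V} {pm : X → V}

/-- The commutators with the generators in a `K`-algebra. -/
noncomputable def TT (K : Type*) [Field K] {Δ : Type*} [Ring Δ] [Algebra K Δ] (g : X → Δ) :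
    Δ →ₗ[K] (X → Δ) :=
  LinearMap.pi fun x => LinearMap.mulLeft K (g x) - LinearMap.mulRight K (g x)

omit [Fintype X] [DecidableEq X] in
theorem TT_apply (K : Type*) [Field K] {Δ : Type*} [Ring Δ] [Algebra K Δ] (g : X → Δ) (a : Δ)
    (x : X) : TT K g a x = g x * a - a * g x := rfl

/-- Functionals of bounded degree. -/
theorem RD.exists_fun (h : RD p ι e symb br pm) (hp2 : 2 ≤ p) {K : Type*} [Field K]
    [Algebra (MvPolynomial X k) K] [IsFractionRing (MvPolynomial X k) K]
    {Δ : Type*} [Ring Δ] [Algebra K Δ] (i0 : A →+* Δ)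
    (hi0 : ∀ (r : MvPolynomial X k) (a : A), i0 (zeta h r * a) = algebraMap _ K r • i0 a)
    {N : ℕ} (L : (X → Δ) →ₗ[K] (Fin N → K)) :
    ∃ (c : MvPolynomial X k) (l : Fin N → (X → A) → MvPolynomial X k) (C₀ : ℕ), c ≠ 0 ∧
      (∀ j v, algebraMap _ K (l j v) = algebraMap _ K c * L (fun x => i0 (v x)) j) ∧
      (∀ (j : Fin N) (v : X → A) (m : ℕ), (∀ x, v x ∈ G ι (m + 1)) →
        p * (l j v).totalDegree ≤ m + C₀) := by
  classical
  obtain ⟨c, hc⟩ := IsLocalization.exist_integer_multiples_of_finite
    (nonZeroDivisors (MvPolynomial X k))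
    (fun w : X × (X → Fin p) × Fin N => L (Pi.single w.1 (i0 (symb (mb k w.2.1)))) w.2.2)
  choose r hr using hc
  have hc0 : (c : MvPolynomial X k) ≠ 0 := nonZeroDivisors.coe_ne_zero c
  have hr' : ∀ w, algebraMap (MvPolynomial X k) K (r w) =
      algebraMap (MvPolynomial X k) K c *
        L (Pi.single w.1 (i0 (symb (mb k w.2.1)))) w.2.2 := by
    intro w
    rw [hr w, Algebra.smul_def]
  -- the value on a vector with given coefficients
  have hval : ∀ (j : Fin N) (v : X → A) (z : X → (X → Fin p) → MvPolynomial X k),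
      (∀ x, v x = ∑ b, zeta h (z x b) * symb (mb k b)) →
      algebraMap (MvPolynomial X k) K (∑ x, ∑ b, z x b * r (x, b, j)) =
        algebraMap (MvPolynomial X k) K c * L (fun x => i0 (v x)) j := by
    intro j v z hz
    have h1 : (fun x => i0 (v x)) = ∑ x, ∑ b, (algebraMap (MvPolynomial X k) K (z x b)) •
        (Pi.single x (i0 (symb (mb k b))) : X → Δ) := by
      funext y
      rw [Finset.sum_apply, Finset.sum_eq_single y]
      · rw [Finset.sum_apply, hz y, map_sum]
        refine sum_congr rfl fun b _ => ?_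
        rw [Pi.smul_apply, Pi.single_eq_same, hi0]
      · intro x _ hxy
        rw [Finset.sum_apply]
        refine sum_eq_zero fun b _ => ?_
        rw [Pi.smul_apply, Pi.single_eq_of_ne (Ne.symm hxy), smul_zero]
      · intro hy
        exact absurd (mem_univ y) hy
    rw [h1, map_sum, map_sum, Finset.sum_apply, mul_sum]
    refine sum_congr rfl fun x _ => ?_
    rw [map_sum, map_sum, Finset.sum_apply, mul_sum]
    refine sum_congr rfl fun b _ => ?_
    rw [map_mul, hr', map_smul, Pi.smul_apply, smul_eq_mul]
    ring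
  have hex : ∀ (j : Fin N) (v : X → A), ∃ w : MvPolynomial X k,
      algebraMap (MvPolynomial X k) K w =
        algebraMap (MvPolynomial X k) K c * L (fun x => i0 (v x)) j := by
    intro j v
    have h1 : ∀ x, ∃ z : (X → Fin p) → MvPolynomial X k,
        v x = ∑ b, zeta h (z b) * symb (mb k b) := by
      intro x
      obtain ⟨m, hm⟩ := h.pbw.exhaust (v x)
      obtain ⟨z, -, hz⟩ := exists_span h hp2 m _ hm
      exact ⟨z, hz⟩
    choose z hz using h1
    exact ⟨_, hval j v z hz⟩
  choose l hl using hex
  refine ⟨c, l, 1 + p * ∑ w, (r w).totalDegree, hc0, hl, ?_⟩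
  intro j v m hv
  have h1 : ∀ x, ∃ z : (X → Fin p) → MvPolynomial X k,
      (∀ b, p * (z b).totalDegree ≤ m + 1) ∧
        v x = ∑ b, zeta h (z b) * symb (mb k b) := fun x => exists_span h hp2 (m + 1) _ (hv x)
  choose z hzd hz using h1
  have h2 : l j v = ∑ x, ∑ b, z x b * r (x, b, j) := by
    apply IsFractionRing.injective (MvPolynomial X k) K
    rw [hl, hval j v z hz]
  have hp0 : 0 < p := by omega
  have h3 : (l j v).totalDegree ≤ (m + (1 + p * ∑ w, (r w).totalDegree)) / p := by
    rw [h2]
    refine (totalDegree_finsetSum _ _).trans (Finset.sup_le fun x _ => ?_)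
    refine (totalDegree_finsetSum _ _).trans (Finset.sup_le fun b _ => ?_)
    refine (totalDegree_mul _ _).trans ?_
    rw [Nat.le_div_iff_mul_le hp0, add_mul]
    have h4 := hzd x b
    have h5 : (r (x, b, j)).totalDegree ≤ ∑ w, (r w).totalDegree :=
      single_le_sum (f := fun w => (r w).totalDegree) (fun _ _ => Nat.zero_le _)
        (mem_univ (x, b, j))
    have h6 := Nat.mul_le_mul_left p h5
    rw [mul_comm (z x b).totalDegree, mul_comm (r (x, b, j)).totalDegree]
    omega
  rw [mul_comm]
  exact (Nat.le_div_iff_mul_le hp0).1 h3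

/-- Independent commutator vectors. -/
theorem RD.rank_core [hp : Fact p.Prime] [CharP k p] (h : RD p ι e symb br pm)
    (hRR : RR ι e symb br) {F K : Type*} [Field F] [Field K]
    [Algebra (MvPolynomial X k) F] [IsFractionRing (MvPolynomial X k) F]
    [Algebra (MvPolynomial X k) K] [IsFractionRing (MvPolynomial X k) K] [Algebra K F]
    (hKF : ∀ r : MvPolynomial X k, algebraMap K F (algebraMap _ K r) =
      algebraMap _ F (expand p r))
    {Δ : Type*} [Ring Δ] [Algebra K Δ] (i0 : A →+* Δ)
    (hi0 : ∀ (r : MvPolynomial X k) (a : A), i0 (zeta h r * a) = algebraMap _ K r • i0 a)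
    {N : ℕ} (u : Fin N → A)
    (hu : LinearIndependent K (fun i => (fun x => i0 (adA ι (e x) (u i)) : X → Δ))) :
    N ≤ finrank K (LinearMap.range (Phi (F := F) e br hKF)) := by
  classical
  have hnt := h.nontrivial
  have hp2 := hp.out.two_le
  have hfin := finite_KF (p := p) hKF
  -- a left inverse
  obtain ⟨L, hL⟩ := LinearMap.exists_leftInverse_of_injective
    (Fintype.linearCombination K (fun i => (fun x => i0 (adA ι (e x) (u i)) : X → Δ)))
    (LinearMap.ker_eq_bot.2 (linearIndependent_iff_injective_fintypeLinearCombination.1 hu))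
  have hL' : ∀ i, L (fun x => i0 (adA ι (e x) (u i))) = Pi.single i 1 := by
    intro i
    have h1 := LinearMap.congr_fun hL (Pi.single i 1)
    rw [LinearMap.comp_apply, Fintype.linearCombination_apply_single, one_smul,
      LinearMap.id_apply] at h1
    exact h1
  obtain ⟨c, l, C₀, hc0, hl, hdeg⟩ := h.exists_fun hp2 i0 hi0 L
  have hadd : ∀ (j : Fin N) (r : Fin N → MvPolynomial X k) (v : Fin N → X → A),
      l j (fun x => ∑ i, zeta h (r i) * v i x) = ∑ i, r i * l j (v i) := by
    intro j r v
    apply IsFractionRing.injective (MvPolynomial X k) K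
    rw [hl, map_sum]
    have h1 : (fun x => i0 (∑ i, zeta h (r i) * v i x)) =
        ∑ i, (algebraMap (MvPolynomial X k) K (r i)) • (fun x => i0 (v i x)) := by
      funext x
      rw [map_sum, Finset.sum_apply]
      refine sum_congr rfl fun i _ => ?_
      rw [hi0]
      rfl
    rw [h1, map_sum, Finset.sum_apply, mul_sum]
    refine sum_congr rfl fun i _ => ?_
    rw [map_smul, Pi.smul_apply, smul_eq_mul, map_mul, hl]
    ring
  have hdet : (Matrix.of fun i j => l j (fun x => adA ι (e x) (u i))).det ≠ 0 := by
    intro h0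
    have h1 : (algebraMap (MvPolynomial X k) K).mapMatrix
        (Matrix.of fun i j => l j (fun x => adA ι (e x) (u i))) =
        (algebraMap (MvPolynomial X k) K c) • (1 : Matrix (Fin N) (Fin N) K) := by
      ext i j
      rw [RingHom.mapMatrix_apply, Matrix.map_apply, Matrix.of_apply, hl, hL',
        Matrix.smul_apply, Matrix.one_apply, smul_eq_mul]
      congr 1
      rw [Pi.single_apply]
      by_cases hij : i = j
      · rw [if_pos hij, if_pos hij.symm]
      · rw [if_neg hij, if_neg (Ne.symm hij)]
    have h2 := congrArg Matrix.det h1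
    rw [← RingHom.map_det, h0, map_zero, Matrix.det_smul, Matrix.det_one, mul_one] at h2
    have h3 : algebraMap (MvPolynomial X k) K c ≠ 0 := by
      rw [Ne, map_eq_zero_iff _ (IsFractionRing.injective (MvPolynomial X k) K)]
      exact hc0
    exact pow_ne_zero _ h3 h2.symm
  -- degrees of the commutators
  have hm : ∀ i x, ∃ m, adA ι (e x) (u i) ∈ G ι (m + 1) := by
    intro i x
    obtain ⟨m, hm⟩ := h.pbw.exhaust (adA ι (e x) (u i))
    exact ⟨m, G_mono ι (Nat.le_succ m) hm⟩
  choose m hm using hm
  have hm' : ∀ i x, adA ι (e x) (u i) ∈ G ι ((fun i => ∑ x, m i x) i + 1) := by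
    intro i x
    refine G_mono ι ?_ (hm i x)
    have := single_le_sum (f := fun x => m i x) (fun _ _ => Nat.zero_le _) (mem_univ x)
    dsimp only at this ⊢
    omega
  have hb : p * (Matrix.of fun i j => l j (fun x => adA ι (e x) (u i))).det.totalDegree ≤
      ∑ i, ((fun i => ∑ x, m i x) i + C₀) := by
    apply det_degree
    intro i j
    rw [Matrix.of_apply]
    exact hdeg j _ _ (hm' i)
  rw [sum_add_distrib, sum_const, card_univ, Fintype.card_fin, smul_eq_mul] at hb
  obtain ⟨n, hn⟩ := Nat.exists_eq_add_of_le' hb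
  obtain ⟨u', m', q, hq, hu', hind⟩ := pot h hp2 C₀ l hadd hdeg n u (fun i => ∑ x, m i x) hm'
    hdet hn
  have hinn : ∀ i, ∃ f : F, ∀ x, HF F e br (e x) f = algebraMap _ F (q i x) := fun i =>
    h.exists_inner hRR (hq i) (hu' i)
  choose f hf using hinn
  have hK := indep_K hKF q hind
  let v : Fin N → LinearMap.range (Phi (F := F) e br hKF) := fun i =>
    ⟨Phi e br hKF (f i), ⟨f i, rfl⟩⟩
  have hv : LinearIndependent K v := by
    apply LinearIndependent.of_comp (LinearMap.range (Phi (F := F) e br hKF)).subtype
    have h1 : ((LinearMap.range (Phi (F := F) e br hKF)).subtype ∘ v) =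
        fun i => (fun x => algebraMap (MvPolynomial X k) F (q i x) : X → F) := by
      funext i x
      exact hf i x
    rw [h1]
    exact hK
  have h5 := hv.fintype_card_le_finrank
  rwa [Fintype.card_fin] at h5

/-- The number of independent commutator vectors is bounded by the rank of the symbols. -/
theorem RD.rank_le [hp : Fact p.Prime] [CharP k p] (h : RD p ι e symb br pm)
    (hRR : RR ι e symb br) {F K : Type*} [Field F] [Field K]
    [Algebra (MvPolynomial X k) F] [IsFractionRing (MvPolynomial X k) F]
    [Algebra (MvPolynomial X k) K] [IsFractionRing (MvPolynomial X k) K] [Algebra K F]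
    (hKF : ∀ r : MvPolynomial X k, algebraMap K F (algebraMap _ K r) =
      algebraMap _ F (expand p r))
    {Δ : Type*} [Ring Δ] [Algebra K Δ] (i0 : A →+* Δ)
    (hi0 : ∀ (r : MvPolynomial X k) (a : A), i0 (zeta h r * a) = algebraMap _ K r • i0 a)
    (hcl : ∀ x : Δ, ∃ (r : MvPolynomial X k) (a : A), r ≠ 0 ∧ algebraMap _ K r • x = i0 a) :
    finrank K (LinearMap.range (TT K fun x => i0 (ι (e x)))) ≤
      finrank K (LinearMap.range (Phi (F := F) e br hKF)) := by
  classical
  set T := TT K (fun x => i0 (ι (e x))) with hT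
  have hTA : ∀ a : A, T (i0 a) = fun x => i0 (adA ι (e x) a) := by
    intro a
    funext x
    rw [hT, TT_apply, adA_apply, map_sub, map_mul, map_mul]
  set s : Set (X → Δ) := Set.range fun a : A => T (i0 a) with hs
  have hspan : Submodule.span K s = LinearMap.range T := by
    apply le_antisymm
    · refine Submodule.span_le.2 ?_
      rintro _ ⟨a, rfl⟩
      exact ⟨i0 a, rfl⟩
    · rintro _ ⟨x, rfl⟩
      obtain ⟨r, a, hr, hra⟩ := hcl x
      have hr1 : algebraMap (MvPolynomial X k) K r ≠ 0 := by
        rw [Ne, map_eq_zero_iff _ (IsFractionRing.injective (MvPolynomial X k) K)]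
        exact hr
      have h1 : T x = (algebraMap (MvPolynomial X k) K r)⁻¹ • T (i0 a) := by
        rw [← hra, map_smul, smul_smul, inv_mul_cancel₀ hr1, one_smul]
      rw [h1]
      exact Submodule.smul_mem _ _ (Submodule.subset_span ⟨a, rfl⟩)
  rw [← hspan]
  by_cases hfs : Module.Finite K (Submodule.span K s)
  · obtain ⟨f, hf, -, hfind⟩ := Submodule.exists_fun_fin_finrank_span_eq K s
    choose u hu using hf
    refine h.rank_core hRR hKF i0 hi0 u ?_
    have h1 : (fun i => (fun x => i0 (adA ι (e x) (u i)) : X → Δ)) = f := by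
      funext i
      rw [← hTA]
      exact hu i
    rw [h1]
    exact hfind
  · rw [Module.finrank_of_not_finite hfs]
    exact Nat.zero_le _

/-- The scalars of `k`. -/
theorem zeta_C (h : RD p ι e symb br pm) (c : k) (a : A) : c • a = zeta h (C c) * a := by
  have h1 : zeta h (C c) = algebraMap k A c := (zeta h).commutes c
  rw [h1, Algebra.smul_def]

/-- The kernel of the commutator map is the centre. -/
theorem RD.ker_TT (h : RD p ι e symb br pm) {K : Type*} [Field K]
    [Algebra (MvPolynomial X k) K] [IsFractionRing (MvPolynomial X k) K]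
    {Δ : Type*} [Ring Δ] [Algebra K Δ] (i0 : A →+* Δ)
    (hi0 : ∀ (r : MvPolynomial X k) (a : A), i0 (zeta h r * a) = algebraMap _ K r • i0 a)
    (hcl : ∀ x : Δ, ∃ (r : MvPolynomial X k) (a : A), r ≠ 0 ∧ algebraMap _ K r • x = i0 a) :
    Subalgebra.toSubmodule (Subalgebra.center K Δ) =
      LinearMap.ker (TT K fun x => i0 (ι (e x))) := by
  ext x
  rw [Subalgebra.mem_toSubmodule, Subalgebra.mem_center_iff, LinearMap.mem_ker]
  constructor
  · intro hx
    funext y
    rw [TT_apply, hx, sub_self]
    rfl
  · intro hx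
    have hgen : ∀ y, i0 (ι (e y)) * x = x * i0 (ι (e y)) := by
      intro y
      have h1 := congrFun hx y
      rw [TT_apply, Pi.zero_apply] at h1
      exact sub_eq_zero.1 h1
    let N : Submodule k A :=
      { carrier := {a | i0 a * x = x * i0 a}
        add_mem' := by
          intro a b ha hb
          show i0 (a + b) * x = x * i0 (a + b)
          rw [map_add, add_mul, mul_add, ha, hb]
        zero_mem' := by
          show i0 0 * x = x * i0 0
          rw [map_zero, zero_mul, mul_zero]
        smul_mem' := by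
          intro c a ha
          show i0 (c • a) * x = x * i0 (c • a)
          rw [zeta_C h, hi0, smul_mul_assoc, mul_smul_comm]
          exact congrArg _ ha }
    have hN : ∀ a, a ∈ N := by
      intro a
      obtain ⟨m, hm⟩ := h.pbw.exhaust a
      rw [G_eq_basis ι e] at hm
      refine (Submodule.span_le.2 ?_) hm
      rintro _ ⟨l, -, rfl⟩
      show i0 (l.map fun x => ι (e x)).prod * x = x * i0 (l.map fun x => ι (e x)).prod
      induction l with
      | nil => rw [List.map_nil, List.prod_nil, map_one, one_mul, mul_one]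
      | cons y l ih => rw [List.map_cons, List.prod_cons, map_mul, mul_assoc, ih, ← mul_assoc,
          hgen, mul_assoc]
    intro y
    obtain ⟨r, a, hr, hra⟩ := hcl y
    have hr1 : algebraMap (MvPolynomial X k) K r ≠ 0 := by
      rw [Ne, map_eq_zero_iff _ (IsFractionRing.injective (MvPolynomial X k) K)]
      exact hr
    have h1 : i0 a * x = x * i0 a := hN a
    rw [← hra, smul_mul_assoc, mul_smul_comm] at h1
    exact smul_right_injective Δ hr1 h1

/-- **The Capelli identity.** -/
theorem RD.cap_zero [hp : Fact p.Prime] [CharP k p] (h : RD p ι e symb br pm)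
    (hRR : RR ι e symb br) (F : Type*) [Field F]
    [Algebra (MvPolynomial X k) F] [IsFractionRing (MvPolynomial X k) F] {n : ℕ}
    (hn : p ^ hrk F e br < n) (a y z : Fin n → A) : cap a y z = 0 := by
  classical
  have hp2 := hp.out.two_le
  have hnt := h.nontrivial
  have hdom := h.isDomain
  obtain ⟨alg, b, hb, -⟩ := h.exists_basis hp2
  obtain ⟨Δ, i1, i2, hfin, hfr, i0, hinj, hsm, hcl⟩ :=
    exists_frac2 b (FractionRing (MvPolynomial X k))
  have hi0 : ∀ (r : MvPolynomial X k) (a : A), i0 (zeta h r * a) =
      algebraMap _ (FractionRing (MvPolynomial X k)) r • i0 a := by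
    intro r a
    rw [← hsm]
    congr 1
    exact (hb r a).symm
  have hginj : Function.Injective ((algebraMap (MvPolynomial X k) F).comp
      (expand p : MvPolynomial X k →ₐ[k] MvPolynomial X k).toRingHom) :=
    (IsFractionRing.injective (MvPolynomial X k) F).comp (expand_injective hp.out.pos)
  let _ : Algebra (FractionRing (MvPolynomial X k)) F := (IsFractionRing.lift hginj).toAlgebra
  have hKF : ∀ r : MvPolynomial X k, algebraMap (FractionRing (MvPolynomial X k)) F
      (algebraMap _ (FractionRing (MvPolynomial X k)) r) = algebraMap _ F (expand p r) := fun r =>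
    IsFractionRing.lift_algebraMap hginj r
  have hle := h.rank_le hRR hKF i0 hi0 hcl
  obtain ⟨h1, h2⟩ := h.rank_Phi hKF
  have hcen := h.ker_TT i0 hi0 hcl
  have h3 := LinearMap.finrank_range_add_finrank_ker
    (TT (FractionRing (MvPolynomial X k)) fun x => i0 (ι (e x)))
  rw [hfr] at h3
  set T := TT (FractionRing (MvPolynomial X k)) fun x => i0 (ι (e x)) with hT
  let Z := Subalgebra.center (FractionRing (MvPolynomial X k)) Δ
  have hz : finrank (FractionRing (MvPolynomial X k)) Z =
      finrank (FractionRing (MvPolynomial X k)) (LinearMap.ker T) := by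
    rw [← hcen]
    rfl
  let _ : Field Z := (center_isField (FractionRing (MvPolynomial X k)) Δ).toField
  have hfinZ : Module.Finite (FractionRing (MvPolynomial X k)) Z := inferInstance
  have hZS : Module.Finite Z Δ :=
    Module.Finite.of_restrictScalars_finite (FractionRing (MvPolynomial X k)) Z Δ
  have h4 : finrank (FractionRing (MvPolynomial X k)) Z * finrank Z Δ =
      finrank (FractionRing (MvPolynomial X k)) Δ :=
    Module.finrank_mul_finrank (FractionRing (MvPolynomial X k)) Z Δ
  rw [hfr, hz] at h4
  have hzpos : 0 < finrank (FractionRing (MvPolynomial X k)) (LinearMap.ker T) := by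
    rw [← hz]
    exact finrank_pos
  have hps : 1 ≤ p ^ hrk F e br := Nat.one_le_pow _ _ hp.out.pos
  have h5 : Fintype.card (X → Fin p) ≤
      p ^ hrk F e br * finrank (FractionRing (MvPolynomial X k)) (LinearMap.ker T) := by
    have h6 : finrank (FractionRing (MvPolynomial X k))
        (LinearMap.ker (Phi (F := F) e br hKF)) ≤
        finrank (FractionRing (MvPolynomial X k)) (LinearMap.ker T) := by omega
    obtain ⟨δ, hδ⟩ := Nat.exists_eq_add_of_le h6
    rw [hδ, mul_add]
    have h7 : δ ≤ p ^ hrk F e br * δ := Nat.le_mul_of_pos_left δ (by omega)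
    omega
  have h8 : finrank Z Δ ≤ p ^ hrk F e br := by
    rw [← h4, mul_comm] at h5
    exact Nat.le_of_mul_le_mul_right h5 hzpos
  let iA : Algebra Z Δ := Algebra.ofModule
    (fun r x y => show ((r : Δ) * x) * y = (r : Δ) * (x * y) from mul_assoc _ _ _)
    (fun r x y => show x * ((r : Δ) * y) = (r : Δ) * (x * y) by
      rw [← mul_assoc, ← mul_assoc, (Subalgebra.mem_center_iff.1 r.2) x])
  have hfinA : @Module.Finite Z Δ _ _ iA.toModule := hZS
  have h9 : @finrank Z Δ _ _ iA.toModule < n := lt_of_le_of_lt h8 hn
  apply hinj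
  rw [cap_map, map_zero]
  exact cap_eq_zero (K := Z) h9 _ _ _

/-- **The bound for irreducible representations.** -/
theorem RD.irr_bound [hp : Fact p.Prime] [CharP k p] (h : RD p ι e symb br pm)
    (hRR : RR ι e symb br) (F : Type*) [Field F]
    [Algebra (MvPolynomial X k) F] [IsFractionRing (MvPolynomial X k) F]
    {E : Type*} [Field E] {W : Type*} [AddCommGroup W] [Module E W] [FiniteDimensional E W]
    (ρ : A →+* Module.End E W) (hρ : ∀ g, g ∈ Submodule.span E (Set.range ρ)) :
    finrank E W * finrank E W ≤ p ^ hrk F e br := by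
  classical
  by_contra hcon
  push Not at hcon
  set n := p ^ hrk F e br + 1 with hn
  obtain ⟨a, y, z, hne⟩ := cap_ne_zero E (N := finrank E W) (n := n) (by omega)
    (Nat.succ_pos _)
  apply hne
  let e' := LinearMap.toMatrixAlgEquiv (Module.finBasis E W)
  have h1 : ∀ a y z : Fin n → Module.End E W, cap a y z = 0 := by
    refine cap_ext (F := E) (S := Set.range ρ) hρ ?_
    intro a y z ha hy hz
    choose a' ha' using ha
    choose y' hy' using hy
    choose z' hz' using hz
    have h2 := h.cap_zero hRR F (n := n) (Nat.lt_succ_self _) a' y' z'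
    have h3 := cap_map ρ a' y' z'
    rw [h2, map_zero] at h3
    simp only [ha', hy', hz'] at h3
    exact h3.symm
  have h2 := congrArg e' (h1 (fun i => e'.symm (a i)) (fun i => e'.symm (y i))
    (fun i => e'.symm (z i)))
  rw [map_zero] at h2
  let e'' : Module.End E W →+* Matrix (Fin (finrank E W)) (Fin (finrank E W)) E :=
    e'.toRingEquiv.toRingHom
  have h3 := cap_map e'' (fun i => e'.symm (a i)) (fun i => e'.symm (y i))
    (fun i => e'.symm (z i))
  have h4 : ∀ x, e'' (e'.symm x) = x := fun x => e'.apply_symm_apply x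
  simp only [h4] at h3
  rw [← h3]
  exact h2

end Pool.Agent.Helper34.KW
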