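import Mathlib
import Pool.Agent.Helper34.KW.RankA
import Pool.Agent.Helper28.KW.Gen

set_option autoImplicit false

/-!
# The rank of the Hamiltonian vector fields is attained at a point
-/

namespace Pool.Agent.Helper34.KW

open MvPolynomial Module Finset Pool.Agent.Helper58.KW Pool.Agent.Helper28.KW

section kill

variable {k : Type*} [Field k] {X : Type*} [Fintype X] {F : Type*} [Field F]
  [Algebra (MvPolynomial X k) F] [IsFractionRing (MvPolynomial X k) F]

theorem der_zero (D : Derivation ℤ F F)
    (hC : ∀ a : k, D (algebraMap (MvPolynomial X k) F (C a)) = 0)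
    (hX : ∀ x, D (algebraMap (MvPolynomial X k) F (MvPolynomial.X x)) = 0) (f : F) : D f = 0 := by
  have h1 : ∀ a : MvPolynomial X k, D (algebraMap _ F a) = 0 := by
    intro a
    induction a using MvPolynomial.induction_on with
    | C a => exact hC a
    | add a b ha hb => rw [map_add, map_add, ha, hb, add_zero]
    | mul_X a x ha => rw [map_mul, Derivation.leibniz, ha, hX, smul_zero, smul_zero, add_zero]
  obtain ⟨a, b, hb, rfl⟩ := IsFractionRing.div_surjective (A := MvPolynomial X k) f
  have hb0 : algebraMap (MvPolynomial X k) F b ≠ 0 := alg_ne (nonZeroDivisors.ne_zero hb)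
  have h2 := h1 a
  have h3 : algebraMap (MvPolynomial X k) F a =
      (algebraMap (MvPolynomial X k) F a / algebraMap (MvPolynomial X k) F b) *
        algebraMap (MvPolynomial X k) F b := by
    rw [div_mul_cancel₀ _ hb0]
  rw [h3, Derivation.leibniz, h1 b, smul_zero, zero_add, smul_eq_mul] at h2
  rcases mul_eq_zero.1 h2 with h4 | h4
  · exact absurd h4 hb0
  · exact h4

end kill

section hrk

variable {k : Type*} [Field k] {V : Type*} [AddCommGroup V] [Module k V] {X : Type*} [Fintype X]
  [DecidableEq X] (F : Type*) [Field F] [Algebra (MvPolynomial X k) F]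
  [IsFractionRing (MvPolynomial X k) F]

theorem hrk_eq (e : Basis X k V) (br : V →ₗ[k] V →ₗ[k] V) :
    hrk F e br = ((NN e br).map (algebraMap (MvPolynomial X k) F)).rank := by
  set M : Matrix X X F := (NN e br).map (algebraMap (MvPolynomial X k) F) with hM
  set Ψ : (X → F) →ₗ[F] (F → F) :=
    Fintype.linearCombination F (fun x => (⇑(HF F e br (e x)) : F → F)) with hΨ
  have hr : LinearMap.range Ψ = Submodule.span F
      (Set.range fun x => (⇑(HF F e br (e x)) : F → F)) := by
    rw [hΨ]
    exact Fintype.range_linearCombination F (v := fun x => (⇑(HF F e br (e x)) : F → F))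
  have hk : LinearMap.ker Ψ = LinearMap.ker M.mulVecLin := by
    ext c
    rw [LinearMap.mem_ker, LinearMap.mem_ker, Matrix.mulVecLin_apply]
    have hΨc : ∀ f, Ψ c f = ∑ x, c x * HF F e br (e x) f := by
      intro f
      rw [hΨ, Fintype.linearCombination_apply, Finset.sum_apply]
      rfl
    have hMc : ∀ y, M.mulVec c y = ∑ x, c x * HF F e br (e x)
        (algebraMap (MvPolynomial X k) F (MvPolynomial.X y)) := by
      intro y
      rw [Matrix.mulVec, dotProduct]
      refine sum_congr rfl fun x _ => ?_
      rw [HF_alg, dS_X, hM, Matrix.map_apply, mul_comm]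
      rfl
    constructor
    · intro h
      ext1 y
      rw [hMc, ← hΨc, h, Pi.zero_apply, Pi.zero_apply]
    · intro h
      ext1 f
      let D : Derivation ℤ F F := ∑ x, c x • HF F e br (e x)
      have hD : ∀ f, D f = Ψ c f := by
        intro f
        rw [hΨc]
        show (∑ x, c x • HF F e br (e x)) f = _
        have h2 := congrFun (map_sum (Derivation.coeFnAddMonoidHom (R := ℤ) (A := F) (M := F))
          (fun x => c x • HF F e br (e x)) univ) f
        rw [Finset.sum_apply] at h2
        exact h2
      rw [← hD, Pi.zero_apply]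
      refine der_zero (k := k) (X := X) D ?_ ?_ f
      · intro a
        rw [hD, hΨc]
        refine sum_eq_zero fun x _ => ?_
        have h1 : Ham e br (e x) (C a) = 0 := by
          exact (Ham e br (e x)).map_algebraMap a
        rw [HF_alg, h1, map_zero, mul_zero]
      · intro x
        rw [hD, hΨc, ← hMc, h, Pi.zero_apply]
  have h1 := LinearMap.finrank_range_add_finrank_ker Ψ
  have h2 := LinearMap.finrank_range_add_finrank_ker M.mulVecLin
  rw [hk] at h1
  unfold hrk
  rw [← hr, Matrix.rank]
  omega

/-- The rank of the Hamiltonian vector fields is at most the rank at some point. -/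
theorem exists_rank [Infinite k] (e : Basis X k V) (br : V →ₗ[k] V →ₗ[k] V) :
    ∃ θ : X → k, hrk F e br ≤ (Nt e br θ).rank := by
  rw [hrk_eq]
  set M : Matrix X X F := (NN e br).map (algebraMap (MvPolynomial X k) F) with hM
  obtain ⟨P, Q, hPQ⟩ := exists_PQ M
  obtain ⟨b, hb⟩ := IsLocalization.exist_integer_multiples_of_finite
    (nonZeroDivisors (MvPolynomial X k)) (S := F)
    (fun t : (Fin M.rank × X) ⊕ (X × Fin M.rank) =>
      Sum.elim (fun u => P u.1 u.2) (fun u => Q u.1 u.2) t)
  have hP : ∀ i x, ∃ a, algebraMap (MvPolynomial X k) F a = algebraMap _ F (b : MvPolynomial X k) *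
      P i x := by
    intro i x
    obtain ⟨a, ha⟩ := hb (Sum.inl (i, x))
    exact ⟨a, by rw [ha, Algebra.smul_def]; rfl⟩
  have hQ : ∀ x i, ∃ a, algebraMap (MvPolynomial X k) F a = algebraMap _ F (b : MvPolynomial X k) *
      Q x i := by
    intro x i
    obtain ⟨a, ha⟩ := hb (Sum.inr (x, i))
    exact ⟨a, by rw [ha, Algebra.smul_def]; rfl⟩
  choose P' hP' using hP
  choose Q' hQ' using hQ
  have hb0 : (b : MvPolynomial X k) ≠ 0 := nonZeroDivisors.ne_zero b.2
  let Pm : Matrix (Fin M.rank) X (MvPolynomial X k) := Matrix.of P'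
  let Qm : Matrix X (Fin M.rank) (MvPolynomial X k) := Matrix.of Q'
  have hinj := IsFractionRing.injective (MvPolynomial X k) F
  have hPm : Pm.map (algebraMap _ F) = algebraMap _ F (b : MvPolynomial X k) • P := by
    ext i x
    exact hP' i x
  have hQm : Qm.map (algebraMap _ F) = algebraMap _ F (b : MvPolynomial X k) • Q := by
    ext i x
    exact hQ' i x
  have h1 : Pm * NN e br * Qm = ((b : MvPolynomial X k) ^ 2) • 1 := by
    apply Matrix.map_injective hinj
    have e1 : ((Pm * NN e br * Qm).map (algebraMap (MvPolynomial X k) F)) =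
        Pm.map (algebraMap _ F) * M * Qm.map (algebraMap _ F) := by
      rw [Matrix.map_mul, Matrix.map_mul]
    show (Pm * NN e br * Qm).map (algebraMap (MvPolynomial X k) F) =
      (((b : MvPolynomial X k) ^ 2) • (1 : Matrix _ _ (MvPolynomial X k))).map (algebraMap _ F)
    rw [e1, hPm, hQm, Matrix.smul_mul, Matrix.smul_mul, Matrix.mul_smul, hPQ, smul_smul]
    ext i j
    rw [Matrix.smul_apply, Matrix.map_apply, Matrix.smul_apply, smul_eq_mul, smul_eq_mul,
      map_mul, map_pow, pow_two]
    congr 1
    rw [Matrix.one_apply, Matrix.one_apply]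
    split_ifs
    · rw [map_one]
    · rw [map_zero]
  obtain ⟨θ, hθ⟩ : ∃ θ : X → k, eval θ (b : MvPolynomial X k) ≠ 0 := by
    by_contra hcon
    push Not at hcon
    apply hb0
    apply MvPolynomial.funext
    intro θ
    rw [hcon, map_zero]
  refine ⟨θ, ?_⟩
  have h2 : Pm.map (eval θ) * Nt e br θ * Qm.map (eval θ) =
      (eval θ (b : MvPolynomial X k) ^ 2) • 1 := by
    have e1 := congrArg (fun N : Matrix _ _ (MvPolynomial X k) => N.map (eval θ)) h1
    simp only [Matrix.map_mul] at e1
    have e2 : (((b : MvPolynomial X k) ^ 2) • (1 : Matrix (Fin M.rank) (Fin M.rank)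
        (MvPolynomial X k))).map (eval θ) = (eval θ (b : MvPolynomial X k) ^ 2) • 1 := by
      ext i j
      rw [Matrix.smul_apply, Matrix.map_apply, Matrix.smul_apply, smul_eq_mul, smul_eq_mul,
        map_mul, map_pow]
      congr 1
      rw [Matrix.one_apply, Matrix.one_apply]
      split_ifs
      · rw [map_one]
      · rw [map_zero]
    rw [e2] at e1
    exact e1
  have hu : IsUnit (eval θ (b : MvPolynomial X k) ^ 2) := (pow_ne_zero 2 hθ).isUnit
  have h3 : (Pm.map (eval θ) * Nt e br θ * Qm.map (eval θ)).rank = M.rank := by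
    rw [h2]
    have h4 : IsUnit ((eval θ (b : MvPolynomial X k) ^ 2) •
        (1 : Matrix (Fin M.rank) (Fin M.rank) k)) := by
      rw [Matrix.isUnit_iff_isUnit_det, Matrix.det_smul, Matrix.det_one, mul_one]
      exact hu.pow _
    rw [Matrix.rank_of_isUnit _ h4, Fintype.card_fin]
  calc M.rank = (Pm.map (eval θ) * Nt e br θ * Qm.map (eval θ)).rank := h3.symm
    _ ≤ (Pm.map (eval θ) * Nt e br θ).rank := Matrix.rank_mul_le_left _ _
    _ ≤ (Nt e br θ).rank := Matrix.rank_mul_le_right _ _

/-- The rank of the Hamiltonian vector fields in terms of stabilisers. -/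
theorem exists_stab [Infinite k] (e : Basis X k V) (br : V →ₗ[k] V →ₗ[k] V) :
    ∃ θ : V →ₗ[k] k, finrank k (stab br θ) + hrk F e br ≤ Fintype.card X := by
  obtain ⟨θ, hθ⟩ := exists_rank F e br
  refine ⟨tof e θ, ?_⟩
  have := finrank_stab e br θ
  omega

end hrk

end Pool.Agent.Helper34.KW
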