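import Mathlib
import Pool.Agent.Helper34.KW.Hrk
import Pool.Agent.Helper58.KW.PBWEnv
import Pool.Agent.Helper28.KW.Point

set_option autoImplicit false

/-!
# The enveloping algebra of a restricted Lie algebra as an instance
-/

namespace Pool.Agent.Helper34.KW

open Module Pool.Agent.Helper56.SKW.PBW Pool.Agent.Helper56.SKU Pool.Agent.Helper56.SKR
  Pool.Agent.Helper58.KW Pool.Agent.Helper28.KW

universe u₁ u₂ u₃

section lift

variable {k : Type*} [Field k] {X : Type*} [LinearOrder X] {L : Type*} [AddCommGroup L]
  [Module k L] (g : Alg k X L)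

/-- The universal property. -/
theorem exists_lift (hev : ∀ x, g.par x = false) {B : Type*} [Ring B] [Algebra k B]
    (f : L →ₗ[k] B) (hf : ∀ x y, f (g.br (g.e x) (g.e y)) =
      f (g.e x) * f (g.e y) - f (g.e y) * f (g.e x)) :
    ∃ T : Env g →ₐ[k] B, ∀ v, T (tau g v) = f v := by
  let φ : FA k X →ₐ[k] B :=
    MonoidAlgebra.lift k B (FreeMonoid X) (FreeMonoid.lift fun x => f (g.e x))
  have hφW : ∀ l : List X, φ (W k l) = (l.map fun x => f (g.e x)).prod := by
    intro l
    show MonoidAlgebra.lift k B (FreeMonoid X) (FreeMonoid.lift fun x => f (g.e x))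
      (MonoidAlgebra.single (FreeMonoid.ofList l) 1) = _
    rw [MonoidAlgebra.lift_single, one_smul, FreeMonoid.lift_apply]
    rfl
  have hφl : ∀ v, φ (g.lam v) = f v := by
    have h1 : φ.toLinearMap ∘ₗ g.lam = f := by
      refine g.e.ext fun x => ?_
      rw [LinearMap.comp_apply, g.lam_e, AlgHom.toLinearMap_apply, hφW]
      simp
    exact fun v => LinearMap.congr_fun h1 v
  have hρ : ∀ x y, φ (g.rho x y) = 0 := by
    intro x y
    have h1 : Pool.Agent.Helper56.SKW.PBW.eps k g.par x y = 1 := by
      unfold Pool.Agent.Helper56.SKW.PBW.eps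
      rw [hev x]
      simp
    unfold Alg.rho
    rw [map_sub, map_sub, h1, one_smul, hφW, hφW, hφl, hf]
    simp
  have hJ : ∀ a ∈ Jid g, φ a = 0 := by
    intro a ha
    have ha' : a ∈ g.J := ha
    unfold Alg.J Alg.IS at ha'
    induction ha' using Submodule.span_induction with
    | mem b hb =>
      obtain ⟨u, x, y, v, -, -, rfl⟩ := hb
      rw [map_mul, map_mul, hρ, mul_zero, zero_mul]
    | zero => rw [map_zero]
    | add a b ha' hb' iha ihb => rw [map_add, iha ha', ihb hb', add_zero]
    | smul c a ha' iha => rw [map_smul, iha ha', smul_zero]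
  refine ⟨Ideal.Quotient.liftₐ (Jid g) φ hJ, fun v => ?_⟩
  show Ideal.Quotient.liftₐ (Jid g) φ hJ (mkU g (g.lam v)) = f v
  rw [← hφl]
  rfl

/-- Centrality can be tested on the generators. -/
theorem cen_of (z : Env g) (hz : ∀ x, z * tau g (g.e x) = tau g (g.e x) * z) (a : Env g) :
    z * a = a * z := by
  have h1 : a ∈ (⊤ : Submodule k (Env g)) := trivial
  rw [← env_gen g] at h1
  induction h1 using Submodule.span_induction with
  | mem a ha =>
    obtain ⟨l, rfl⟩ := ha
    induction l with
    | nil => simp [Pool.Agent.Helper56.SKW.PBW.pw]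
    | cons x l ih =>
      rw [Pool.Agent.Helper56.SKW.PBW.pw_cons, ← mul_assoc, hz, mul_assoc, ih, mul_assoc]
  | zero => rw [mul_zero, zero_mul]
  | add x y _ _ hx hy => rw [mul_add, add_mul, hx, hy]
  | smul c x _ hx => rw [mul_smul_comm, smul_mul_assoc, hx]

theorem tau_br (hev : ∀ x, g.par x = false) (v w : L) :
    tau g (g.br v w) = tau g v * tau g w - tau g w * tau g v := by
  have h1 : ∀ x y, tau g (g.br (g.e x) (g.e y)) =
      tau g (g.e x) * tau g (g.e y) - tau g (g.e y) * tau g (g.e x) := by
    intro x y
    have h2 := tau_comm g x y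
    have h3 : Pool.Agent.Helper56.SKW.PBW.eps k g.par x y = 1 := by
      unfold Pool.Agent.Helper56.SKW.PBW.eps
      rw [hev x]
      simp
    rw [h3, one_smul] at h2
    rw [h2]
    abel
  have h2 : g.br.compr₂ (tau g) = (LinearMap.mul k (Env g)).compl₁₂ (tau g) (tau g) -
      ((LinearMap.mul k (Env g)).compl₁₂ (tau g) (tau g)).flip := by
    refine g.e.ext fun x => g.e.ext fun y => ?_
    exact h1 x y
  exact LinearMap.congr_fun (LinearMap.congr_fun h2 v) w

variable {g}

theorem adpow (hev : ∀ x, g.par x = false) (v w : L) (n : ℕ) :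
    ((adA (tau g) v) ^ n) (tau g w) = tau g (((g.br v : Module.End k L) ^ n) w) := by
  induction n with
  | zero => rfl
  | succ n ih =>
    rw [pow_succ', pow_succ', Module.End.mul_apply, Module.End.mul_apply, ih, adA_apply,
      tau_br g hev]

/-- `p`-th powers are central up to elements of the Lie algebra. -/
theorem pow_cen (h2 : (2 : k) ≠ 0) [Finite X] {p : ℕ} [hp : Fact p.Prime] [CharP k p]
    (hev : ∀ x, g.par x = false) {v v' : L}
    (hv : ∀ w, g.br v' w = ((g.br v : Module.End k L) ^ p) w) (a : Env g) :
    (tau g v ^ p - tau g v') * a = a * (tau g v ^ p - tau g v') := by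
  have hnt : Nontrivial (Env g) := env_nontrivial g h2
  refine cen_of g _ (fun x => ?_) a
  have h1 := adpow hev v (g.e x) p
  rw [adA_pow, ← hv, tau_br g hev] at h1
  rw [sub_mul, mul_sub]
  have h3 : tau g v ^ p * tau g (g.e x) - tau g (g.e x) * tau g v ^ p -
      (tau g v' * tau g (g.e x) - tau g (g.e x) * tau g v') = 0 := by
    rw [h1, sub_self]
  rw [← sub_eq_zero, ← h3]
  abel

variable [Fintype X]

/-- The instance. -/
theorem env_RD (h2 : (2 : k) ≠ 0) {p : ℕ} [hp : Fact p.Prime] [CharP k p]
    (hev : ∀ x, g.par x = false) {pm : X → L}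
    (hpm : ∀ x w, g.br (pm x) w = ((g.br (g.e x) : Module.End k L) ^ p) w) :
    RD p (tau g) g.e (Pool.Agent.Helper56.SKR.symb g) g.br pm where
  pbw := PBW_env g h2 hev
  iota_br := tau_br g hev
  cen x a := pow_cen h2 hev (hpm x) a

theorem env_PM (h2 : (2 : k) ≠ 0) {p : ℕ} [hp : Fact p.Prime] [CharP k p]
    (hev : ∀ x, g.par x = false)
    (hres : ∀ v, ∃ v', ∀ w, g.br v' w = ((g.br v : Module.End k L) ^ p) w) : PM p (tau g) := by
  intro v
  obtain ⟨v', hv'⟩ := hres v
  exact ⟨v', pow_cen h2 hev hv'⟩

end lift

section TM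

variable {k : Type u₁} [Field k] {X : Type u₂} [LinearOrder X] {L : Type u₃} [AddCommGroup L]
  [Module k L] {g : Alg k X L}

theorem env_TM (hev : ∀ x, g.par x = false) : TM (tau g) := by
  let b := Basis.ofVectorSpace k (Env g)
  let f : L →ₗ[k] Module.End k (MvPolynomial (Basis.ofVectorSpaceIndex k (Env g)) k) :=
    { toFun := fun v => rho b (tau g v)
      map_add' := fun v w => by
        apply LinearMap.ext
        intro q
        have h1 : ∀ (S T : Env g →ₗ[k] Env g), Ld b (S + T) = Ld b S + Ld b T := by
          intro S T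
          apply MvPolynomial.derivation_ext
          intro i
          rw [Derivation.add_apply, ← ln_basis b i, Ld_ln, Ld_ln, Ld_ln, LinearMap.add_apply,
            map_add]
        have h3 : LinearMap.mulLeft k (tau g v + tau g w) =
            LinearMap.mulLeft k (tau g v) + LinearMap.mulLeft k (tau g w) := by
          apply LinearMap.ext
          intro a
          simp [add_mul]
        rw [map_add, LinearMap.add_apply, rho_apply, rho_apply, rho_apply, map_add, add_mul, h3,
          h1, Derivation.add_apply]
        abel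
      map_smul' := fun c v => by
        apply LinearMap.ext
        intro q
        have h1 : ∀ (S : Env g →ₗ[k] Env g), Ld b (c • S) = c • Ld b S := by
          intro S
          apply MvPolynomial.derivation_ext
          intro i
          rw [Derivation.smul_apply, ← ln_basis b i, Ld_ln, Ld_ln, LinearMap.smul_apply,
            map_smul]
        have h3 : LinearMap.mulLeft k (c • tau g v) = c • LinearMap.mulLeft k (tau g v) := by
          apply LinearMap.ext
          intro a
          simp
        rw [map_smul, RingHom.id_apply, LinearMap.smul_apply, rho_apply, rho_apply, map_smul,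
          smul_mul_assoc, h3, h1, Derivation.smul_apply, smul_add] }
  obtain ⟨T, hT⟩ := exists_lift g hev f (fun x y => by
    apply LinearMap.ext
    intro q
    show rho b (tau g (g.br (g.e x) (g.e y))) q = rho b (tau g (g.e x)) (rho b (tau g (g.e y)) q) -
      rho b (tau g (g.e y)) (rho b (tau g (g.e x)) q)
    rw [rho_comm, tau_br g hev])
  exact ⟨_, b, T, hT⟩

end TM

end Pool.Agent.Helper34.KW
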