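import Mathlib
import Pool.Agent.Helper34.KW.Inst
import Pool.Agent.Helper56.SKF.Main

set_option autoImplicit false

/-!
# The bound for the even part and the super Kac–Weisfeiler equality
-/

namespace Pool.Agent.Helper34.KW

open Module Pool.Agent.Helper56.SKW Pool.Agent.Helper56.SKW.PBW Pool.Agent.Helper56.SKU
  Pool.Agent.Helper56.SKR Pool.Agent.Helper58.KW Pool.Agent.Helper28.KW

universe u v w

section even

/-- The rank of an alternating form is even. -/
theorem even_rank {k V : Type*} [Field k] [AddCommGroup V] [Module k V] [FiniteDimensional k V]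
    (h2 : (2 : k) ≠ 0) (B : V →ₗ[k] V →ₗ[k] k) (hB : ∀ v w, B v w = -B w v) :
    Even (finrank k V - finrank k (LinearMap.ker B)) := by
  classical
  obtain ⟨C, hC⟩ := (LinearMap.ker B).exists_isCompl
  have h1 := Submodule.finrank_add_eq_of_isCompl hC
  have h3 : finrank k V - finrank k (LinearMap.ker B) = finrank k C := by omega
  rw [h3]
  let b := finBasis k C
  let G : Matrix (Fin (finrank k C)) (Fin (finrank k C)) k :=
    Matrix.of fun i j => B (b i) (b j)
  have hG : G.det ≠ 0 := by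
    intro h0
    obtain ⟨w, hw, hGw⟩ := Matrix.exists_mulVec_eq_zero_iff.2 h0
    apply hw
    let c : C := ∑ j, w j • b j
    have e1 : ∀ i, B (b i) c = 0 := by
      intro i
      have := congrFun hGw i
      rw [Matrix.mulVec, dotProduct, Pi.zero_apply] at this
      rw [← this]
      show B (b i) ((∑ j, w j • b j : C) : V) = _
      rw [AddSubmonoidClass.coe_finset_sum, map_sum]
      refine Finset.sum_congr rfl fun j _ => ?_
      rw [Submodule.coe_smul, map_smul, smul_eq_mul, mul_comm]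
      rfl
    have e2 : ∀ x : C, B x c = 0 := by
      intro x
      have h4 : (x : V) = ∑ i, b.repr x i • (b i : V) := by
        conv_lhs => rw [← b.sum_repr x]
        rw [AddSubmonoidClass.coe_finset_sum]
        rfl
      rw [h4, map_sum, LinearMap.sum_apply]
      refine Finset.sum_eq_zero fun i _ => ?_
      rw [map_smul, LinearMap.smul_apply, e1, smul_zero]
    have e3 : (c : V) ∈ LinearMap.ker B := by
      rw [LinearMap.mem_ker]
      apply LinearMap.ext
      intro v
      have h5 : v ∈ LinearMap.ker B ⊔ C := by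
        rw [hC.sup_eq_top]
        trivial
      obtain ⟨y, hy, z, hz, rfl⟩ := Submodule.mem_sup.1 h5
      rw [map_add, hB _ y, LinearMap.mem_ker.1 hy, LinearMap.zero_apply, neg_zero, zero_add,
        hB, e2 ⟨z, hz⟩, neg_zero, LinearMap.zero_apply]
    have e4 : (c : V) = 0 := by
      have := hC.disjoint.le_bot ⟨e3, c.2⟩
      exact this
    have e5 : c = 0 := Subtype.ext e4
    have e6 := Fintype.linearIndependent_iff.1 b.linearIndependent w e5
    funext i
    exact e6 i
  by_contra hodd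
  rw [Nat.not_even_iff_odd] at hodd
  have e1 : G.transpose = -G := by
    ext i j
    exact hB _ _
  have e2 := Matrix.det_transpose G
  rw [e1, Matrix.det_neg, Fintype.card_fin, hodd.neg_one_pow] at e2
  apply hG
  have e3 : (2 : k) * G.det = 0 := by linear_combination -e2
  exact (mul_eq_zero.1 e3).resolve_left h2

theorem even_bEven {k L₀ L₁ : Type*} [Field k] [AddCommGroup L₀] [Module k L₀] [AddCommGroup L₁]
    [Module k L₁] [FiniteDimensional k L₀] (h2 : (2 : k) ≠ 0) (g : LieSuper k L₀ L₁)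
    (θ : L₀ →ₗ[k] k) : Even (bEven g θ) := by
  refine even_rank h2 (form₀ g θ) fun v w => ?_
  show θ (g.b00 v w) = -θ (g.b00 w v)
  rw [anti00 g v w, map_neg]

theorem stab_eq {k L₀ L₁ : Type*} [Field k] [AddCommGroup L₀] [Module k L₀] [AddCommGroup L₁]
    [Module k L₁] (g : LieSuper k L₀ L₁) (θ : L₀ →ₗ[k] k) :
    stab g.b00 θ = LinearMap.ker (form₀ g θ) := by
  ext v
  rw [mem_stab, LinearMap.mem_ker]
  constructor
  · intro h
    apply LinearMap.ext
    intro w
    exact h w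
  · intro h w
    exact LinearMap.congr_fun h w

end even

section bound

variable {k : Type u} [Field k] {L₀ : Type v} {L₁ : Type w} [AddCommGroup L₀] [Module k L₀]
  [AddCommGroup L₁] [Module k L₁] [FiniteDimensional k L₀]

theorem two_ne (k : Type*) [Field k] (p : ℕ) [CharP k p] (hp2 : 2 < p) : (2 : k) ≠ 0 := by
  intro h0
  have h1 : ((2 : ℕ) : k) = 0 := by exact_mod_cast h0
  rw [CharP.cast_eq_zero_iff k p] at h1
  have := Nat.le_of_dvd (by norm_num) h1
  omega

/-- Irreducible modules over the even part, if all relations are respected. -/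
theorem even_bound_RR [IsAlgClosed k] (p : ℕ) [hp : Fact p.Prime] [CharP k p] (hp2 : 2 < p)
    (g : LieSuper k L₀ L₁) (hres : ∀ x, ∃ x', g.b00 x' = (g.b00 x) ^ p)
    (hRR : RR (Pool.Agent.Helper56.SKW.PBW.tau (evAlg g (finBasis k L₀))) (finBasis k L₀)
      (Pool.Agent.Helper56.SKR.symb (evAlg g (finBasis k L₀))) g.b00)
    {V : Type*} [AddCommGroup V] [Module k V] [FiniteDimensional k V] (M : EvenModule g V)
    (hM : M.IsIrreducible) : ∃ θ : L₀ →ₗ[k] k, finrank k V ≤ p ^ (bEven g θ / 2) := by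
  classical
  have h2 := two_ne k p hp2
  have hinf : Infinite k := IsAlgClosed.instInfinite
  let G := evAlg g (finBasis k L₀)
  choose pm hpm using hres
  have hRD : RD p (Pool.Agent.Helper56.SKW.PBW.tau G) G.e (Pool.Agent.Helper56.SKR.symb G) G.br
      (fun x => pm (G.e x)) :=
    env_RD (g := G) h2 (fun _ => rfl) (fun x w => LinearMap.congr_fun (hpm _) w)
  obtain ⟨T, hT⟩ := exists_lift G (fun _ => rfl) M.ρ (fun x y => M.map _ _)
  let ρ : Env G →+* Module.End k V := T.toRingHom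
  have hirr : Irr ρ := by
    refine ⟨hM.1, fun W hW => hM.2 W fun x v hv => ?_⟩
    have := hW (Pool.Agent.Helper56.SKW.PBW.tau G x) v hv
    have h3 : ρ (Pool.Agent.Helper56.SKW.PBW.tau G x) = M.ρ x := hT x
    rw [h3] at this
    exact this
  have h3 := hRD.irr_bound hRR (FractionRing (MvPolynomial (Fin (finrank k L₀)) k)) ρ
    (fun g => irr_span hirr g)
  obtain ⟨θ, hθ⟩ := exists_stab (FractionRing (MvPolynomial (Fin (finrank k L₀)) k)) G.e G.br
  rw [Fintype.card_fin] at hθ
  have h4 : stab G.br θ = LinearMap.ker (form₀ g θ) := stab_eq g θ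
  have h5 : hrk (FractionRing (MvPolynomial (Fin (finrank k L₀)) k)) G.e G.br ≤ bEven g θ := by
    rw [h4] at hθ
    unfold bEven
    omega
  refine ⟨θ, ?_⟩
  obtain ⟨c, hc⟩ := even_bEven h2 g θ
  have h6 : bEven g θ / 2 = c := by omega
  rw [h6]
  have h7 : finrank k V * finrank k V ≤ p ^ c * p ^ c := by
    rw [← pow_add, ← hc]
    exact h3.trans (Nat.pow_le_pow_right hp.out.pos h5)
  exact Nat.mul_self_le_mul_self_iff.1 h7

/-- **The super Kac–Weisfeiler equality, if all relations are respected.** -/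
theorem super_of_RR [IsAlgClosed k] [FiniteDimensional k L₁] (p : ℕ) [hp : Fact p.Prime]
    [CharP k p] (hp2 : 2 < p) (g : LieSuper k L₀ L₁)
    (hres : ∀ x, ∃ x', g.b00 x' = (g.b00 x) ^ p ∧ g.b01 x' = (g.b01 x) ^ p)
    (hRR : RR (Pool.Agent.Helper56.SKW.PBW.tau (evAlg g (finBasis k L₀))) (finBasis k L₀)
      (Pool.Agent.Helper56.SKR.symb (evAlg g (finBasis k L₀))) g.b00) :
    ∃ D₀ D c : ℕ, MaxEven g D₀ ∧ MaxSuper g D ∧
      IsGreatest {d | ∃ θ : L₀ →ₗ[k] k, d = p ^ (bEven g θ / 2)} D₀ ∧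
      IsGreatest {e | ∃ θ : L₀ →ₗ[k] k, e = (bOdd g θ + 1) / 2} c ∧ D = D₀ * 2 ^ c ∧
      IsGreatest {d | ∃ θ : L₀ →ₗ[k] k,
        d = p ^ (bEven g θ / 2) * 2 ^ ((bOdd g θ + 1) / 2)} D := by
  obtain ⟨D₀, D, c, hD₀, hD, hc, hDE, hiff⟩ := Pool.Agent.Helper56.SKF.full_iff p hp2 g hres
  obtain ⟨⟨θ, hθ⟩, hc'⟩ := hc
  have hlow := Pool.Agent.Helper56.SKF.low_even p hp2 g hD θ (by rw [hDE, hθ])
  have hup : ∃ θ' : L₀ →ₗ[k] k, D₀ ≤ p ^ (bEven g θ' / 2) := by
    obtain ⟨⟨V, i1, i2, i3, M, hM, hV⟩, -⟩ := hD₀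
    rw [← hV]
    exact even_bound_RR p hp2 g (fun x => by
      obtain ⟨x', hx', -⟩ := hres x
      exact ⟨x', hx'⟩) hRR M hM
  obtain ⟨θ', hθ'⟩ := hup
  have hg : IsGreatest {d | ∃ θ : L₀ →ₗ[k] k, d = p ^ (bEven g θ / 2)} D₀ := by
    refine ⟨⟨θ', le_antisymm hθ' (hlow θ')⟩, ?_⟩
    rintro _ ⟨θ'', rfl⟩
    exact hlow θ''
  exact ⟨D₀, D, c, hD₀, hD, hg, ⟨⟨θ, hθ⟩, hc'⟩, by rw [hDE, mul_comm], hiff.2 hg⟩

end bound

end Pool.Agent.Helper34.KW
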