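import Pool.Agent.Helper34.KW.Words

set_option autoImplicit false

/-!
# Restricted cocycles of systems of derivations of a field of characteristic `p`

Let `X i` be finitely many derivations of a field `F` of characteristic `p` whose commutators and
`p`-th powers are combinations of the `X i`, and let `φ i ∈ F` satisfy the same relations (a
restricted cocycle) and all the `F`-linear relations of the `X i`. Then `φ i = X i f` for an `f`.
-/

namespace Pool.Agent.Helper34.KW

open Finset Module

section prelim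

variable {F : Type*} [Field F]

theorem der_prod_zero {ι : Type*} (D : Derivation ℤ F F) (s : Finset ι) (a : ι → F)
    (h : ∀ i ∈ s, D (a i) = 0) : D (∏ i ∈ s, a i) = 0 := by
  classical
  induction s using Finset.induction_on with
  | empty => simp
  | insert i s hi ih =>
    rw [prod_insert hi, D.leibniz, ih fun j hj => h j (mem_insert_of_mem hj),
      h i (mem_insert_self i s)]
    simp

theorem der_pow_zero (D : Derivation ℤ F F) (a : F) (n : ℕ) (h : D a = 0) : D (a ^ n) = 0 := by
  rw [D.leibniz_pow, h]; simp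

variable {κ : Type*} [Fintype κ] [DecidableEq κ]

/-- monomials -/
def tm (t : κ → F) (m : κ → ℕ) : F := ∏ j, t j ^ m j

theorem der_tm {t : κ → F} (D : Derivation ℤ F F) (i : κ)
    (h : ∀ j, D (t j) = if i = j then 1 else 0) (m : κ → ℕ) :
    D (tm t m) = (m i : F) * tm t (fun j => m j - if i = j then 1 else 0) := by
  have h1 : ∀ m : κ → ℕ, tm t m = t i ^ m i * ∏ j ∈ univ.erase i, t j ^ m j := fun m => by
    unfold tm
    rw [Finset.mul_prod_erase univ (fun j => t j ^ m j) (mem_univ i)]
  rw [h1 m, h1 (fun j => m j - if i = j then 1 else 0), D.leibniz, der_prod_zero D _ _ fun j hj => ?_,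
    D.leibniz_pow, h i, if_pos rfl]
  · have h2 : (∏ j ∈ univ.erase i, t j ^ (m j - if i = j then 1 else 0)) =
        ∏ j ∈ univ.erase i, t j ^ m j := by
      refine prod_congr rfl fun j hj => ?_
      rw [if_neg (ne_of_mem_erase hj).symm, Nat.sub_zero]
    rw [h2]
    simp only [smul_eq_mul, mul_zero, zero_add, nsmul_eq_mul, mul_one, if_true]
    ring
  · exact der_pow_zero D _ _ (by rw [h j, if_neg (ne_of_mem_erase hj).symm])

/-- points at which independent functions have an invertible matrix -/
theorem exists_dual (Y : κ → Derivation ℤ F F)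
    (hind : LinearIndependent F (fun b => (⇑(Y b) : F → F))) :
    ∃ (t : κ → F) (G : κ → κ → F), ∀ i j, ∑ b, G i b * Y b (t j) = if i = j then 1 else 0 := by
  classical
  let v : F → κ → F := fun a b => Y b a
  have hsp : Submodule.span F (Set.range v) = ⊤ := by
    by_contra hne
    obtain ⟨f, hf0, hf⟩ := Submodule.exists_le_ker_of_lt_top _ (lt_top_iff_ne_top.2 hne)
    apply hf0
    have h1 : ∀ a, ∑ b, f (Pi.single b 1) * Y b a = 0 := by
      intro a
      have h2 : f (v a) = 0 := hf (Submodule.subset_span ⟨a, rfl⟩)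
      have h3 : v a = ∑ b, (Y b a) • (Pi.single b 1 : κ → F) := by
        ext c
        simp [v, Finset.sum_apply, Pi.single_apply]
      rw [h3, map_sum] at h2
      rw [← h2]
      refine sum_congr rfl fun b _ => ?_
      rw [map_smul, smul_eq_mul, mul_comm]
    have h4 := Fintype.linearIndependent_iff.1 hind (fun b => f (Pi.single b 1)) (by
      ext a
      simpa [Finset.sum_apply] using h1 a)
    apply LinearMap.pi_ext
    intro b x
    have : (Pi.single b x : κ → F) = x • Pi.single b 1 := by
      ext c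
      by_cases hc : c = b
      · subst hc; simp
      · simp [hc]
    rw [this, map_smul, h4 b]
    simp
  obtain ⟨κ', a, _, h2, h3⟩ := exists_linearIndependent' F v
  have hb : ⊤ ≤ Submodule.span F (Set.range (v ∘ a)) := by rw [h2, hsp]
  let B : Basis κ' F (κ → F) := Basis.mk h3 hb
  let e : κ' ≃ κ := B.indexEquiv (Pi.basisFun F κ)
  let B' : Basis κ F (κ → F) := B.reindex e
  have hB' : ∀ j, B' j = v (a (e.symm j)) := fun j => by
    simp [B', B]
  refine ⟨fun j => a (e.symm j), fun i b => B'.toMatrix (Pi.basisFun F κ) i b, fun i j => ?_⟩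
  have h5 := Basis.toMatrix_mul_toMatrix_flip B' (Pi.basisFun F κ)
  have h6 := congrFun (congrFun h5 i) j
  rw [Matrix.mul_apply, Matrix.one_apply] at h6
  rw [← h6]
  refine sum_congr rfl fun b _ => ?_
  congr 1
  simp [Basis.toMatrix_apply, hB', v]

end prelim

section ext

variable {F : Type*} [Field F]

/-- the operator `(x, y) ↦ (Y x + y ψ, Y y)` -/
def ext (Y : Derivation ℤ F F) (ψ : F) : Module.End ℤ (F × F) where
  toFun w := (Y w.1 + w.2 * ψ, Y w.2)
  map_add' a b := by
    refine Prod.ext ?_ ?_
    · simp only [Prod.fst_add, Prod.snd_add, map_add]; ring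
    · simp
  map_smul' n a := by
    refine Prod.ext ?_ ?_
    · simp; ring
    · simp

theorem ext_apply (Y : Derivation ℤ F F) (ψ : F) (w : F × F) :
    ext Y ψ w = (Y w.1 + w.2 * ψ, Y w.2) := rfl

theorem end_smul_mul (f : F) (a b : Module.End ℤ (F × F)) : (f • a) * b = f • (a * b) := rfl

theorem ext_smul (Y : Derivation ℤ F F) (ψ f : F) (w : F × F) :
    ext Y ψ (f • w) = f • ext Y ψ w + Y f • w := by
  refine Prod.ext ?_ ?_
  · simp only [ext_apply, Prod.smul_fst, Prod.smul_snd, smul_eq_mul, Prod.fst_add, Y.leibniz]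
    ring
  · simp only [ext_apply, Prod.smul_snd, smul_eq_mul, Prod.snd_add, Y.leibniz]
    ring

theorem ext_mul_smul (Y : Derivation ℤ F F) (ψ f : F) (a : Module.End ℤ (F × F)) :
    ext Y ψ * (f • a) = f • (ext Y ψ * a) + Y f • a := by
  refine LinearMap.ext fun w => ?_
  rw [Module.End.mul_apply, LinearMap.smul_apply, ext_smul]
  rfl

theorem der_sum_apply {κ : Type*} (s : Finset κ) (D : κ → Derivation ℤ F F) (a : F) :
    (∑ b ∈ s, D b) a = ∑ b ∈ s, D b a := by
  classical
  induction s using Finset.induction_on with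
  | empty => simp
  | insert i s hi ih => rw [sum_insert hi, sum_insert hi, Derivation.add_apply, ih]

theorem ext_sum {κ : Type*} [Fintype κ] (g : κ → F) (Y : κ → Derivation ℤ F F) (ψ : κ → F) :
    ext (∑ b, g b • Y b) (∑ b, g b * ψ b) = ∑ b, g b • ext (Y b) (ψ b) := by
  refine LinearMap.ext fun w => ?_
  rw [LinearMap.sum_apply]
  refine Prod.ext ?_ ?_
  · rw [Prod.fst_sum, ext_apply]
    simp only [LinearMap.smul_apply, ext_apply, Prod.smul_fst, smul_eq_mul]
    rw [der_sum_apply, mul_sum, ← sum_add_distrib]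
    refine sum_congr rfl fun b _ => ?_
    rw [Derivation.smul_apply, smul_eq_mul]
    ring
  · rw [Prod.snd_sum, ext_apply]
    simp only [LinearMap.smul_apply, ext_apply, Prod.smul_snd, smul_eq_mul]
    rw [der_sum_apply]
    rfl

theorem ext_iter (Y : Derivation ℤ F F) (ψ : F) (n : ℕ) (f : F) (w : F × F) :
    (ext Y ψ ^ n) (f • w) = ∑ ij ∈ antidiagonal n,
      n.choose ij.1 • ((Y^[ij.1] f) • (ext Y ψ ^ ij.2) w) := by
  induction n with
  | zero => simp
  | succ n ih =>
    rw [pow_succ', Module.End.mul_apply, ih, map_sum,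
      Finset.sum_antidiagonal_choose_succ_nsmul (fun i j => (Y^[i] f) • (ext Y ψ ^ j) w) n,
      ← sum_add_distrib]
    refine sum_congr rfl fun ij hij => ?_
    rw [map_nsmul, ext_smul, nsmul_add, ← Function.iterate_succ_apply' (⇑Y), pow_succ' _ ij.2,
      Module.End.mul_apply]
    congr 2
    rw [HasAntidiagonal.mem_antidiagonal] at hij
    rw [← hij, Nat.choose_symm_add]

theorem ext_pow_p {p : ℕ} [hp : Fact p.Prime] [CharP F p] (Y : Derivation ℤ F F) (ψ : F)
    (w : F × F) :
    (ext Y ψ ^ p) w = (Y^[p] w.1 + w.2 * Y^[p - 1] ψ, Y^[p] w.2) := by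
  have hleib : ∀ (f : F) (w : F × F),
      (ext Y ψ ^ p) (f • w) = f • (ext Y ψ ^ p) w + Y^[p] f • w := by
    intro f w
    rw [ext_iter, Finset.Nat.sum_antidiagonal_eq_sum_range_succ
      (fun i j => p.choose i • ((Y^[i] f) • (ext Y ψ ^ j) w)), sum_range_succ,
      ← Nat.succ_pred_eq_of_pos hp.out.pos, sum_range_succ', Nat.succ_pred_eq_of_pos hp.out.pos]
    rw [sum_eq_zero]
    · simp
    · intro i hi
      rw [mem_range] at hi
      have h1 : p ∣ p.choose (i + 1) := by
        apply hp.out.dvd_choose_self (by omega)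
        have := hp.out.pos
        rw [Nat.pred_eq_sub_one] at hi
        omega
      obtain ⟨c, hc⟩ := h1
      rw [hc, ← Nat.cast_smul_eq_nsmul F, Nat.cast_mul, CharP.cast_eq_zero, zero_mul, zero_smul]
  have h1 : w = w.1 • ((1 : F), (0 : F)) + w.2 • ((0 : F), (1 : F)) := by
    refine Prod.ext ?_ ?_ <;> simp
  have h2 : (ext Y ψ ^ p) ((1 : F), (0 : F)) = 0 := by
    obtain ⟨q, rfl⟩ : ∃ q, p = q + 1 := ⟨p - 1, by have := hp.out.pos; omega⟩
    rw [pow_succ, Module.End.mul_apply]
    have : ext Y ψ ((1 : F), (0 : F)) = 0 := by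
      refine Prod.ext ?_ ?_ <;> simp [ext_apply]
    rw [this, map_zero]
  have h3 : ∀ n, (ext Y ψ ^ (n + 1)) ((0 : F), (1 : F)) = (Y^[n] ψ, 0) := by
    intro n
    induction n with
    | zero =>
      refine Prod.ext ?_ ?_ <;> simp [ext_apply]
    | succ n ih =>
      rw [pow_succ', Module.End.mul_apply, ih, Function.iterate_succ_apply']
      refine Prod.ext ?_ ?_ <;> simp [ext_apply]
  have h4 : (ext Y ψ ^ p) ((0 : F), (1 : F)) = (Y^[p - 1] ψ, 0) := by
    have := h3 (p - 1)
    rwa [Nat.sub_add_cancel hp.out.pos] at this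
  conv_lhs => rw [h1]
  rw [map_add, hleib, hleib, h2, h4]
  refine Prod.ext ?_ ?_
  · simp
  · simp

end ext

section integrate

variable {F : Type*} [Field F] {p : ℕ} [hp : Fact p.Prime] [CharP F p]

theorem der_natCast_inv (D : Derivation ℤ F F) (n : ℕ) : D ((n : F)⁻¹) = 0 := by
  rw [D.leibniz_inv, D.map_natCast]; simp

omit hp [CharP F p] in
theorem der_const_mul (D : Derivation ℤ F F) (c a : F) (hc : D c = 0) : D (c * a) = c * D a := by
  rw [D.leibniz, hc]; simp

omit hp in
/-- integration in one variable -/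
theorem integrate_one (D : Derivation ℤ F F) {t β : F} (ht : D t = 1) (hβ : D^[p - 1] β = 0) :
    D (∑ j ∈ range (p - 1), (-1) ^ j * (((j + 1).factorial : F)⁻¹ * (t ^ (j + 1) * D^[j] β))) =
      β := by
  let g : ℕ → F := fun j => (-1) ^ j * (((j.factorial : ℕ) : F)⁻¹ * (t ^ j * D^[j] β))
  have hm1 : ∀ j : ℕ, D ((-1 : F) ^ j) = 0 := fun j => der_pow_zero D _ _ (by simp)
  have h1 : ∀ j ∈ range (p - 1), D ((-1) ^ j * (((j + 1).factorial : F)⁻¹ *
      (t ^ (j + 1) * D^[j] β))) = g j - g (j + 1) := by
    intro j hj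
    rw [mem_range] at hj
    rw [der_const_mul D _ _ (hm1 j), der_const_mul D _ _ (der_natCast_inv D _), D.leibniz,
      D.leibniz_pow, ht, ← Function.iterate_succ_apply' (⇑D) j β]
    have hne : ((j + 1 : ℕ) : F) ≠ 0 := by
      intro h0
      rw [CharP.cast_eq_zero_iff F p] at h0
      have := Nat.le_of_dvd (Nat.succ_pos j) h0
      omega
    have hf : ((j + 1).factorial : F) = ((j + 1 : ℕ) : F) * (j.factorial : F) := by
      rw [Nat.factorial_succ]; push_cast; ring
    simp only [g]
    rw [hf, mul_inv]
    simp only [smul_eq_mul, nsmul_eq_mul, mul_one, Nat.add_sub_cancel]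
    rw [pow_succ (-1 : F) j]
    field_simp
    ring
  rw [map_sum, sum_congr rfl h1, Finset.sum_range_sub']
  simp only [g]
  rw [hβ]
  simp

/-- integration of closed forms -/
theorem integrate {κ : Type*} [Fintype κ] [DecidableEq κ] (D : κ → Derivation ℤ F F) (t : κ → F)
    (ht : ∀ i j, D i (t j) = if i = j then 1 else 0) (hcomm : ∀ i j a, D i (D j a) = D j (D i a))
    (hpow : ∀ i a, (D i)^[p] a = 0) (α : κ → F) (hα : ∀ i j, D i (α j) = D j (α i))
    (hαp : ∀ i, (D i)^[p - 1] (α i) = 0) : ∃ f, ∀ i, D i f = α i := by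
  have key : ∀ s : Finset κ, ∃ f, ∀ i ∈ s, D i f = α i := by
    intro s
    induction s using Finset.induction_on with
    | empty => exact ⟨0, fun i hi => absurd hi (Finset.notMem_empty i)⟩
    | insert k s hk ih =>
      obtain ⟨f, hf⟩ := ih
      set β := α k - D k f with hβdef
      have hβ1 : ∀ i ∈ s, D i β = 0 := by
        intro i hi
        rw [hβdef, map_sub, hcomm i k, hf i hi, hα i k, sub_self]
      have hβ2 : (D k)^[p - 1] β = 0 := by
        have h1 : ∀ n a b, (D k)^[n] (a - b) = (D k)^[n] a - (D k)^[n] b := by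
          intro n
          induction n with
          | zero => intro a b; rfl
          | succ n ih =>
            intro a b
            rw [Function.iterate_succ_apply', ih, map_sub, ← Function.iterate_succ_apply' (⇑(D k)),
              ← Function.iterate_succ_apply' (⇑(D k))]
        rw [hβdef, h1, hαp k, ← Function.iterate_succ_apply (⇑(D k)) (p - 1) f, Nat.succ_eq_add_one,
          Nat.sub_add_cancel hp.out.pos, hpow k f, sub_zero]
      set h := ∑ j ∈ range (p - 1), (-1) ^ j * (((j + 1).factorial : F)⁻¹ *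
        (t k ^ (j + 1) * (D k)^[j] β)) with hhdef
      have hh1 : D k h = β := integrate_one (D k) (by rw [ht k k, if_pos rfl]) hβ2
      have hh2 : ∀ i ∈ s, D i h = 0 := by
        intro i hi
        have hik : i ≠ k := fun h => hk (h ▸ hi)
        have h3 : ∀ j, D i ((D k)^[j] β) = 0 := by
          intro j
          induction j with
          | zero => exact hβ1 i hi
          | succ j ih => rw [Function.iterate_succ_apply', hcomm i k, ih, map_zero]
        rw [hhdef, map_sum]
        refine sum_eq_zero fun j _ => ?_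
        rw [der_const_mul _ _ _ (der_pow_zero (D i) _ _ (by simp)),
          der_const_mul _ _ _ (der_natCast_inv (D i) _), (D i).leibniz, h3 j,
          der_pow_zero (D i) _ _ (by rw [ht i k, if_neg hik])]
        simp
      refine ⟨f + h, fun i hi => ?_⟩
      rw [mem_insert] at hi
      rcases hi with rfl | hi
      · rw [map_add, hh1, hβdef]; ring
      · rw [map_add, hf i hi, hh2 i hi, add_zero]
  obtain ⟨f, hf⟩ := key univ
  exact ⟨f, fun i => hf i (mem_univ i)⟩

end integrate

section core

variable {F : Type*} [Field F] {p : ℕ} [hp : Fact p.Prime] [CharP F p]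
  {κ : Type*} [Fintype κ] [DecidableEq κ]

theorem pw_ext_zero (D : κ → Derivation ℤ F F) (α : κ → F) (l : List κ) (x : F) :
    ∃ y, (pw (fun i => ext (D i) (α i)) l) (x, (0 : F)) = (y, 0) := by
  induction l generalizing x with
  | nil => exact ⟨x, by simp [pw_nil]⟩
  | cons i l ih =>
    obtain ⟨y, hy⟩ := ih x
    refine ⟨D i y, ?_⟩
    rw [pw_cons, Module.End.mul_apply, hy, ext_apply]
    simp

/-- words act on monomials by descending factorials -/
theorem pw_tm (D : κ → Derivation ℤ F F) (t α : κ → F)
    (ht : ∀ i j, D i (t j) = if i = j then 1 else 0) {m : κ → ℕ} (hm : ∀ i, m i < p)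
    (l : List κ) :
    ((∃ i, m i < l.count i) ∧ (pw (fun i => ext (D i) (α i)) l) (tm t m, (0 : F)) = 0) ∨
    ((∀ i, l.count i ≤ m i) ∧ ∃ c : ℕ, (c : F) ≠ 0 ∧
      (pw (fun i => ext (D i) (α i)) l) (tm t m, (0 : F)) =
        ((c : F) * tm t (fun i => m i - l.count i), 0)) := by
  induction l with
  | nil =>
    right
    refine ⟨fun i => by simp, 1, by simp, ?_⟩
    simp [pw_nil]
  | cons i l ih =>
    rcases ih with ⟨⟨j, hj⟩, h⟩ | ⟨hle, c, hc, h⟩
    · left
      refine ⟨⟨j, ?_⟩, ?_⟩
      · exact lt_of_lt_of_le hj (List.count_le_count_cons)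
      · rw [pw_cons, Module.End.mul_apply, h, map_zero]
    · have hD : ext (D i) (α i) ((c : F) * tm t (fun i => m i - l.count i), (0 : F)) =
          ((c : F) * ((m i - l.count i : ℕ) : F) *
            tm t (fun j => (m j - l.count j) - if i = j then 1 else 0), 0) := by
        rw [ext_apply]
        refine Prod.ext ?_ ?_
        · simp only [zero_mul, add_zero]
          rw [der_const_mul _ _ _ ((D i).map_natCast c), der_tm (D i) i (ht i)]
          ring
        · simp
      rcases Nat.eq_zero_or_pos (m i - l.count i) with h0 | h0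
      · left
        refine ⟨⟨i, ?_⟩, ?_⟩
        · rw [List.count_cons_self]
          have := hle i
          omega
        · rw [pw_cons, Module.End.mul_apply, h, hD, h0]
          simp
      · right
        refine ⟨fun j => ?_, c * (m i - l.count i), ?_, ?_⟩
        · rcases eq_or_ne i j with rfl | hij
          · rw [List.count_cons_self]; omega
          · rw [List.count_cons_of_ne hij]; exact hle j
        · rw [Nat.cast_mul]
          refine mul_ne_zero hc ?_
          intro h1
          rw [CharP.cast_eq_zero_iff F p] at h1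
          have := Nat.le_of_dvd h0 h1
          have := hm i
          omega
        · rw [pw_cons, Module.End.mul_apply, h, hD, Nat.cast_mul]
          have h2 : (fun j => (m j - l.count j) - if i = j then 1 else 0) =
              fun j => m j - (i :: l).count j := by
            funext j
            rcases eq_or_ne i j with rfl | hij
            · rw [List.count_cons_self, if_pos rfl]; omega
            · rw [List.count_cons_of_ne hij, if_neg hij, Nat.sub_zero]
          rw [h2]

/-- the span of all words -/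
def AA (Y : κ → Module.End ℤ (F × F)) : Submodule F (Module.End ℤ (F × F)) :=
  Submodule.span F (Set.range (pw Y))

omit [Fintype κ] [DecidableEq κ] in
theorem AA_left (D : κ → Derivation ℤ F F) (α : κ → F) (i : κ) {a : Module.End ℤ (F × F)}
    (ha : a ∈ AA (fun i => ext (D i) (α i))) :
    ext (D i) (α i) * a ∈ AA (fun i => ext (D i) (α i)) := by
  unfold AA at ha
  induction ha using Submodule.span_induction with
  | mem a h =>
    obtain ⟨l, rfl⟩ := h
    exact Submodule.subset_span ⟨i :: l, pw_cons _ _ _⟩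
  | zero => rw [mul_zero]; exact Submodule.zero_mem _
  | add a b _ _ ha hb => rw [mul_add]; exact Submodule.add_mem _ ha hb
  | smul f a h ha =>
    rw [ext_mul_smul]
    exact Submodule.add_mem _ (Submodule.smul_mem _ _ ha) (Submodule.smul_mem _ _ h)

/-- The central step: the words in the dual derivations form a basis, so an element which kills
all monomials vanishes. -/
theorem vanish (Y : κ → Derivation ℤ F F) (ψ : κ → F)
    (hc : ∀ i j, ∃ c : κ → F, (∀ a, Y i (Y j a) - Y j (Y i a) = ∑ k, c k * Y k a) ∧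
      Y i (ψ j) - Y j (ψ i) = ∑ k, c k * ψ k)
    (hd : ∀ i, ∃ d : κ → F, (∀ a, (Y i)^[p] a = ∑ k, d k * Y k a) ∧
      (Y i)^[p - 1] (ψ i) = ∑ k, d k * ψ k)
    (t : κ → F) (G : κ → κ → F)
    (hG : ∀ i j, ∑ b, G i b * Y b (t j) = if i = j then 1 else 0)
    (D : κ → Derivation ℤ F F) (hD : ∀ i, D i = ∑ b, G i b • Y b)
    (α : κ → F) (hα : ∀ i, α i = ∑ b, G i b * ψ b)
    (T : Module.End ℤ (F × F))
    (hT : T ∈ Submodule.span F (Set.range (pw (fun i => ext (D i) (α i)))))
    (hT0 : ∀ m : κ → ℕ, (∀ i, m i < p) → (T (tm t m, (0 : F))).1 = 0) : T = 0 := by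
  classical
  have hp2 := hp.out.two_le
  have ht : ∀ i j, D i (t j) = if i = j then 1 else 0 := by
    intro i j
    rw [hD i, der_sum_apply, ← hG i j]
    rfl
  -- the algebra of the `Y`
  let Z : κ → Module.End ℤ (F × F) := fun i => ext (Y i) (ψ i)
  have hs : ∀ (f : F) (a b : Module.End ℤ (F × F)), (f • a) * b = f • (a * b) := end_smul_mul
  have hZY : ∀ i (f : F) (a : Module.End ℤ (F × F)),
      ∃ g : F, Z i * (f • a) = f • (Z i * a) + g • a := fun i f a => ⟨Y i f, ext_mul_smul _ _ _ _⟩
  have hZc : ∀ i j, Z i * Z j - Z j * Z i ∈ Submodule.span F (Set.range Z) := by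
    intro i j
    obtain ⟨c, hc1, hc2⟩ := hc i j
    have : Z i * Z j - Z j * Z i = ∑ k, c k • Z k := by
      refine LinearMap.ext fun w => ?_
      rw [LinearMap.sub_apply, Module.End.mul_apply, Module.End.mul_apply, LinearMap.sum_apply]
      refine Prod.ext ?_ ?_
      · rw [Prod.fst_sum]
        simp only [Z, ext_apply, LinearMap.smul_apply, Prod.smul_fst, smul_eq_mul, Prod.fst_sub,
          map_add, Derivation.leibniz]
        have h1 := hc1 w.1
        simp only [mul_add, sum_add_distrib]
        rw [← h1]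
        have h2 : ∑ k, c k * (w.2 * ψ k) = w.2 * ∑ k, c k * ψ k := by
          rw [mul_sum]; exact sum_congr rfl fun k _ => by ring
        rw [h2, ← hc2]
        ring
      · rw [Prod.snd_sum]
        simp only [Z, ext_apply, LinearMap.smul_apply, Prod.smul_snd, smul_eq_mul, Prod.snd_sub]
        exact hc1 w.2
    rw [this]
    exact Submodule.sum_mem _ fun k _ => Submodule.smul_mem _ _ (Submodule.subset_span ⟨k, rfl⟩)
  have hZp : ∀ i, Z i ^ p ∈ Submodule.span F (Set.range Z) := by
    intro i
    obtain ⟨d, hd1, hd2⟩ := hd i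
    have : Z i ^ p = ∑ k, d k • Z k := by
      refine LinearMap.ext fun w => ?_
      rw [LinearMap.sum_apply]
      simp only [Z]
      rw [ext_pow_p]
      refine Prod.ext ?_ ?_
      · rw [Prod.fst_sum]
        simp only [ext_apply, LinearMap.smul_apply, Prod.smul_fst, smul_eq_mul]
        simp only [mul_add, sum_add_distrib]
        rw [← hd1 w.1, hd2, mul_sum]
        congr 1
        exact sum_congr rfl fun k _ => by ring
      · rw [Prod.snd_sum]
        simp only [ext_apply, LinearMap.smul_apply, Prod.smul_snd, smul_eq_mul]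
        exact hd1 w.2
    rw [this]
    exact Submodule.sum_mem _ fun k _ => Submodule.smul_mem _ _ (Submodule.subset_span ⟨k, rfl⟩)
  -- the two spans
  let A := Submodule.span F
    (Set.range fun e : κ → Fin p => pw Z (sw fun i => ((e i : Fin p) : ℕ)))
  have hAA : AA Z ≤ A := by
    unfold AA
    rw [Submodule.span_le]
    rintro _ ⟨l, rfl⟩
    exact word_mem hs hZY hZc hp2 hZp l
  have hfin : FiniteDimensional F A := FiniteDimensional.span_of_finite F (Set.finite_range _)
  have hrank : finrank F A ≤ Fintype.card (κ → Fin p) := finrank_range_le_card _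
  let W : κ → Module.End ℤ (F × F) := fun i => ext (D i) (α i)
  have hWZ : ∀ i, W i = ∑ b, G i b • Z b := by
    intro i
    simp only [W, Z]
    rw [hD i, hα i, ext_sum]
  have hWA : ∀ l, pw W l ∈ AA Z := by
    intro l
    induction l with
    | nil => exact Submodule.subset_span ⟨[], by rw [pw_nil, pw_nil]⟩
    | cons i l ih =>
      rw [pw_cons, hWZ, sum_mul]
      refine Submodule.sum_mem _ fun b _ => ?_
      rw [hs]
      exact Submodule.smul_mem _ _ (AA_left Y ψ b ih)
  let B : (κ → Fin p) → Module.End ℤ (F × F) := fun e => pw W (sw fun i => ((e i : Fin p) : ℕ))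
  -- the evaluation
  have hev : ∀ (g : (κ → Fin p) → F),
      (∀ m : κ → ℕ, (∀ i, m i < p) → ((∑ e, g e • B e) (tm t m, (0 : F))).1 = 0) → ∀ e, g e = 0 := by
    intro g hg
    by_contra hne
    push Not at hne
    obtain ⟨e1, he1⟩ := hne
    obtain ⟨e0, he0, hmin⟩ := exists_min_image (univ.filter fun e => g e ≠ 0)
      (fun e : κ → Fin p => ∑ i, ((e i : Fin p) : ℕ)) ⟨e1, by simpa using he1⟩
    rw [mem_filter] at he0
    have h1 := hg (fun i => ((e0 i : Fin p) : ℕ)) (fun i => (e0 i).2)
    rw [LinearMap.sum_apply, Prod.fst_sum, Finset.sum_eq_single e0] at h1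
    · rcases pw_tm D t α ht (m := fun i => ((e0 i : Fin p) : ℕ)) (fun i => (e0 i).2)
        (sw fun i => ((e0 i : Fin p) : ℕ)) with ⟨⟨i, hi⟩, _⟩ | ⟨_, c, hc0, h2⟩
      · rw [count_sw] at hi
        exact lt_irrefl _ hi
      · have h3 : (B e0) (tm t (fun i => ((e0 i : Fin p) : ℕ)), (0 : F)) = _ := h2
        rw [LinearMap.smul_apply, h3] at h1
        simp only [count_sw, Nat.sub_self, Prod.smul_fst, smul_eq_mul] at h1
        have h4 : tm t (fun _ => 0) = (1 : F) := by simp [tm]
        rw [h4, mul_one] at h1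
        rcases mul_eq_zero.1 h1 with h5 | h5
        · exact he0.2 h5
        · exact hc0 h5
    · intro e _ hee
      by_cases hge : g e = 0
      · rw [hge, zero_smul]; rfl
      · rcases pw_tm D t α ht (m := fun i => ((e0 i : Fin p) : ℕ)) (fun i => (e0 i).2)
          (sw fun i => ((e i : Fin p) : ℕ)) with ⟨_, h2⟩ | ⟨hle, _⟩
        · have h3 : (B e) (tm t (fun i => ((e0 i : Fin p) : ℕ)), (0 : F)) = 0 := h2
          rw [LinearMap.smul_apply, h3, smul_zero]
          rfl
        · exfalso
          have h4 := hmin e (by rw [mem_filter]; exact ⟨mem_univ _, hge⟩)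
          apply hee
          funext i
          apply Fin.ext
          by_contra hi
          have h5 : ∀ j, ((e j : Fin p) : ℕ) ≤ ((e0 j : Fin p) : ℕ) := fun j => by
            have := hle j
            rwa [count_sw] at this
          have h6 : ∑ j, ((e j : Fin p) : ℕ) < ∑ j, ((e0 j : Fin p) : ℕ) :=
            sum_lt_sum (fun j _ => h5 j) ⟨i, mem_univ i, lt_of_le_of_ne (h5 i) hi⟩
          omega
    · intro h; exact absurd (mem_univ e0) h
  have hBind : LinearIndependent F B := by
    rw [Fintype.linearIndependent_iff]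
    intro g hg
    apply hev g
    intro m _
    rw [hg]
    rfl
  have hBA : Submodule.span F (Set.range B) ≤ A := by
    rw [Submodule.span_le]
    rintro _ ⟨e, rfl⟩
    exact hAA (hWA _)
  have hBeq : Submodule.span F (Set.range B) = A := by
    apply Submodule.eq_of_le_of_finrank_le hBA
    rw [finrank_span_eq_card hBind]
    exact hrank
  have hTA : T ∈ A := by
    refine (Submodule.span_le.2 ?_) hT
    rintro _ ⟨l, rfl⟩
    exact hAA (hWA l)
  rw [← hBeq] at hTA
  obtain ⟨g, hg⟩ := (Submodule.mem_span_range_iff_exists_fun F).1 hTA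
  have h7 := hev g (by rw [hg]; exact hT0)
  rw [← hg]
  exact sum_eq_zero fun e _ => by rw [h7 e, zero_smul]

/-- The independent case. -/
theorem inner_indep (Y : κ → Derivation ℤ F F) (ψ : κ → F)
    (hind : LinearIndependent F (fun b => (⇑(Y b) : F → F)))
    (hc : ∀ i j, ∃ c : κ → F, (∀ a, Y i (Y j a) - Y j (Y i a) = ∑ k, c k * Y k a) ∧
      Y i (ψ j) - Y j (ψ i) = ∑ k, c k * ψ k)
    (hd : ∀ i, ∃ d : κ → F, (∀ a, (Y i)^[p] a = ∑ k, d k * Y k a) ∧
      (Y i)^[p - 1] (ψ i) = ∑ k, d k * ψ k) : ∃ f, ∀ b, Y b f = ψ b := by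
  classical
  obtain ⟨t, G, hG⟩ := exists_dual Y hind
  set D : κ → Derivation ℤ F F := fun i => ∑ b, G i b • Y b with hD
  set α : κ → F := fun i => ∑ b, G i b * ψ b with hα
  have ht : ∀ i j, D i (t j) = if i = j then 1 else 0 := by
    intro i j
    rw [hD, der_sum_apply, ← hG i j]
    rfl
  have van := vanish Y ψ hc hd t G hG D (fun i => rfl) α (fun i => rfl)
  set W : κ → Module.End ℤ (F × F) := fun i => ext (D i) (α i) with hW
  have hmem : ∀ l, pw W l ∈ Submodule.span F (Set.range (pw W)) := fun l =>
    Submodule.subset_span ⟨l, rfl⟩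
  have hW2 : ∀ i j, W i * W j = pw W [i, j] := fun i j => by
    rw [pw_cons, pw_cons, pw_nil, mul_one]
  -- commutators
  have hcm : ∀ i j, W i * W j - W j * W i = 0 := by
    intro i j
    apply van
    · rw [hW2, hW2]
      exact Submodule.sub_mem _ (hmem _) (hmem _)
    · intro m _
      have h1 : ⁅D i, D j⁆ (tm t m) = 0 := by
        unfold tm
        apply der_prod_zero
        intro k _
        apply der_pow_zero
        rw [Derivation.commutator_apply, ht j k, ht i k]
        by_cases h1 : j = k <;> by_cases h2 : i = k <;> simp [h1, h2]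
      rw [Derivation.commutator_apply] at h1
      rw [LinearMap.sub_apply, Module.End.mul_apply, Module.End.mul_apply]
      simp only [hW, ext_apply, zero_mul, add_zero, map_zero, Prod.fst_sub]
      exact h1
  -- powers
  have hpw : ∀ i, W i ^ p = 0 := by
    intro i
    apply van
    · rw [← pw_replicate]
      exact hmem _
    · intro m hm
      rcases pw_tm D t α ht hm (List.replicate p i) with ⟨_, h⟩ | ⟨h, _⟩
      · rw [pw_replicate] at h
        have h' : (W i ^ p) (tm t m, (0 : F)) = 0 := h
        rw [h']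
        rfl
      · have h1 := h i
        rw [List.count_replicate_self] at h1
        have := hm i
        omega
  have hcomm : ∀ i j a, D i (D j a) = D j (D i a) := by
    intro i j a
    have h1 := congrArg (fun T : Module.End ℤ (F × F) => (T (a, 0)).1) (hcm i j)
    simp only [LinearMap.sub_apply, Module.End.mul_apply, hW, ext_apply, zero_mul, add_zero,
      map_zero, Prod.fst_sub, LinearMap.zero_apply, Prod.fst_zero] at h1
    exact sub_eq_zero.1 h1
  have hcl : ∀ i j, D i (α j) = D j (α i) := by
    intro i j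
    have h1 := congrArg (fun T : Module.End ℤ (F × F) => (T (0, 1)).1) (hcm i j)
    simp only [LinearMap.sub_apply, Module.End.mul_apply, hW, ext_apply, one_mul, zero_add,
      map_zero, Prod.fst_sub, LinearMap.zero_apply, Prod.fst_zero, Derivation.map_one_eq_zero,
      zero_mul, add_zero] at h1
    exact sub_eq_zero.1 h1
  have hpa : ∀ i a, (D i)^[p] a = 0 := by
    intro i a
    have h1 := congrArg (fun T : Module.End ℤ (F × F) => (T (0, a)).2) (hpw i)
    simp only [hW] at h1
    rw [ext_pow_p] at h1
    simpa using h1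
  have hpα : ∀ i, (D i)^[p - 1] (α i) = 0 := by
    intro i
    have h1 := congrArg (fun T : Module.End ℤ (F × F) => (T (0, 1)).1) (hpw i)
    simp only [hW] at h1
    rw [ext_pow_p, hpa] at h1
    simpa using h1
  obtain ⟨f, hf⟩ := integrate D t ht hcomm hpa α hcl hpα
  refine ⟨f, ?_⟩
  -- back to the `Y`
  have h1 : ∀ i, ∑ b, G i b * (Y b f - ψ b) = 0 := by
    intro i
    have h2 := hf i
    simp only [hD, hα] at h2
    rw [der_sum_apply] at h2
    simp only [mul_sub, sum_sub_distrib]
    rw [sub_eq_zero, ← h2]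
    rfl
  have h3 : Matrix.mulVec (Matrix.of G) (fun b => Y b f - ψ b) = 0 := by
    funext i
    exact h1 i
  have h4 : Matrix.of G * Matrix.of (fun b j => Y b (t j)) = 1 := by
    ext i j
    rw [Matrix.mul_apply, Matrix.one_apply]
    exact hG i j
  have h5 : Matrix.of (fun b j => Y b (t j)) * Matrix.of G = 1 := mul_eq_one_comm.1 h4
  have h6 : (fun b => Y b f - ψ b) = 0 := by
    have h7 := congrArg (Matrix.mulVec (Matrix.of (fun b j => Y b (t j)))) h3
    rw [Matrix.mulVec_mulVec, h5, Matrix.one_mulVec, Matrix.mulVec_zero] at h7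
    exact h7
  intro b
  exact sub_eq_zero.1 (congrFun h6 b)

end core

/-- **The inner lemma.** -/
theorem inner {F : Type*} [Field F] {p : ℕ} [hp : Fact p.Prime] [CharP F p]
    {ι : Type*} [Fintype ι] (X : ι → Derivation ℤ F F) (φ : ι → F)
    (hc : ∀ i j, ∃ c : ι → F, (∀ a, X i (X j a) - X j (X i a) = ∑ k, c k * X k a) ∧
      X i (φ j) - X j (φ i) = ∑ k, c k * φ k)
    (hd : ∀ i, ∃ d : ι → F, (∀ a, (X i)^[p] a = ∑ k, d k * X k a) ∧
      (X i)^[p - 1] (φ i) = ∑ k, d k * φ k)
    (hw : ∀ w : ι → F, (∀ a, ∑ k, w k * X k a = 0) → ∑ k, w k * φ k = 0) :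
    ∃ f, ∀ i, X i f = φ i := by
  classical
  obtain ⟨κ, a, ha, hspan, hind⟩ := exists_linearIndependent' F (fun i => (⇑(X i) : F → F))
  have hfin : Finite κ := Finite.of_injective a ha
  have := Fintype.ofFinite κ
  -- the `X` in terms of the chosen ones
  have hg : ∀ i, ∃ g : κ → F, (∀ y, X i y = ∑ b, g b * X (a b) y) ∧
      φ i = ∑ b, g b * φ (a b) := by
    intro i
    have h1 : (⇑(X i) : F → F) ∈ Submodule.span F (Set.range ((fun i => (⇑(X i) : F → F)) ∘ a)) := by
      rw [hspan]; exact Submodule.subset_span ⟨i, rfl⟩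
    obtain ⟨g, hg⟩ := (Submodule.mem_span_range_iff_exists_fun F).1 h1
    have h2 : ∀ y, X i y = ∑ b, g b * X (a b) y := by
      intro y
      have := congrFun hg y
      rw [← this]
      simp [Finset.sum_apply]
    refine ⟨g, h2, ?_⟩
    have h3 := hw (fun k => (∑ b, if a b = k then g b else 0) - if k = i then 1 else 0) (by
      intro y
      simp only [sub_mul, sum_sub_distrib, sum_mul, ite_mul, zero_mul, one_mul]
      rw [sum_comm]
      simp only [sum_ite_eq, mem_univ, if_true, sum_ite_eq']
      rw [← h2 y, sub_self])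
    simp only [sub_mul, sum_sub_distrib, sum_mul, ite_mul, zero_mul, one_mul] at h3
    rw [sum_comm] at h3
    simp only [sum_ite_eq, mem_univ, if_true, sum_ite_eq'] at h3
    exact (sub_eq_zero.1 h3).symm
  choose g hg1 hg2 using hg
  have hcomb : ∀ (c : ι → F), (∀ y, ∑ k, c k * X k y = ∑ b, (∑ k, c k * g k b) * X (a b) y) ∧
      ∑ k, c k * φ k = ∑ b, (∑ k, c k * g k b) * φ (a b) := by
    intro c
    constructor
    · intro y
      simp only [sum_mul]
      rw [sum_comm]
      refine sum_congr rfl fun k _ => ?_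
      rw [hg1 k y, mul_sum]
      exact sum_congr rfl fun b _ => by ring
    · simp only [sum_mul]
      rw [sum_comm]
      refine sum_congr rfl fun k _ => ?_
      rw [hg2 k, mul_sum]
      exact sum_congr rfl fun b _ => by ring
  obtain ⟨f, hf⟩ := inner_indep (p := p) (fun b => X (a b)) (fun b => φ (a b)) hind
    (fun i j => by
      obtain ⟨c, h1, h2⟩ := hc (a i) (a j)
      refine ⟨fun b => ∑ k, c k * g k b, fun y => ?_, ?_⟩
      · rw [h1 y, (hcomb c).1 y]
      · rw [h2, (hcomb c).2])
    (fun i => by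
      obtain ⟨d, h1, h2⟩ := hd (a i)
      refine ⟨fun b => ∑ k, d k * g k b, fun y => ?_, ?_⟩
      · rw [h1 y, (hcomb d).1 y]
      · rw [h2, (hcomb d).2])
  refine ⟨f, fun i => ?_⟩
  rw [hg1 i f, hg2 i]
  exact sum_congr rfl fun b _ => by rw [hf b]

end Pool.Agent.Helper34.KW
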