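import Mathlib

set_option autoImplicit false

/-!
# Words in operators of first order (restricted enveloping algebras over a field of functions)

`F` a field, `E` a ring which is an `F`-module with `(f a) b = f (a b)`; operators `Y i ∈ E` with
`Y i (f a) = f (Y i a) + g a`, all commutators and all `p`-th powers of the `Y i` lie in the
`F`-span of the `Y`. Then the `F`-span of all words in the `Y i` is spanned by the ordered words
in which every letter occurs less than `p` times.
-/

namespace Pool.Agent.Helper34.KW

open Finset Module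

section words

/-- the list with prescribed numbers of letters -/
noncomputable def sw {κ : Type*} [Fintype κ] (e : κ → ℕ) : List κ :=
  (∑ i, Multiset.replicate (e i) i).toList

theorem count_sw {κ : Type*} [Fintype κ] [DecidableEq κ] (e : κ → ℕ) (i : κ) :
    (sw e).count i = e i := by
  unfold sw
  rw [← Multiset.coe_count, Multiset.coe_toList, Multiset.count_sum']
  simp [Multiset.count_replicate]

variable {F : Type*} [Field F] {E : Type*} [Ring E] [Module F E] {κ : Type*}

/-- the product of a word -/
def pw (Y : κ → E) (l : List κ) : E := (l.map Y).prod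

theorem pw_nil (Y : κ → E) : pw Y [] = 1 := by simp [pw]

theorem pw_cons (Y : κ → E) (i : κ) (l : List κ) : pw Y (i :: l) = Y i * pw Y l := by
  simp [pw]

theorem pw_append (Y : κ → E) (l l' : List κ) : pw Y (l ++ l') = pw Y l * pw Y l' := by
  simp [pw]

theorem pw_replicate (Y : κ → E) (i : κ) (n : ℕ) : pw Y (List.replicate n i) = Y i ^ n := by
  simp [pw]

variable (F) in
/-- the span of the words of length at most `d` -/
def WW (Y : κ → E) (d : ℕ) : Submodule F E :=
  Submodule.span F {a | ∃ l : List κ, l.length ≤ d ∧ pw Y l = a}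

theorem WW_mono (Y : κ → E) {d e : ℕ} (h : d ≤ e) : WW F Y d ≤ WW F Y e := by
  apply Submodule.span_mono
  rintro a ⟨l, hl, rfl⟩
  exact ⟨l, hl.trans h, rfl⟩

theorem pw_mem (Y : κ → E) {l : List κ} {d : ℕ} (h : l.length ≤ d) : pw Y l ∈ WW F Y d :=
  Submodule.subset_span ⟨l, h, rfl⟩

variable {Y : κ → E}

theorem mul_left (hY : ∀ i (f : F) (a : E), ∃ g : F, Y i * (f • a) = f • (Y i * a) + g • a)
    {d : ℕ} {a : E} (ha : a ∈ WW F Y d) (i : κ) : Y i * a ∈ WW F Y (d + 1) := by
  unfold WW at ha
  induction ha using Submodule.span_induction with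
  | mem a h =>
    obtain ⟨l, hl, rfl⟩ := h
    rw [← pw_cons]
    exact pw_mem Y (by simpa using hl)
  | zero => rw [mul_zero]; exact Submodule.zero_mem _
  | add a b _ _ ha hb => rw [mul_add]; exact Submodule.add_mem _ ha hb
  | smul f a h ha =>
    obtain ⟨g, hg⟩ := hY i f a
    rw [hg]
    exact Submodule.add_mem _ (Submodule.smul_mem _ _ ha)
      (Submodule.smul_mem _ _ (WW_mono Y (Nat.le_succ d) h))

theorem mul_right (hs : ∀ (f : F) (a b : E), (f • a) * b = f • (a * b))
    {d : ℕ} {a : E} (ha : a ∈ WW F Y d) (l : List κ) : a * pw Y l ∈ WW F Y (d + l.length) := by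
  unfold WW at ha
  induction ha using Submodule.span_induction with
  | mem a h =>
    obtain ⟨l', hl, rfl⟩ := h
    rw [← pw_append]
    exact pw_mem Y (by rw [List.length_append]; omega)
  | zero => rw [zero_mul]; exact Submodule.zero_mem _
  | add a b _ _ ha hb => rw [add_mul]; exact Submodule.add_mem _ ha hb
  | smul f a h ha => rw [hs]; exact Submodule.smul_mem _ _ ha

theorem span_le_WW : Submodule.span F (Set.range Y) ≤ WW F Y 1 := by
  rw [Submodule.span_le]
  rintro _ ⟨i, rfl⟩
  have : Y i = pw Y [i] := by rw [pw_cons, pw_nil, mul_one]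
  rw [this]
  exact pw_mem Y (by simp)

theorem perm_mem (hs : ∀ (f : F) (a b : E), (f • a) * b = f • (a * b))
    (hY : ∀ i (f : F) (a : E), ∃ g : F, Y i * (f • a) = f • (Y i * a) + g • a)
    (hc : ∀ i j, Y i * Y j - Y j * Y i ∈ Submodule.span F (Set.range Y))
    {l l' : List κ} (h : l.Perm l') :
    ∀ d, l.length ≤ d + 1 → pw Y l - pw Y l' ∈ WW F Y d := by
  induction h with
  | nil => intro d _; rw [sub_self]; exact Submodule.zero_mem _
  | cons x h ih =>
    rename_i l1 l2
    intro d hd
    rw [pw_cons, pw_cons, ← mul_sub]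
    rw [List.length_cons] at hd
    rcases d with _ | d
    · have h1 : l1 = [] := List.length_eq_zero_iff.1 (by omega)
      subst h1
      have h2 : l2 = [] := List.Perm.eq_nil (h.symm)
      subst h2
      rw [sub_self, mul_zero]
      exact Submodule.zero_mem _
    · exact mul_left hY (ih d (by omega)) x
  | swap x y l =>
    intro d hd
    rw [pw_cons, pw_cons, pw_cons, pw_cons, ← mul_assoc, ← mul_assoc, ← sub_mul]
    have h1 := mul_right hs (span_le_WW (hc y x)) l
    rw [List.length_cons, List.length_cons] at hd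
    exact WW_mono Y (by omega) h1
  | trans h1 h2 ih1 ih2 =>
    intro d hd
    have := Submodule.add_mem _ (ih1 d hd) (ih2 d (by rw [← h1.length_eq]; exact hd))
    simpa using this

theorem pow_mem (hs : ∀ (f : F) (a b : E), (f • a) * b = f • (a * b))
    (hY : ∀ i (f : F) (a : E), ∃ g : F, Y i * (f • a) = f • (Y i * a) + g • a)
    (hc : ∀ i j, Y i * Y j - Y j * Y i ∈ Submodule.span F (Set.range Y))
    {p : ℕ} (hp2 : 2 ≤ p) (hp : ∀ i, Y i ^ p ∈ Submodule.span F (Set.range Y))
    [DecidableEq κ] {l : List κ} {i : κ} (hi : p ≤ l.count i) {d : ℕ} (hd : l.length ≤ d + 1) :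
    pw Y l ∈ WW F Y d := by
  have h1 : List.Sublist (List.replicate p i) l := List.replicate_sublist_iff.2 hi
  obtain ⟨l', hl'⟩ := h1.exists_perm_append
  have h2 := perm_mem hs hY hc hl' d hd
  have h3 := mul_right hs (span_le_WW (hp i)) l'
  have h4 : l.length = p + l'.length := by
    rw [hl'.length_eq, List.length_append, List.length_replicate]
  rw [← pw_replicate, ← pw_append] at h3
  have h5 := Submodule.add_mem _ h2 (WW_mono Y (by omega : 1 + l'.length ≤ d) h3)
  simpa using h5

/-- Every word lies in the span of the ordered words with exponents less than `p`. -/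
theorem word_mem (hs : ∀ (f : F) (a b : E), (f • a) * b = f • (a * b))
    (hY : ∀ i (f : F) (a : E), ∃ g : F, Y i * (f • a) = f • (Y i * a) + g • a)
    (hc : ∀ i j, Y i * Y j - Y j * Y i ∈ Submodule.span F (Set.range Y))
    {p : ℕ} (hp2 : 2 ≤ p) (hp : ∀ i, Y i ^ p ∈ Submodule.span F (Set.range Y))
    [Fintype κ] (l : List κ) :
    pw Y l ∈ Submodule.span F
      (Set.range fun e : κ → Fin p => pw Y (sw fun i => ((e i : Fin p) : ℕ))) := by
  classical
  set A := Submodule.span F
    (Set.range fun e : κ → Fin p => pw Y (sw fun i => ((e i : Fin p) : ℕ))) with hA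
  have key : ∀ d : ℕ, WW F Y d ≤ A := by
    intro d
    induction d with
    | zero =>
      unfold WW
      rw [Submodule.span_le]
      rintro a ⟨l, hl, rfl⟩
      have h1 : l = [] := List.length_eq_zero_iff.1 (by omega)
      subst h1
      have h2 : sw (fun i : κ => (((fun _ => ⟨0, by omega⟩ : κ → Fin p) i : Fin p) : ℕ)) = [] := by
        simp [sw]
      refine Submodule.subset_span ⟨fun _ => ⟨0, by omega⟩, ?_⟩
      simp only [h2]
    | succ d ih =>
      unfold WW
      rw [Submodule.span_le]
      rintro a ⟨l, hl, rfl⟩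
      by_cases hi : ∃ i, p ≤ l.count i
      · obtain ⟨i, hi⟩ := hi
        exact ih (pow_mem hs hY hc hp2 hp hi hl)
      · push Not at hi
        have h1 : l.Perm (sw fun i => (((fun j => ⟨l.count j, hi j⟩ : κ → Fin p) i : Fin p) : ℕ)) := by
          rw [List.perm_iff_count]
          intro j
          rw [count_sw]
        have h2 := ih (perm_mem hs hY hc h1 d hl)
        have h3 : pw Y (sw fun i => (((fun j => ⟨l.count j, hi j⟩ : κ → Fin p) i : Fin p) : ℕ)) ∈ A :=
          Submodule.subset_span ⟨fun j => ⟨l.count j, hi j⟩, rfl⟩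
        have h4 := Submodule.add_mem _ h2 h3
        simpa using h4
  exact key l.length (pw_mem Y le_rfl)

end words

end Pool.Agent.Helper34.KW
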